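import Mathlib
import Pool.Agent.Lib.Pf72953.Core

/-!
Elliptic fibre spaces: definitions.
-/

set_option autoImplicit false

open scoped WithZero
open Pf72953

namespace Pf72953.Et

/-- `F (dz)^{12 m}` is a section of `12 m K + m T` on (all models of) `P/k`, `T` the moving part of the linear
system spanned by `T₀, T₁` -/
def TReg (k : Type*) {P ι : Type*} [Field k] [CharZero k] [Field P] [Algebra k P] [Fintype ι]
    [DecidableEq ι] (z : ι → P) (T₀ T₁ : P) (m : ℕ) : Set P :=
  {F | ∀ w : Valuation P ℤᵐ⁰, IsDivisorial k P w → ∀ (c : ι → P) (hc : RegBasis k w c),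
    w F * w (jac hc.tb z) ^ (12 * m) ≤ max (w T₀) (w T₁) ^ m}

/-- `e i` are the roots of `X³ + a X + b` and `s i` are square roots of their differences -/
structure Roots {P : Type*} [Field P] (a b : P) (e s : Fin 3 → P) : Prop where
  sum : e 0 + e 1 + e 2 = 0
  a_eq : a = e 0 * e 1 + e 0 * e 2 + e 1 * e 2
  b_eq : b = -(e 0 * e 1 * e 2)
  s0 : s 0 ^ 2 = e 1 - e 2
  s1 : s 1 ^ 2 = e 0 - e 2
  s2 : s 2 ^ 2 = e 0 - e 1

end Pf72953.Et
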