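import Mathlib
import Pool.Agent.Lib.Pf72953i.Defs

/-!
Elliptic fibre spaces: the scale of the Weierstrass equation.
-/

set_option autoImplicit false

open scoped WithZero
open Pf72953

namespace Pf72953.Et

section alg

/-- the discriminant -/
theorem disc_eq {P : Type*} [Field P] {a b : P} {e s : Fin 3 → P} (h : Roots a b e s) :
    4 * a ^ 3 + 27 * b ^ 2 = -(s 0 * s 1 * s 2) ^ 4 := by
  have h0 : e 0 = -(e 1 + e 2) := by linear_combination h.sum
  have : (s 0 * s 1 * s 2) ^ 4 = (s 0 ^ 2) ^ 2 * (s 1 ^ 2) ^ 2 * (s 2 ^ 2) ^ 2 := by ring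
  rw [this, h.s0, h.s1, h.s2, h.a_eq, h.b_eq, h0]
  ring

/-- the cubic equation -/
theorem root_eq {P : Type*} [Field P] {a b : P} {e s : Fin 3 → P} (h : Roots a b e s) (i : Fin 3) :
    e i ^ 3 + a * e i + b = 0 := by
  have h0 : e 0 = -(e 1 + e 2) := by linear_combination h.sum
  fin_cases i
  · simp only [Fin.zero_eta]
    rw [h.a_eq, h.b_eq, h0]; ring
  · simp only [Fin.mk_one]
    rw [h.a_eq, h.b_eq, h0]; ring
  · simp only [Fin.reduceFinMk]
    rw [h.a_eq, h.b_eq, h0]; ring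

theorem val_e_le {P : Type*} [Field P] {a b : P} {e s : Fin 3 → P} (h : Roots a b e s)
    (T : Valuation P ℤᵐ⁰) (h3 : T (3 : P) = 1) {g : ℤᵐ⁰} (hg : ∀ j, T (s j) ≤ g) (j : Fin 3) :
    T (e j) ≤ g ^ 2 := by
  have key : ∀ j, T (s j ^ 2) ≤ g ^ 2 := fun j => by
    rw [map_pow]; exact pow_le_pow_left₀ zero_le (hg j) 2
  have h0 : (3 : P) * e 0 = s 2 ^ 2 + s 1 ^ 2 := by rw [h.s1, h.s2]; linear_combination h.sum
  have h1 : (3 : P) * e 1 = s 0 ^ 2 - s 2 ^ 2 := by rw [h.s0, h.s2]; linear_combination h.sum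
  have h2 : (3 : P) * e 2 = -s 1 ^ 2 - s 0 ^ 2 := by rw [h.s0, h.s1]; linear_combination h.sum
  have red : ∀ z : P, T (3 * z) = T z := fun z => by rw [map_mul, h3, one_mul]
  fin_cases j
  · simp only [Fin.zero_eta]
    rw [← red, h0]; exact (T.map_add _ _).trans (max_le (key 2) (key 1))
  · simp only [Fin.mk_one]
    rw [← red, h1]; exact (T.map_sub _ _).trans (max_le (key 0) (key 2))
  · simp only [Fin.reduceFinMk]
    rw [← red, h2]
    refine (T.map_sub _ _).trans (max_le ?_ (key 0))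
    rw [Valuation.map_neg]; exact key 1

theorem val_a_le {P : Type*} [Field P] {a b : P} {e s : Fin 3 → P} (h : Roots a b e s)
    (T : Valuation P ℤᵐ⁰) {g : ℤᵐ⁰} (hg : ∀ j, T (e j) ≤ g ^ 2) : T a ≤ g ^ 4 := by
  rw [h.a_eq]
  have key : ∀ i j, T (e i * e j) ≤ g ^ 4 := fun i j => by
    rw [map_mul]; exact (mul_le_mul' (hg i) (hg j)).trans (le_of_eq (pow_add g 2 2).symm)
  exact (T.map_add _ _).trans (max_le ((T.map_add _ _).trans (max_le (key 0 1) (key 0 2))) (key 1 2))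

theorem val_b_le {P : Type*} [Field P] {a b : P} {e s : Fin 3 → P} (h : Roots a b e s)
    (T : Valuation P ℤᵐ⁰) {g : ℤᵐ⁰} (hg : ∀ j, T (e j) ≤ g ^ 2) : T b ≤ g ^ 6 := by
  rw [h.b_eq, Valuation.map_neg, map_mul, map_mul]
  exact (mul_le_mul' (mul_le_mul' (hg 0) (hg 1)) (hg 2)).trans
    (le_of_eq (by rw [← pow_add, ← pow_add]))

/-- E0: the scale of the Weierstrass equation at a valuation -/
theorem exists_scale {P : Type*} [Field P] {a b : P} {e s : Fin 3 → P} (h : Roots a b e s)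
    (hΔ : 4 * a ^ 3 + 27 * b ^ 2 ≠ 0) (T : Valuation P ℤᵐ⁰) (hn : ∀ n : ℕ, n ≠ 0 → T (n : P) = 1) :
    ∃ i, s i ≠ 0 ∧ (∀ j, T (s j) ≤ T (s i)) ∧ T a ≤ T (s i) ^ 4 ∧ T b ≤ T (s i) ^ 6 ∧
      max (T a ^ 3) (T b ^ 2) = T (s i) ^ 12 := by
  obtain ⟨i, hi⟩ := Finite.exists_max (fun j => T (s j))
  have hs : ∀ j, s j ≠ 0 := by
    intro j hj
    apply hΔ
    rw [disc_eq h]
    fin_cases j
    · simp only [Fin.zero_eta] at hj; rw [hj]; ring
    · simp only [Fin.mk_one] at hj; rw [hj]; ring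
    · simp only [Fin.reduceFinMk] at hj; rw [hj]; ring
  have h3 : T (3 : P) = 1 := by exact_mod_cast hn 3 (by norm_num)
  have he := val_e_le h T h3 hi
  have ha := val_a_le h T he
  have hb := val_b_le h T he
  refine ⟨i, hs i, hi, ha, hb, le_antisymm (max_le ?_ ?_) ?_⟩
  · exact (pow_le_pow_left₀ zero_le ha 3).trans (le_of_eq (pow_mul _ 4 3).symm)
  · exact (pow_le_pow_left₀ zero_le hb 2).trans (le_of_eq (pow_mul _ 6 2).symm)
  · by_contra hcon
    rw [not_le, max_lt_iff] at hcon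
    obtain ⟨h1, h2⟩ := hcon
    have ha' : T a < T (s i) ^ 4 := by
      rw [show T (s i) ^ 12 = (T (s i) ^ 4) ^ 3 from pow_mul _ 4 3] at h1
      exact lt_of_pow_lt_pow_left₀ 3 zero_le h1
    have hb' : T b < T (s i) ^ 6 := by
      rw [show T (s i) ^ 12 = (T (s i) ^ 6) ^ 2 from pow_mul _ 6 2] at h2
      exact lt_of_pow_lt_pow_left₀ 2 zero_le h2
    have hg0 : 0 < T (s i) := zero_lt_iff.mpr ((Valuation.ne_zero_iff _).mpr (hs i))
    have hlt : ∀ j, T (e j) < T (s i) ^ 2 := by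
      intro j
      have h6 : T (e j) ^ 3 < (T (s i) ^ 2) ^ 3 := by
        rw [← map_pow, show e j ^ 3 = -(a * e j + b) by linear_combination root_eq h j,
          Valuation.map_neg]
        refine lt_of_le_of_lt (T.map_add _ _) (max_lt ?_ ?_)
        · rw [map_mul]
          calc T a * T (e j) ≤ T a * T (s i) ^ 2 := mul_le_mul' le_rfl (he j)
            _ < T (s i) ^ 4 * T (s i) ^ 2 := mul_lt_mul_of_pos_right ha' (pow_pos hg0 2)
            _ = (T (s i) ^ 2) ^ 3 := by rw [← pow_add, ← pow_mul]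
        · exact hb'.trans_eq (pow_mul _ 2 3)
      exact lt_of_pow_lt_pow_left₀ 3 zero_le h6
    have hsub : ∀ j l, T (e j - e l) < T (s i) ^ 2 := fun j l =>
      lt_of_le_of_lt (T.map_sub _ _) (max_lt (hlt j) (hlt l))
    have hfin : T (s i ^ 2) < T (s i) ^ 2 := by
      have hall : ∀ l, T (s l ^ 2) < T (s i) ^ 2 := by
        intro l
        fin_cases l
        · simp only [Fin.zero_eta]; rw [h.s0]; exact hsub _ _
        · simp only [Fin.mk_one]; rw [h.s1]; exact hsub _ _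
        · simp only [Fin.reduceFinMk]; rw [h.s2]; exact hsub _ _
      exact hall i
    rw [map_pow] at hfin
    exact lt_irrefl _ hfin

end alg

end Pf72953.Et
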