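import Mathlib
import Pool.Agent.Lib.Pf72953i.Defs
import Pool.Agent.Lib.Pf72953f.Defs

/-!
MODULE Pf72953i.Closed (E1): `P` is algebraically closed in `P(x, √(x³ + a x + b))`
-/

set_option autoImplicit false
set_option linter.style.haveILetI false

open scoped WithZero
open Pf72953

namespace Pf72953.Et

section alg

namespace ClosedAux

open Polynomial

section gen

variable {A N : Type*} [Field A] [Field N] [Algebra A N]

/-- the cubic -/
noncomputable def cub (a b : A) : A[X] := X ^ 3 + C a * X + C b

theorem natDegree_cub (a b : A) : (cub a b).natDegree = 3 := by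
  unfold cub
  compute_degree!

theorem cub_ne (a b : A) : cub a b ≠ 0 := by
  intro h
  have h1 := natDegree_cub a b
  rw [h, natDegree_zero] at h1
  omega

theorem not_sq (a b : A) (r : RatFunc A) : r ^ 2 ≠ algebraMap A[X] (RatFunc A) (cub a b) := by
  intro h
  have hr : r ≠ 0 := by
    rintro rfl
    rw [zero_pow two_ne_zero] at h
    exact cub_ne a b ((FaithfulSMul.algebraMap_eq_zero_iff _ _).1 h.symm)
  have h2 := congrArg RatFunc.intDegree h
  rw [RatFunc.intDegree_polynomial, natDegree_cub, pow_two, RatFunc.intDegree_mul hr hr] at h2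
  omega

/-- the embedding of the rational functions -/
noncomputable def emb {x : N} (hx : Transcendental A x) : RatFunc A →ₐ[A] N :=
  IsFractionRing.liftAlgHom (g := aeval x) (transcendental_iff_injective.1 hx)

theorem emb_alg {x : N} (hx : Transcendental A x) (g : A[X]) :
    emb hx (algebraMap A[X] (RatFunc A) g) = aeval x g := by
  unfold emb
  rw [IsFractionRing.liftAlgHom_apply]
  exact IsFractionRing.lift_algebraMap _ _

theorem emb_cub {x : N} (hx : Transcendental A x) (a b : A) :
    emb hx (algebraMap A[X] (RatFunc A) (cub a b)) =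
      x ^ 3 + algebraMap A N a * x + algebraMap A N b := by
  rw [emb_alg]
  unfold cub
  simp

/-- `y` is not a rational function of `x` -/
theorem notMem {x y : N} (hx : Transcendental A x) (a b : A)
    (heq : y ^ 2 = x ^ 3 + algebraMap A N a * x + algebraMap A N b) (s : RatFunc A) :
    emb hx s ≠ y := by
  intro hs
  apply not_sq a b s
  apply (emb hx).toRingHom.injective
  change emb hx (s ^ 2) = emb hx _
  rw [map_pow, hs, heq, emb_cub]

end gen

end ClosedAux

open ClosedAux in
/-- E1: `P` is algebraically closed in `P(x, √(x³ + a x + b))`. -/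
theorem closedIn {P N : Type*} [Field P] [CharZero P] [Field N] [Algebra P N] {a b : P} {x y : N}
    (hx : Transcendental P x) (hgen : ∀ z : N, z ∈ IntermediateField.adjoin P {x, y})
    (heq : y ^ 2 = x ^ 3 + algebraMap P N a * x + algebraMap P N b) : Fib.ClosedIn P N := by
  -- representation of the elements
  have hrep : ∀ z : N, ∃ p q : RatFunc P, z = emb hx p + emb hx q * y := by
    intro z
    refine IntermediateField.adjoin_induction P
      (p := fun z _ => ∃ p q : RatFunc P, z = emb hx p + emb hx q * y) ?_ ?_ ?_ ?_ ?_ (hgen z)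
    · rintro w hw
      rcases hw with rfl | hw
      · refine ⟨algebraMap (Polynomial P) (RatFunc P) Polynomial.X, 0, ?_⟩
        rw [emb_alg, map_zero, zero_mul, add_zero, Polynomial.aeval_X]
      · refine ⟨0, 1, ?_⟩
        rw [Set.mem_singleton_iff.1 hw, map_zero, map_one, one_mul, zero_add]
    · intro c
      refine ⟨algebraMap P (RatFunc P) c, 0, ?_⟩
      rw [AlgHom.commutes, map_zero, zero_mul, add_zero]
    · rintro u v - - ⟨p, q, rfl⟩ ⟨p', q', rfl⟩
      refine ⟨p + p', q + q', ?_⟩
      rw [map_add, map_add]
      ring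
    · rintro u - ⟨p, q, rfl⟩
      set f := algebraMap (Polynomial P) (RatFunc P) (cub a b) with hf
      have hy : emb hx f = y ^ 2 := by rw [hf, emb_cub, heq]
      rcases eq_or_ne (p ^ 2 - q ^ 2 * f) 0 with h0 | h0
      · have hq : q = 0 := by
          by_contra hq
          apply not_sq a b (p / q)
          rw [div_pow, ← hf, div_eq_iff (pow_ne_zero 2 hq)]
          linear_combination h0
        have hp : p = 0 := by
          rw [hq] at h0
          have h1 : p ^ 2 = 0 := by linear_combination h0
          exact pow_eq_zero_iff two_ne_zero |>.1 h1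
        refine ⟨0, 0, ?_⟩
        rw [hp, hq]
        simp
      · refine ⟨p / (p ^ 2 - q ^ 2 * f), -q / (p ^ 2 - q ^ 2 * f), ?_⟩
        have h1 : emb hx (p ^ 2 - q ^ 2 * f) =
            (emb hx p + emb hx q * y) * (emb hx p - emb hx q * y) := by
          rw [map_sub, map_mul, map_pow, map_pow, hy]
          ring
        have h2 : emb hx (p ^ 2 - q ^ 2 * f) ≠ 0 := by
          rw [Ne, map_eq_zero]
          exact h0
        have h3 : emb hx p + emb hx q * y ≠ 0 := by
          intro h4
          rw [h1, h4, zero_mul] at h2
          exact h2 rfl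
        rw [map_div₀, map_div₀, map_neg, h1]
        have h4 : emb hx p - emb hx q * y ≠ 0 := by
          intro h5
          rw [h1, h5, mul_zero] at h2
          exact h2 rfl
        field_simp
        ring
    · rintro u v - - ⟨p, q, rfl⟩ ⟨p', q', rfl⟩
      set f := algebraMap (Polynomial P) (RatFunc P) (cub a b) with hf
      have hy : emb hx f = y ^ 2 := by rw [hf, emb_cub, heq]
      refine ⟨p * p' + q * q' * f, p * q' + p' * q, ?_⟩
      rw [map_add, map_add, map_mul, map_mul, map_mul, map_mul, map_mul, hy]
      ring
  intro z hz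
  obtain ⟨p, q, hpq⟩ := hrep z
  -- the relative algebraic closure
  let A := algebraicClosure P N
  have hxA : Transcendental A x := fun h => hx (h.restrictScalars P)
  have hzA : z ∈ A := mem_algebraicClosure_iff.2 hz
  have hmem : ∀ r : RatFunc P, ∃ s : RatFunc A, emb hxA s = emb hx r := by
    intro r
    have h1 : ∀ g : Polynomial P, emb hxA (algebraMap (Polynomial A) (RatFunc A)
        (g.map (algebraMap P A))) = emb hx (algebraMap (Polynomial P) (RatFunc P) g) := by
      intro g
      rw [emb_alg, emb_alg, Polynomial.aeval_map_algebraMap]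
    refine ⟨algebraMap (Polynomial A) (RatFunc A) (r.num.map (algebraMap P A)) /
      algebraMap (Polynomial A) (RatFunc A) (r.denom.map (algebraMap P A)), ?_⟩
    rw [map_div₀, h1, h1, ← map_div₀, RatFunc.num_div_denom]
  have hq : q = 0 := by
    by_contra hq
    obtain ⟨s1, h1⟩ := hmem p
    obtain ⟨s2, h2⟩ := hmem q
    have hq' : emb hx q ≠ 0 := by
      rw [Ne, map_eq_zero]
      exact hq
    have heqA : y ^ 2 = x ^ 3 + algebraMap A N (algebraMap P A a) * x +
        algebraMap A N (algebraMap P A b) := by
      rw [← IsScalarTower.algebraMap_apply, ← IsScalarTower.algebraMap_apply]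
      exact heq
    apply notMem hxA _ _ heqA ((algebraMap A (RatFunc A) ⟨z, hzA⟩ - s1) / s2)
    rw [map_div₀, map_sub, AlgHom.commutes, h1, h2]
    have h3 : algebraMap A N ⟨z, hzA⟩ = z := rfl
    rw [h3, hpq]
    field_simp
    ring
  rw [hq, map_zero, zero_mul, add_zero] at hpq
  have hp : IsAlgebraic P p := by
    rw [hpq] at hz
    exact (isAlgebraic_algHom_iff (emb hx) (emb hx).toRingHom.injective).1 hz
  have hc : ∃ c, p = RatFunc.C c := by
    by_contra h
    exact RatFunc.transcendental_of_ne_C p h hp
  obtain ⟨c, hc⟩ := hc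
  refine ⟨c, ?_⟩
  rw [hpq, hc]
  exact ((emb hx).commutes c).symm

end alg

end Pf72953.Et
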