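import Mathlib

/-!
Elliptic fibre spaces: the logarithmic norm at a valuation.
-/

set_option autoImplicit false

open scoped WithZero

namespace Pf72953.Et

/-- the condition at a valuation of `N` not trivial on `Q`: one of `Δ ω`, `T' ω`, `T'' ω`, `ω = (dx/y)^12`, vanishes in the relative logarithmic norm -/
def LogSmall {Q N : Type*} [Field Q] [Field N] [Algebra Q N] (w : Valuation N ℤᵐ⁰) (a b c : Q) (x y : N) :
    Prop :=
  ∀ (D : Derivation Q N N) (ρ : ℤᵐ⁰), D x = 1 → (∀ g, w (D g) * ρ ≤ w g) →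
    ρ ^ 12 * w (algebraMap Q N (4 * a ^ 3 + 27 * b ^ 2)) < w y ^ 12 ∨
    ρ ^ 12 * w (algebraMap Q N (c * a ^ 3 + b ^ 2)) < max 1 (w (algebraMap Q N c)) * w y ^ 12 ∨
    ρ ^ 12 * w (algebraMap Q N ((c + 1) * a ^ 3 + b ^ 2)) < max 1 (w (algebraMap Q N c)) * w y ^ 12

end Pf72953.Et
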