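import Mathlib
import Pool.Agent.Lib.Pf72953i.Defs
import Pool.Agent.Lib.Pf72953i.LogS
import Pool.Agent.Lib.Pf72953e.Weier
import Pool.Agent.Lib.Pf72953e.Place
import Pool.Agent.Lib.Pf72953e.RelU
import Pool.Agent.Lib.Pf72953e.TbE
import Pool.Agent.Lib.Pf72953t.GoodUp
import Pool.Agent.Lib.Pf72953b.Defs

/-!
Elliptic fibre spaces: from `Q` to `X = E·Y`.
-/

set_option autoImplicit false
set_option linter.style.haveILetI false

open scoped WithZero
open Pf72953 Pf72953.Mov Pf72953.Var Pf72953.Ell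

namespace Pf72953.Et

namespace DownAux

theorem one_of_triv {G N : Type*} [Field G] [Field N] [Algebra G N] {w : Valuation N ℤᵐ⁰}
    (h : ∀ a : G, a ≠ 0 → w (algebraMap G N a) = 1) (a : G) : w (algebraMap G N a) ≤ 1 := by
  rcases eq_or_ne a 0 with rfl | ha
  · simp
  · exact (h a ha).le

theorem aux_id {R : Type*} [CommGroupWithZero R] (r T1 T2 D U Y ρ lam : R) (n n' m₁ M₀ : ℕ)
    (hM : 12 * (2 * n + n') = M₀) :
    (r * T1 ^ n * T2 ^ n * D ^ n' / Y ^ (12 * (2 * n + n'))) *
      (U ^ 12 * (D / Y ^ 12) ^ m₁) * (ρ * lam) ^ (M₀ + 12 * m₁) =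
    (r * lam ^ M₀) * ((ρ / Y) ^ 12 * T1) ^ n * ((ρ / Y) ^ 12 * T2) ^ n * ((ρ / Y) ^ 12 * D) ^ n' *
      (U * lam ^ m₁) ^ 12 * ((ρ / Y) ^ 12 * D) ^ m₁ := by
  subst hM
  have e1 : (12 : ℕ) * (2 * n + n') = 12 * n + 12 * n + 12 * n' := by ring
  have e2 : m₁ * 12 = 12 * m₁ := mul_comm _ _
  rw [mul_pow U (lam ^ m₁) 12, ← pow_mul lam m₁ 12, e2]
  simp only [e1, mul_pow, div_eq_mul_inv, ← inv_pow, ← pow_mul, pow_add, mul_inv]
  generalize 12 * n = A
  generalize 12 * n' = B
  generalize 12 * m₁ = C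
  simp only [mul_comm, mul_left_comm, mul_assoc]

theorem aux_id2 {R : Type*} [CommMonoid R] (r l k1 b1 b2 A u v : R) :
    r * l * (k1 * b1) * (k1 * b2) * A * u * v = (r * (k1 * k1) * l) * (b1 * b2 * A * u) * v := by
  simp only [mul_comm, mul_left_comm, mul_assoc]

/-- another transcendence basis of `W` -/
theorem tb_swap {k W N ι : Type*} [Field k] [Field W] [Field N] [Algebra k W] [Algebra k N]
    [Algebra W N] [IsScalarTower k W N] [Fintype ι] [FinTrdeg k N] {z z' : ι → W} {x : N}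
    (hz' : IsTranscendenceBasis k z')
    (hzx : IsTranscendenceBasis k (Sum.elim (fun i => algebraMap W N (z i)) (fun _ : Unit => x))) :
    IsTranscendenceBasis k (Sum.elim (fun i => algebraMap W N (z' i)) (fun _ : Unit => x)) := by
  refine tb_of_alg (fun a => ?_) (card_eq_of_isTranscendenceBasis hzx)
  haveI := hzx.isAlgebraic
  have h1 : IsAlgebraic (Algebra.adjoin k (Set.range
      (Sum.elim (fun i => algebraMap W N (z i)) (fun _ : Unit => x)))) a :=
    Algebra.IsAlgebraic.isAlgebraic a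
  refine h1.adjoin_of_forall_isAlgebraic ?_
  rintro _ ⟨⟨i | i, rfl⟩, h'⟩
  · exact isAlgebraic_transport hz' (Set.range _) (fun i => ⟨Sum.inl i, rfl⟩) (z i)
  · exact absurd ⟨Sum.inr (), rfl⟩ h'

end DownAux

open DownAux

section down

variable {k W X Q N ι : Type*} [Field k] [CharZero k] [Field W] [Field X] [Field Q] [Field N]
  [Algebra k W] [Algebra k X] [Algebra k Q] [Algebra k N] [Algebra W X] [Algebra W Q] [Algebra W N]
  [Algebra X N] [Algebra Q N]
  [IsScalarTower k W X] [IsScalarTower k W Q] [IsScalarTower k W N] [IsScalarTower k X N]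
  [IsScalarTower k Q N] [IsScalarTower W X N] [IsScalarTower W Q N] [FiniteDimensional W Q]
  [FiniteDimensional X N] [Algebra.EssFiniteType k W] [Algebra.EssFiniteType k X]
  [Algebra.EssFiniteType k Q] [Algebra.EssFiniteType k N] [Fintype ι] [DecidableEq ι]

theorem mem_down {z : ι → W} (hz : IsTranscendenceBasis k z) {a b c : W}
    (hΔ : 4 * a ^ 3 + 27 * b ^ 2 ≠ 0) {x y : X}
    (heq : y ^ 2 = x ^ 3 + algebraMap W X a * x + algebraMap W X b)
    (hzx : IsTranscendenceBasis k (Sum.elim (fun i => algebraMap W N (z i))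
      (fun _ : Unit => algebraMap X N x)))
    (halg : ∀ g : N, IsAlgebraic (IntermediateField.adjoin Q {algebraMap X N x}) g)
    (hsm : ∀ w : Valuation N ℤᵐ⁰, IsDivisorial k N w →
      ¬ LogSmall w (algebraMap W Q a) (algebraMap W Q b) (algebraMap W Q c)
        (algebraMap X N x) (algebraMap X N y) → Br.Unr X w)
    {M₀ n n' m₁ : ℕ} {r : W} (hr : r ∈ WReg k z M₀) (hrc : c ^ (2 * n) * r ∈ WReg k z M₀)
    (hM : 12 * (2 * n + n') = M₀) (hn : Module.finrank X N * (12 * m₁) ≤ n)
    (hn' : Module.finrank X N * (12 * m₁) ≤ n')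
    {U : Q} (hU : U ∈ WReg k (fun i => algebraMap W Q (z i)) m₁) :
    (algebraMap W N (r * (c * a ^ 3 + b ^ 2) ^ n * ((c + 1) * a ^ 3 + b ^ 2) ^ n *
      (4 * a ^ 3 + 27 * b ^ 2) ^ n') / algebraMap X N y ^ (12 * (2 * n + n'))) *
      (algebraMap Q N U ^ 12 *
        (algebraMap W N (4 * a ^ 3 + 27 * b ^ 2) / algebraMap X N y ^ 12) ^ m₁) ∈
      GoodL k X (Sum.elim (fun i => algebraMap W N (z i)) (fun _ : Unit => algebraMap X N x))
        (M₀ + 12 * m₁) := by
  classical
  haveI : CharZero W := charZero_of_injective_algebraMap (algebraMap k W).injective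
  haveI : CharZero Q := charZero_of_injective_algebraMap (algebraMap k Q).injective
  intro w hv d t hd ht htb
  have hcardW : Fintype.card ι = dimension k W := card_eq_of_isTranscendenceBasis hz
  have hcardQ : Fintype.card ι = dimension k Q :=
    card_eq_of_isTranscendenceBasis (hz.algebraMap_comp (A := Q))
  have hcardN : Fintype.card (ι ⊕ Unit) = dimension k N := card_eq_of_isTranscendenceBasis htb
  have htbd : IsTranscendenceBasis k d := IsTranscendenceBasis.of_comp_algebraMap htb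
  have hcardX : Fintype.card (ι ⊕ Unit) = dimension k X := card_eq_of_isTranscendenceBasis htbd
  have hwN : IsDivisorial k N w := IsDivisorial.of_comap (hcardN.symm.trans hcardX) hv
  have hcN : Adapted k w (fun i => algebraMap X N (d i)) (algebraMap X N t) := hd.map
  have hlog := hcN.logBasis hcardN
  have hwt : w (algebraMap X N t) ≠ 0 := by
    rw [Valuation.ne_zero_iff]; simpa using ht.ne_zero
  have hwtpos : 0 < w (algebraMap X N t) := zero_lt_iff.mpr hwt
  have hwt1 : w (algebraMap X N t) ≤ 1 := ht.lt_one.le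
  set wW := w.comap (algebraMap W N) with hwW
  set wQ := w.comap (algebraMap Q N) with hwQ
  have hwWX : ∀ z : W, w (algebraMap X N (algebraMap W X z)) = wW z := fun z => by
    rw [hwW, Valuation.comap_apply, ← IsScalarTower.algebraMap_apply W X N]
  have hwWQ : wQ.comap (algebraMap W Q) = wW := by
    ext z
    rw [hwW, hwQ, Valuation.comap_apply, Valuation.comap_apply, Valuation.comap_apply,
      ← IsScalarTower.algebraMap_apply W Q N]
  have hwWQ' : ∀ z : W, wQ (algebraMap W Q z) = wW z := fun z => by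
    rw [← hwWQ]
    rfl
  have hwQN : ∀ z : Q, w (algebraMap Q N z) = wQ z := fun z => rfl
  have hX : ∀ g : X, w (algebraMap X N g) < 1 → w (algebraMap X N g) ≤ w (algebraMap X N t) :=
    fun g hg => ht.le g hg
  have hWX : ∀ z : W, wW z < 1 → wW z ≤ w (algebraMap X N t) := fun z hz => by
    rw [← hwWX]
    exact hX _ (by rw [hwWX]; exact hz)
  have hnatW : ∀ n : ℕ, n ≠ 0 → wW (n : W) = 1 := fun n hn => by
    have h1 := hwN.const (n : k) (by exact_mod_cast hn)
    rw [hwW, Valuation.comap_apply, map_natCast]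
    rwa [map_natCast] at h1
  have hnat : ∀ n : ℕ, n ≠ 0 → w (n : N) = 1 := fun n hn => by
    have h1 := hwN.const (n : k) (by exact_mod_cast hn)
    rwa [map_natCast] at h1
  -- the equation in `N`
  have heqN : algebraMap X N y ^ 2 = algebraMap X N x ^ 3 +
      algebraMap Q N (algebraMap W Q a) * algebraMap X N x + algebraMap Q N (algebraMap W Q b) := by
    rw [← map_pow, heq, map_add, map_add, map_mul, map_pow,
      ← IsScalarTower.algebraMap_apply W X N, ← IsScalarTower.algebraMap_apply W X N,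
      ← IsScalarTower.algebraMap_apply W Q N, ← IsScalarTower.algebraMap_apply W Q N]
  -- the basic estimates
  have key : ∀ {cW : ι → W} (hcW : LogBasis k wW cW)
      (hcQ : LogBasis k wQ (fun i => algebraMap W Q (cW i))), ∃ ρ : ℤᵐ⁰,
      (∃ J : X, ρ = w (algebraMap X N J)) ∧ ρ ≠ 0 ∧
      w (jac htb (Sum.elim (fun i => algebraMap W N (z i)) (fun _ : Unit => algebraMap X N x))) *
        w (algebraMap X N t) = ρ * (wW (jac hcW.tb z) * ∏ j, wW (cW j)) ∧
      ρ ^ 4 * wW a ≤ w (algebraMap X N y) ^ 4 ∧ ρ ^ 6 * wW b ≤ w (algebraMap X N y) ^ 6 ∧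
      ∃ D : Derivation Q N N, D (algebraMap X N x) = 1 ∧ ∀ g, w (D g) * ρ ≤ w g := by
    intro cW hcW hcQ
    have hfam : (Sum.elim (fun i => algebraMap Q N (algebraMap W Q (cW i)))
        (fun _ : Unit => algebraMap X N x)) =
        Sum.elim (fun i => algebraMap W N (cW i)) (fun _ : Unit => algebraMap X N x) := by
      funext i
      rcases i with i | i
      · exact (IsScalarTower.algebraMap_apply W Q N _).symm
      · rfl
    have hzP : IsTranscendenceBasis k (Sum.elim (fun i => algebraMap Q N (algebraMap W Q (cW i)))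
        (fun _ : Unit => algebraMap X N x)) := by
      rw [hfam]
      exact tb_swap hcW.tb hzx
    obtain ⟨Du, hDu, hDρ⟩ := relU_cost hcQ.tb hlog hzP
    obtain ⟨hb1, hb2⟩ := weier_bound Du heqN hDu (Du.map_algebraMap _) (Du.map_algebraMap _)
      hnat hDρ
    rw [hwQN, hwWQ'] at hb1 hb2
    refine ⟨relU (fun i => algebraMap W Q (cW i)) hlog (algebraMap X N x), ?_,
      relU_ne_zero hcQ.tb hlog hzP, ?_, hb1, hb2, Du, hDu, hDρ⟩
    · refine ⟨jac htbd (Sum.elim (fun i => algebraMap W X (cW i)) (fun _ : Unit => x)) *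
        (∏ j, d j) * (∏ j, algebraMap W X (cW j))⁻¹, ?_⟩
      have h1 : (Sum.elim (fun i => algebraMap Q N (algebraMap W Q (cW i)))
          (fun _ : Unit => algebraMap X N x)) =
          fun j => algebraMap X N ((Sum.elim (fun i => algebraMap W X (cW i))
            (fun _ : Unit => x)) j) := by
        funext i
        rcases i with i | i
        · change algebraMap Q N (algebraMap W Q (cW i)) = algebraMap X N (algebraMap W X (cW i))
          rw [← IsScalarTower.algebraMap_apply W Q N, ← IsScalarTower.algebraMap_apply W X N]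
        · rfl
      rw [relU, h1, jac_algebraMap htbd hlog.tb]
      simp only [map_mul, map_prod, map_inv₀, hwWX, hwQN, hwWQ']
    · have h1 := relU_chain hcQ.tb hlog hzP (fun i => algebraMap W Q (z i))
      rw [hcN.prod, jac_algebraMap hcW.tb hcQ.tb, hwQN, hwWQ'] at h1
      simp only [hwQN, hwWQ'] at h1
      rw [← h1]
      congr 3
      funext i
      rcases i with i | i
      · exact IsScalarTower.algebraMap_apply W Q N _
      · rfl
  have hy0 : w (algebraMap X N y) ≠ 0 := by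
    obtain ⟨cW, hcW, hcQ⟩ : ∃ cW : ι → W, LogBasis k wW cW ∧
        LogBasis k wQ (fun i => algebraMap W Q (cW i)) := by
      by_cases hnt : ∃ a : W, a ≠ 0 ∧ w (algebraMap W N a) ≠ 1
      · obtain ⟨c', t', ht', hc'⟩ := (hwN.restrict hnt).exists_adapted hcardW
        refine ⟨c', hc'.logBasis hcardW, ?_⟩
        have h1 : Adapted k (wQ.comap (algebraMap W Q)) c' t' := by rw [hwWQ]; exact hc'
        exact h1.map.logBasis hcardQ
      · push Not at hnt
        refine ⟨z, LogBasis.of_trivial hnt hz, LogBasis.of_trivial (fun a ha => ?_)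
          (hz.algebraMap_comp (A := Q))⟩
        refine val_eq_one_of_isIntegral (B := W) ?_ ha (Algebra.IsIntegral.isIntegral (R := W) a)
        intro b hb
        rw [hwWQ']
        exact hnt b hb
    obtain ⟨ρ, -, hρ0, -, h1, h2, -⟩ := key hcW hcQ
    intro h0
    rw [h0, zero_pow (by norm_num), le_zero_iff, mul_eq_zero] at h1 h2
    have ha0 := h1.resolve_left (pow_ne_zero _ hρ0)
    have hb0 := h2.resolve_left (pow_ne_zero _ hρ0)
    rw [map_eq_zero] at ha0 hb0
    refine hΔ ?_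
    rw [ha0, hb0]
    ring
  have hwypos : 0 < w (algebraMap X N y) := zero_lt_iff.mpr hy0
  set Δ : W := 4 * a ^ 3 + 27 * b ^ 2 with hΔdef
  set T₁ : W := c * a ^ 3 + b ^ 2 with hT₁
  set T₂ : W := (c + 1) * a ^ 3 + b ^ 2 with hT₂
  -- reduction
  have hfin : ∀ {cW : ι → W} (hcW : LogBasis k wW cW) {ρ : ℤᵐ⁰},
      w (jac htb (Sum.elim (fun i => algebraMap W N (z i)) (fun _ : Unit => algebraMap X N x))) *
        w (algebraMap X N t) = ρ * (wW (jac hcW.tb z) * ∏ j, wW (cW j)) →
      (wW r * (wW (jac hcW.tb z) * ∏ j, wW (cW j)) ^ M₀) *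
        ((ρ / w (algebraMap X N y)) ^ 12 * wW T₁) ^ n *
        ((ρ / w (algebraMap X N y)) ^ 12 * wW T₂) ^ n *
        ((ρ / w (algebraMap X N y)) ^ 12 * wW Δ) ^ n' *
        (wQ U * (wW (jac hcW.tb z) * ∏ j, wW (cW j)) ^ m₁) ^ 12 *
        ((ρ / w (algebraMap X N y)) ^ 12 * wW Δ) ^ m₁ ≤
        w (algebraMap X N t) ^ (M₀ + 12 * m₁) →
      w ((algebraMap W N (r * T₁ ^ n * T₂ ^ n * Δ ^ n') /
          algebraMap X N y ^ (12 * (2 * n + n'))) *
        (algebraMap Q N U ^ 12 * (algebraMap W N Δ / algebraMap X N y ^ 12) ^ m₁)) *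
        w (jac htb (Sum.elim (fun i => algebraMap W N (z i))
          (fun _ : Unit => algebraMap X N x))) ^ (M₀ + 12 * m₁) ≤ 1 := by
    intro cW hcW ρ h1 h2
    have hpos : 0 < w (algebraMap X N t) ^ (M₀ + 12 * m₁) := pow_pos hwtpos _
    refine le_of_mul_le_mul_right (a := w (algebraMap X N t) ^ (M₀ + 12 * m₁)) ?_ hpos
    rw [one_mul, mul_assoc, ← mul_pow, h1]
    refine le_trans (le_of_eq ?_) h2
    simp only [map_mul, map_div₀, map_pow]
    exact aux_id (wW r) (wW T₁) (wW T₂) (wW Δ) (wQ U) (w (algebraMap X N y)) ρ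
      (wW (jac hcW.tb z) * ∏ j, wW (cW j)) n n' m₁ M₀ hM
  have hfr : 1 ≤ Module.finrank X N := Module.finrank_pos
  have hn1 : 12 * m₁ ≤ n := le_trans (Nat.le_mul_of_pos_left _ hfr) hn
  have hn1' : 12 * m₁ ≤ n' := le_trans (Nat.le_mul_of_pos_left _ hfr) hn'
  by_cases hnt : ∃ a : W, a ≠ 0 ∧ w (algebraMap W N a) ≠ 1
  · -- `w` is nontrivial on `W`
    have hdW : IsDivisorial k W wW := hwN.restrict hnt
    have hntQ : ∃ a : Q, a ≠ 0 ∧ w (algebraMap Q N a) ≠ 1 := by
      obtain ⟨a, ha0, ha⟩ := hnt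
      refine ⟨algebraMap W Q a, by simpa using ha0, ?_⟩
      rwa [← IsScalarTower.algebraMap_apply W Q N]
    have hdQ : IsDivisorial k Q wQ := hwN.restrict hntQ
    obtain ⟨cW, tW, htW, hcW⟩ := hdW.exists_adapted hcardW
    obtain ⟨cQ, tQ, htQ, hcQ⟩ := hdQ.exists_adapted hcardQ
    have hlW := hcW.logBasis hcardW
    have hlQ := hcQ.logBasis hcardQ
    have hcWQ : Adapted k wQ (fun i => algebraMap W Q (cW i)) (algebraMap W Q tW) := by
      have h1 : Adapted k (wQ.comap (algebraMap W Q)) cW tW := by rw [hwWQ]; exact hcW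
      exact h1.map
    have hlWQ := hcWQ.logBasis hcardQ
    obtain ⟨ρ, ⟨J, hJ⟩, hρ0, hvol, hρa, hρb, D, hD, hDρ⟩ := key hlW hlWQ
    refine hfin hlW hvol ?_
    set lam : ℤᵐ⁰ := wW (jac hlW.tb z) * ∏ j, wW (cW j) with hlam
    set κ : ℤᵐ⁰ := max 1 (wW c) with hκ
    have hκ1 : 1 ≤ κ := le_max_left _ _
    have hκ0 : κ ≠ 0 := (zero_lt_one.trans_le hκ1).ne'
    have hκpos : 0 < κ := zero_lt_iff.mpr hκ0
    have hlogb : ∀ f ∈ WReg k z M₀, wW f * lam ^ M₀ ≤ wW tW ^ M₀ := by
      intro f hf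
      have h1 := hf wW hdW cW (hcW.regBasis hcardW htW)
      rw [hlam, hcW.prod, mul_pow, ← mul_assoc]
      calc _ ≤ 1 * wW tW ^ M₀ := by gcongr
        _ = _ := one_mul _
    have hbr : wW r * κ ^ (2 * n) * lam ^ M₀ ≤ wW tW ^ M₀ := by
      rcases max_cases 1 (wW c) with ⟨h, -⟩ | ⟨h, -⟩
      · rw [hκ, h, one_pow, mul_one]
        exact hlogb r hr
      · have h2 := hlogb _ hrc
        rw [map_mul, map_pow] at h2
        rw [hκ, h, mul_comm (wW r)]
        exact h2
    have hlamQ : lam = wQ (jac hlQ.tb (fun i => algebraMap W Q (z i))) * ∏ j, wQ (cQ j) := by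
      rw [← LogBasis.vol_eq hlWQ hlQ, jac_algebraMap hlW.tb hlWQ.tb, hwWQ']
      simp only [hwWQ']
      rfl
    have hbU : wQ U * lam ^ m₁ ≤ wQ tQ ^ m₁ := by
      have h1 := hU wQ hdQ cQ (hcQ.regBasis hcardQ htQ)
      rw [hlamQ, hcQ.prod, mul_pow, ← mul_assoc]
      calc _ ≤ 1 * wQ tQ ^ m₁ := by gcongr
        _ = _ := one_mul _
    set σ : ℤᵐ⁰ := ρ / w (algebraMap X N y) with hσ
    have hσJ : σ = w (algebraMap X N (J / y)) := by rw [hσ, hJ, ← map_div₀, ← map_div₀]
    have hσa : σ ^ 4 * wW a ≤ 1 := by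
      rw [hσ, div_pow, div_mul_eq_mul_div, div_le_one₀ (pow_pos hwypos 4)]
      exact hρa
    have hσb : σ ^ 6 * wW b ≤ 1 := by
      rw [hσ, div_pow, div_mul_eq_mul_div, div_le_one₀ (pow_pos hwypos 6)]
      exact hρb
    have hσa3 : σ ^ 12 * wW (a ^ 3) ≤ 1 := by
      rw [map_pow]
      calc σ ^ 12 * wW a ^ 3 = (σ ^ 4 * wW a) ^ 3 := by rw [mul_pow, ← pow_mul]
        _ ≤ 1 := pow_le_one' hσa 3
    have hσb2 : σ ^ 12 * wW (b ^ 2) ≤ 1 := by
      rw [map_pow]
      calc σ ^ 12 * wW b ^ 2 = (σ ^ 6 * wW b) ^ 2 := by rw [mul_pow, ← pow_mul]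
        _ ≤ 1 := pow_le_one' hσb 2
    -- linear combinations of `a³`, `b²`
    have hlin : ∀ (p q : W) {K : ℤᵐ⁰}, wW p ≤ K → wW q ≤ K →
        σ ^ 12 * wW (p * a ^ 3 + q * b ^ 2) ≤ K := by
      intro p q K hp hq
      rcases le_max_iff.mp (wW.map_add (p * a ^ 3) (q * b ^ 2)) with h | h
      · calc σ ^ 12 * wW (p * a ^ 3 + q * b ^ 2) ≤ σ ^ 12 * (wW p * wW (a ^ 3)) := by
              rw [← map_mul]; gcongr
          _ = wW p * (σ ^ 12 * wW (a ^ 3)) := mul_left_comm _ _ _
          _ ≤ K * 1 := by gcongr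
          _ = K := mul_one _
      · calc σ ^ 12 * wW (p * a ^ 3 + q * b ^ 2) ≤ σ ^ 12 * (wW q * wW (b ^ 2)) := by
              rw [← map_mul]; gcongr
          _ = wW q * (σ ^ 12 * wW (b ^ 2)) := mul_left_comm _ _ _
          _ ≤ K * 1 := by gcongr
          _ = K := mul_one _
    have hw4 : wW (4 : W) ≤ 1 := by
      have := hnatW 4 (by norm_num)
      rw [Nat.cast_ofNat] at this
      exact this.le
    have hw27 : wW (27 : W) ≤ 1 := by
      have := hnatW 27 (by norm_num)
      rw [Nat.cast_ofNat] at this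
      exact this.le
    have hA : σ ^ 12 * wW Δ ≤ 1 := hlin 4 27 hw4 hw27
    have hA1 : σ ^ 12 * wW T₁ ≤ κ := by
      have h := hlin c 1 (K := κ) (le_max_right _ _) (by rw [map_one]; exact hκ1)
      rwa [one_mul] at h
    have hA2 : σ ^ 12 * wW T₂ ≤ κ := by
      have h := hlin (c + 1) 1 (K := κ)
        ((wW.map_add _ _).trans (max_le (le_max_right _ _) (by rw [map_one]; exact hκ1)))
        (by rw [map_one]; exact hκ1)
      rwa [one_mul] at h
    set B1 : ℤᵐ⁰ := σ ^ 12 * wW T₁ / κ with hB1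
    set B2 : ℤᵐ⁰ := σ ^ 12 * wW T₂ / κ with hB2
    set A : ℤᵐ⁰ := σ ^ 12 * wW Δ with hAdef
    have hB1le : B1 ≤ 1 := (div_le_one₀ hκpos).2 hA1
    have hB2le : B2 ≤ 1 := (div_le_one₀ hκpos).2 hA2
    -- values of elements of `X`
    have hval : ∀ T : W, σ ^ 12 * wW T / κ < 1 → σ ^ 12 * wW T / κ ≤ w (algebraMap X N t) := by
      intro T hT
      obtain ⟨g, hg⟩ : ∃ g : X, σ ^ 12 * wW T / κ = w (algebraMap X N g) := by
        rcases max_cases 1 (wW c) with ⟨h, -⟩ | ⟨h, -⟩
        · refine ⟨(J / y) ^ 12 * algebraMap W X T, ?_⟩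
          rw [hκ, h, div_one, map_mul, map_mul, map_pow, map_pow, ← hσJ, hwWX]
        · refine ⟨(J / y) ^ 12 * algebraMap W X T / algebraMap W X c, ?_⟩
          rw [hκ, h, map_div₀, map_div₀, map_mul, map_mul, map_pow, map_pow, ← hσJ, hwWX, hwWX]
      rw [hg] at hT ⊢
      exact hX g hT
    have hvalA : A < 1 → A ≤ w (algebraMap X N t) := by
      intro hT
      have hg : A = w (algebraMap X N ((J / y) ^ 12 * algebraMap W X Δ)) := by
        rw [map_mul, map_mul, map_pow, map_pow, ← hσJ, hwWX]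
      rw [hg] at hT ⊢
      exact hX _ hT
    have hpw : ∀ {β : ℤᵐ⁰} {l : ℕ}, β ≤ w (algebraMap X N t) → 12 * m₁ ≤ l →
        β ^ l ≤ w (algebraMap X N t) ^ (12 * m₁) := by
      intro β l hβ hl
      exact (pow_le_pow_left' hβ l).trans (pow_le_pow_right_of_le_one' hwt1 hl)
    -- the main inequality
    have hmain : B1 ^ n * B2 ^ n * A ^ n' * wQ tQ ^ (12 * m₁) ≤ w (algebraMap X N t) ^ (12 * m₁) := by
      have htQ1 : wQ tQ ^ (12 * m₁) ≤ 1 := pow_le_one' htQ.lt_one.le _
      have hB1p : B1 ^ n ≤ 1 := pow_le_one' hB1le _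
      have hB2p : B2 ^ n ≤ 1 := pow_le_one' hB2le _
      have hAp : A ^ n' ≤ 1 := pow_le_one' hA _
      by_cases hUn : Br.Unr X w
      · obtain ⟨s', hs1, hs2⟩ := hUn (algebraMap Q N tQ) htQ.lt_one
        have h2 : wQ tQ ≤ w (algebraMap X N t) := hs2.trans (ht.le s' hs1)
        calc _ ≤ 1 * 1 * 1 * w (algebraMap X N t) ^ (12 * m₁) :=
              mul_le_mul' (mul_le_mul' (mul_le_mul' hB1p hB2p) hAp) (pow_le_pow_left' h2 _)
          _ = _ := by simp
      · have hls : LogSmall w (algebraMap W Q a) (algebraMap W Q b) (algebraMap W Q c)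
            (algebraMap X N x) (algebraMap X N y) := by
          by_contra h
          exact hUn (hsm w hwN h)
        have hc' : w (algebraMap Q N (algebraMap W Q c)) = wW c := by rw [hwQN, hwWQ']
        have hE : ∀ f : W, ρ ^ 12 * w (algebraMap Q N (algebraMap W Q f)) =
            σ ^ 12 * wW f * w (algebraMap X N y) ^ 12 := by
          intro f
          rw [hwQN, hwWQ', hσ, div_pow, mul_right_comm, div_mul_cancel₀ _ (pow_ne_zero 12 hy0)]
        have hyp : 0 < w (algebraMap X N y) ^ 12 := pow_pos hwypos 12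
        rcases hls D ρ hD hDρ with h | h | h
        · have h1 : (4 * algebraMap W Q a ^ 3 + 27 * algebraMap W Q b ^ 2) = algebraMap W Q Δ := by
            rw [hΔdef, map_add, map_mul, map_mul, map_pow, map_pow, map_ofNat, map_ofNat]
          rw [h1, hE] at h
          have h2 : A < 1 := by
            refine lt_of_mul_lt_mul_right ?_ hyp.le
            rw [one_mul]
            exact h
          calc _ ≤ 1 * 1 * w (algebraMap X N t) ^ (12 * m₁) * 1 :=
                mul_le_mul' (mul_le_mul' (mul_le_mul' hB1p hB2p) (hpw (hvalA h2) hn1')) htQ1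
            _ = _ := by simp
        · have h1 : (algebraMap W Q c * algebraMap W Q a ^ 3 + algebraMap W Q b ^ 2) =
              algebraMap W Q T₁ := by
            rw [hT₁, map_add, map_mul, map_pow, map_pow]
          rw [h1, hE, hc'] at h
          have h2 : B1 < 1 := by
            rw [hB1, div_lt_one₀ hκpos]
            exact lt_of_mul_lt_mul_right h hyp.le
          calc _ ≤ w (algebraMap X N t) ^ (12 * m₁) * 1 * 1 * 1 :=
                mul_le_mul' (mul_le_mul' (mul_le_mul' (hpw (hval T₁ h2) hn1) hB2p) hAp) htQ1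
            _ = _ := by simp
        · have h1 : ((algebraMap W Q c + 1) * algebraMap W Q a ^ 3 + algebraMap W Q b ^ 2) =
              algebraMap W Q T₂ := by
            rw [hT₂, map_add, map_mul, map_pow, map_pow, map_add, map_one]
          rw [h1, hE, hc'] at h
          have h2 : B2 < 1 := by
            rw [hB2, div_lt_one₀ hκpos]
            exact lt_of_mul_lt_mul_right h hyp.le
          calc _ ≤ 1 * w (algebraMap X N t) ^ (12 * m₁) * 1 * 1 :=
                mul_le_mul' (mul_le_mul' (mul_le_mul' hB1p (hpw (hval T₂ h2) hn1)) hAp) htQ1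
            _ = _ := by simp
    have e1 : σ ^ 12 * wW T₁ = κ * B1 := by rw [hB1, mul_div_cancel₀ _ hκ0]
    have e2 : σ ^ 12 * wW T₂ = κ * B2 := by rw [hB2, mul_div_cancel₀ _ hκ0]
    rw [e1, e2, mul_pow κ, mul_pow κ]
    calc wW r * lam ^ M₀ * (κ ^ n * B1 ^ n) * (κ ^ n * B2 ^ n) * A ^ n' * (wQ U * lam ^ m₁) ^ 12 *
          A ^ m₁
        = (wW r * (κ ^ n * κ ^ n) * lam ^ M₀) * (B1 ^ n * B2 ^ n * A ^ n' *
            (wQ U * lam ^ m₁) ^ 12) * A ^ m₁ := aux_id2 _ _ _ _ _ _ _ _
      _ = (wW r * κ ^ (2 * n) * lam ^ M₀) * (B1 ^ n * B2 ^ n * A ^ n' *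
            (wQ U * lam ^ m₁) ^ 12) * A ^ m₁ := by rw [two_mul, pow_add]
      _ ≤ w (algebraMap X N t) ^ M₀ * (B1 ^ n * B2 ^ n * A ^ n' * (wQ tQ ^ m₁) ^ 12) * 1 := by
          refine mul_le_mul' (mul_le_mul' (hbr.trans (pow_le_pow_left' (hWX tW htW.lt_one) _)) ?_)
            (pow_le_one' hA _)
          exact mul_le_mul' le_rfl (pow_le_pow_left' hbU 12)
      _ = w (algebraMap X N t) ^ M₀ * (B1 ^ n * B2 ^ n * A ^ n' * wQ tQ ^ (12 * m₁)) := by
          rw [mul_one, ← pow_mul, mul_comm m₁ 12]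
      _ ≤ w (algebraMap X N t) ^ M₀ * w (algebraMap X N t) ^ (12 * m₁) := by gcongr
      _ = w (algebraMap X N t) ^ (M₀ + 12 * m₁) := (pow_add _ _ _).symm
  · -- `w` is trivial on `W`
    push Not at hnt
    have hntQ' : ∀ a : Q, a ≠ 0 → wQ a = 1 := fun a ha => by
      refine val_eq_one_of_isIntegral (B := W) ?_ ha (Algebra.IsIntegral.isIntegral (R := W) a)
      intro b hb
      rw [hwWQ']
      exact hnt b hb
    have hntQ : ∀ a : Q, a ≠ 0 → w (algebraMap Q N a) = 1 := hntQ'
    have hlW : LogBasis k wW z := LogBasis.of_trivial hnt hz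
    have hlQ : LogBasis k wQ (fun i => algebraMap W Q (z i)) :=
      LogBasis.of_trivial hntQ' (hz.algebraMap_comp (A := Q))
    obtain ⟨ρ, ⟨J, hJ⟩, hρ0, hvol, -, -, D, hD, hDρ⟩ := key hlW hlQ
    refine hfin hlW hvol ?_
    have hΔQ : 4 * algebraMap W Q a ^ 3 + 27 * algebraMap W Q b ^ 2 ≠ 0 := by
      have h1 : (4 * algebraMap W Q a ^ 3 + 27 * algebraMap W Q b ^ 2) = algebraMap W Q Δ := by
        rw [hΔdef, map_add, map_mul, map_mul, map_pow, map_pow, map_ofNat, map_ofNat]
      rw [h1, Ne, map_eq_zero]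
      exact hΔ
    have hplace : ρ < w (algebraMap X N y) :=
      place_bound (P := Q) hntQ hwN.nontrivial halg heqN hΔQ D hD hDρ
    have hlam : wW (jac hlW.tb z) * ∏ j, wW (z j) = 1 := by
      rw [jac_self, map_one, one_mul]
      exact Finset.prod_eq_one fun j _ => hnt _ (hz.1.ne_zero j)
    have hσ : ρ / w (algebraMap X N y) ≤ w (algebraMap X N t) := by
      rw [hJ, ← map_div₀, ← map_div₀]
      refine hX (J / y) ?_
      rw [map_div₀, map_div₀, ← hJ]
      exact (div_lt_one₀ hwypos).2 hplace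
    have hW1 : ∀ f : W, wW f ≤ 1 := one_of_triv hnt
    have hE : ∀ f : W, (ρ / w (algebraMap X N y)) ^ 12 * wW f ≤ w (algebraMap X N t) ^ 12 := by
      intro f
      calc _ ≤ w (algebraMap X N t) ^ 12 * 1 :=
            mul_le_mul' (pow_le_pow_left' hσ 12) (hW1 f)
        _ = _ := mul_one _
    rw [hlam, one_pow, mul_one, one_pow, mul_one]
    calc _ ≤ 1 * (w (algebraMap X N t) ^ 12) ^ n * (w (algebraMap X N t) ^ 12) ^ n *
          (w (algebraMap X N t) ^ 12) ^ n' * 1 * (w (algebraMap X N t) ^ 12) ^ m₁ :=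
          mul_le_mul' (mul_le_mul' (mul_le_mul' (mul_le_mul' (mul_le_mul' (hW1 r)
            (pow_le_pow_left' (hE _) _)) (pow_le_pow_left' (hE _) _))
            (pow_le_pow_left' (hE _) _)) (pow_le_one' (one_of_triv hntQ U) _))
            (pow_le_pow_left' (hE _) _)
      _ = w (algebraMap X N t) ^ (M₀ + 12 * m₁) := by
          rw [one_mul, mul_one, ← pow_mul, ← pow_mul, ← pow_mul, ← pow_add, ← pow_add, ← pow_add]
          congr 1
          omega

theorem down {z : ι → W} (hz : IsTranscendenceBasis k z) {a b c : W}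
    (hΔ : 4 * a ^ 3 + 27 * b ^ 2 ≠ 0) (h1 : c * a ^ 3 + b ^ 2 ≠ 0) (h2 : (c + 1) * a ^ 3 + b ^ 2 ≠ 0)
    {x y : X} (heq : y ^ 2 = x ^ 3 + algebraMap W X a * x + algebraMap W X b)
    (hzx : IsTranscendenceBasis k (Sum.elim (fun i => algebraMap W N (z i))
      (fun _ : Unit => algebraMap X N x)))
    (halg : ∀ g : N, IsAlgebraic (IntermediateField.adjoin Q {algebraMap X N x}) g)
    (hsm : ∀ w : Valuation N ℤᵐ⁰, IsDivisorial k N w →
      ¬ LogSmall w (algebraMap W Q a) (algebraMap W Q b) (algebraMap W Q c)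
        (algebraMap X N x) (algebraMap X N y) → Br.Unr X w)
    {m₀ : ℕ} (hm₀ : 1 ≤ m₀) {r₀ : W} (hr₀ : r₀ ≠ 0) (hr : r₀ ∈ WReg k z m₀)
    (hrc : c * r₀ ∈ WReg k z m₀) {l : ℕ} (hl : KodairaGE k Q l) : KodairaGE k X l := by
  classical
  haveI : CharZero W := charZero_of_injective_algebraMap (algebraMap k W).injective
  haveI : CharZero N := charZero_of_injective_algebraMap (algebraMap k N).injective
  have hzQ : IsTranscendenceBasis k (fun i => algebraMap W Q (z i)) := hz.algebraMap_comp (A := Q)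
  have hcardQ : Fintype.card ι = dimension k Q := card_eq_of_isTranscendenceBasis hzQ
  let ε : Fin (dimension k Q) ≃ ι := (Fintype.equivFinOfCardEq hcardQ).symm
  have hzε : IsTranscendenceBasis k ((fun i => algebraMap W Q (z i)) ∘ ε) :=
    (isTranscendenceBasis_equiv ε).mpr hzQ
  have hback : ((fun i => algebraMap W Q (z i)) ∘ ε) ∘ ε.symm = fun i => algebraMap W Q (z i) := by
    funext i; simp
  obtain ⟨m₁, hm₁, U₀, hU₀, hU₀ne, f, hf, hff⟩ := hl.exists_coord hzε
  have hU : U₀ ∈ WReg k (fun i => algebraMap W Q (z i)) m₁ := by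
    have h3 := WReg.reindex hU₀ ε.symm
    rwa [hback] at h3
  have hfU : ∀ i, f i * U₀ ∈ WReg k (fun i => algebraMap W Q (z i)) m₁ := by
    intro i
    have h3 := WReg.reindex (hff i) ε.symm
    rwa [hback] at h3
  set n := Module.finrank X N * (12 * m₁) with hn
  set n' := 3 * m₀ * n - 2 * n with hn'
  have h3n : 3 * n ≤ 3 * m₀ * n := by
    have : 3 * 1 * n ≤ 3 * m₀ * n := by gcongr
    simpa using this
  have hsum : 2 * n + n' = 3 * m₀ * n := by omega
  have hM : 12 * (2 * n + n') = m₀ * (36 * n) := by rw [hsum]; ring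
  have hrL : r₀ ^ (36 * n) ∈ WReg k z (m₀ * (36 * n)) := WReg.pow hr _
  have hrcL : c ^ (2 * n) * r₀ ^ (36 * n) ∈ WReg k z (m₀ * (36 * n)) := by
    have h4 := WReg.mul (WReg.pow hrc (2 * n)) (WReg.pow hr (34 * n))
    have e1 : m₀ * (2 * n) + m₀ * (34 * n) = m₀ * (36 * n) := by ring
    have e2 : (c * r₀) ^ (2 * n) * r₀ ^ (34 * n) = c ^ (2 * n) * r₀ ^ (36 * n) := by
      rw [mul_pow, mul_assoc, ← pow_add]
      congr 2
      ring
    rwa [e1, e2] at h4
  have key : ∀ U ∈ WReg k (fun i => algebraMap W Q (z i)) m₁, _ := fun U hU =>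
    mem_down (N := N) hz hΔ heq hzx halg hsm hrL hrcL hM le_rfl (by omega : n ≤ n') hU
  have hy0 : algebraMap X N y ≠ 0 := by
    intro h0
    have heqN : algebraMap X N y ^ 2 = algebraMap X N x ^ 3 +
        algebraMap W N a * algebraMap X N x + algebraMap W N b := by
      rw [← map_pow, heq, map_add, map_add, map_mul, map_pow,
        ← IsScalarTower.algebraMap_apply W X N, ← IsScalarTower.algebraMap_apply W X N]
    rw [h0] at heqN
    have hkill : ∀ β : W, pd hzx (Sum.inr ()) (algebraMap W N β) = 0 := fun β =>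
      pd_algebraMap_of_notMem hz hzx Sum.inl (fun _ => rfl) (Sum.inr ()) (fun _ h => by cases h) β
    set D := pd hzx (Sum.inr ()) with hD
    have hDx : D (algebraMap X N x) = 1 := by
      have h5 := pd_self hzx (Sum.inr ()) (Sum.inr ())
      rw [if_pos rfl] at h5
      exact h5
    set ξ := algebraMap X N x with hξ
    have hD2 : ∀ g : N, D (g ^ 2) = 2 * g * D g := fun g => by
      rw [pow_two, D.leibniz, smul_eq_mul]
      ring
    have hD3 : D (ξ ^ 3) = 3 * ξ ^ 2 := by
      rw [pow_succ, D.leibniz, hD2, hDx]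
      simp only [smul_eq_mul]
      ring
    have e1 : 3 * ξ ^ 2 + algebraMap W N a = 0 := by
      have h6 := congrArg D heqN
      rw [hD2, map_add, map_add, D.leibniz, hD3, hkill, hkill, hDx] at h6
      simp only [smul_eq_mul, mul_zero, add_zero, mul_one, zero_mul] at h6
      exact h6.symm
    have e2 : ξ = 0 := by
      have h6 := congrArg D e1
      have h7 : D (3 : N) = 0 := by simpa using D.map_natCast 3
      rw [map_add, D.leibniz, hD2, hkill, hDx, h7, map_zero] at h6
      simp only [smul_eq_mul, mul_zero, add_zero, mul_one] at h6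
      have h8 : (6 : N) * ξ = 0 := by linear_combination h6
      rcases mul_eq_zero.1 h8 with h9 | h9
      · norm_num at h9
      · exact h9
    rw [e2, map_zero] at hDx
    exact zero_ne_one hDx
  have hne : (algebraMap W N (r₀ ^ (36 * n) * (c * a ^ 3 + b ^ 2) ^ n *
      ((c + 1) * a ^ 3 + b ^ 2) ^ n * (4 * a ^ 3 + 27 * b ^ 2) ^ n') /
        algebraMap X N y ^ (12 * (2 * n + n'))) *
      (algebraMap Q N U₀ ^ 12 *
        (algebraMap W N (4 * a ^ 3 + 27 * b ^ 2) / algebraMap X N y ^ 12) ^ m₁) ≠ 0 := by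
    refine mul_ne_zero (div_ne_zero ?_ (pow_ne_zero _ hy0)) (mul_ne_zero (pow_ne_zero _ ?_)
      (pow_ne_zero _ (div_ne_zero ?_ (pow_ne_zero _ hy0))))
    · rw [Ne, map_eq_zero]
      exact mul_ne_zero (mul_ne_zero (mul_ne_zero (pow_ne_zero _ hr₀) (pow_ne_zero _ h1))
        (pow_ne_zero _ h2)) (pow_ne_zero _ hΔ)
    · rw [Ne, map_eq_zero]; exact hU₀ne
    · rw [Ne, map_eq_zero]; exact hΔ
  have hfN : AlgebraicIndependent k (fun i => algebraMap Q N (f i) ^ 12) :=
    algebraicIndependent_pow ((AlgHom.algebraicIndependent_iff (IsScalarTower.toAlgHom k Q N)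
      (algebraMap Q N).injective).mpr hf) (by norm_num)
  refine Twr.of_good' hzx hfN (fun i => ⟨_, by omega, _, key U₀ hU, hne, ?_⟩)
    ⟨_, by omega, _, key U₀ hU, hne, by rw [one_mul]; exact key U₀ hU⟩
  have h3 := key _ (hfU i)
  convert h3 using 1
  rw [map_mul (algebraMap Q N) (f i) U₀, mul_pow]
  ring

end down

end Pf72953.Et
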