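import Mathlib
import Pool.Agent.Lib.Pf72953i.Alg
import Pool.Agent.Lib.Pf72953i.LogS
import Pool.Agent.Lib.Pf72953e.Weier
import Pool.Agent.Lib.Pf72953b.Inertia

/-!
Elliptic fibre spaces: the inertia group at a valuation at which the logarithmic norm does not vanish.
-/

set_option autoImplicit false

open scoped WithZero
open Pf72953

namespace Pf72953.Et

section scale

variable {Q N : Type*} [Field Q] [CharZero Q] [Field N] [Algebra Q N]

theorem eq_of_prod_eq {p q r g : ℤᵐ⁰} (hg : g ≠ 0) (hp : p ≤ g) (hq : q ≤ g) (hr : r ≤ g)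
    (h : (p * q * r) ^ 4 = g ^ 12) : p = g ∧ q = g ∧ r = g := by
  have hg0 : 0 < g := zero_lt_iff.mpr hg
  have h1 : p * q * r = g * g * g := by
    have h2 : (p * q * r) ^ 4 = (g * g * g) ^ 4 := by
      rw [h, show g * g * g = g ^ 3 by rw [pow_succ, pow_two], ← pow_mul]
    exact (pow_left_inj₀ zero_le zero_le (by norm_num)).mp h2
  refine ⟨le_antisymm hp ?_, le_antisymm hq ?_, le_antisymm hr ?_⟩
  · by_contra hc
    rw [not_le] at hc
    have : p * q * r < g * g * g := by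
      calc p * q * r ≤ p * g * g := mul_le_mul' (mul_le_mul' le_rfl hq) hr
        _ < g * g * g := by
          rw [mul_assoc, mul_assoc]
          exact mul_lt_mul_of_pos_right hc (mul_pos hg0 hg0)
    exact absurd h1 this.ne
  · by_contra hc
    rw [not_le] at hc
    have : p * q * r < g * g * g := by
      calc p * q * r ≤ g * q * g := mul_le_mul' (mul_le_mul' hp le_rfl) hr
        _ < g * g * g := by
          exact mul_lt_mul_of_pos_right (mul_lt_mul_of_pos_left hc hg0) hg0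
    exact absurd h1 this.ne
  · by_contra hc
    rw [not_le] at hc
    have : p * q * r < g * g * g := by
      calc p * q * r ≤ g * g * r := mul_le_mul' (mul_le_mul' hp hq) le_rfl
        _ < g * g * g := mul_lt_mul_of_pos_left hc (mul_pos hg0 hg0)
    exact absurd h1 this.ne

/-- the equalities at a valuation at which the logarithmic norm of the discriminant does not vanish -/
theorem scale_eq {a b : Q} {e s : Fin 3 → Q} (h : Roots a b e s) (hΔ : 4 * a ^ 3 + 27 * b ^ 2 ≠ 0)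
    {x y : N} (heq : y ^ 2 = x ^ 3 + algebraMap Q N a * x + algebraMap Q N b)
    {w : Valuation N ℤᵐ⁰} (hn : ∀ n : ℕ, n ≠ 0 → w (n : N) = 1)
    (D : Derivation Q N N) {ρ : ℤᵐ⁰} (hx : D x = 1) (hρ : ∀ g, w (D g) * ρ ≤ w g)
    (hd : w y ^ 12 ≤ ρ ^ 12 * w (algebraMap Q N (4 * a ^ 3 + 27 * b ^ 2))) :
    ∃ g : ℤᵐ⁰, g ≠ 0 ∧ (∀ i, w (algebraMap Q N (s i)) = g) ∧ ρ = g ^ 2 ∧ w y = g ^ 3 ∧
      w x ≤ g ^ 2 ∧ w (algebraMap Q N a) ≤ g ^ 4 ∧ w (algebraMap Q N b) ≤ g ^ 6 := by
  have hcast : ∀ n : ℕ, (algebraMap Q N) (n : Q) = (n : N) := fun n => map_natCast _ n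
  set T : Valuation Q ℤᵐ⁰ := w.comap (algebraMap Q N) with hT
  have hTn : ∀ n : ℕ, n ≠ 0 → T (n : Q) = 1 := fun n h0 => by
    rw [hT, Valuation.comap_apply, hcast]; exact hn n h0
  obtain ⟨i, hsi, hmax, hTa, hTb, hT12⟩ := exists_scale h hΔ T hTn
  have hTap : ∀ q : Q, T q = w (algebraMap Q N q) := fun q => rfl
  set g := T (s i) with hg
  have hg0 : g ≠ 0 := (Valuation.ne_zero_iff _).mpr hsi
  have hgp : 0 < g := zero_lt_iff.mpr hg0
  have nval : ∀ n : ℕ, n ≠ 0 → w (n : N) = 1 := hn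
  have h2 : w (2 : N) = 1 := by simpa using hn 2 (by norm_num)
  have h3 : w (3 : N) = 1 := by simpa using hn 3 (by norm_num)
  have h6 : w (6 : N) = 1 := by simpa using hn 6 (by norm_num)
  have hD2 : D (2 : N) = 0 := by simpa using D.map_natCast 2
  have hD3 : D (3 : N) = 0 := by simpa using D.map_natCast 3
  have ha : D (algebraMap Q N a) = 0 := D.map_algebraMap a
  have hb : D (algebraMap Q N b) = 0 := D.map_algebraMap b
  have hsq : ∀ z : N, D (z ^ 2) = 2 * z * D z := fun z => by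
    rw [pow_two, D.leibniz, smul_eq_mul]
    ring
  have e1 : 3 * x ^ 2 + algebraMap Q N a = 2 * y * D y := by
    have h := congrArg D heq
    rw [hsq, map_add, map_add, pow_succ, D.leibniz, D.leibniz, hsq, hx, ha, hb] at h
    simp only [smul_eq_mul] at h
    rw [h]
    ring
  have e2 : D (3 * x ^ 2 + algebraMap Q N a) = 6 * x := by
    rw [map_add, D.leibniz, hsq, hx, ha, hD3]
    simp only [smul_eq_mul]
    ring
  have hy0 : y ≠ 0 := by
    intro hy
    rw [hy, mul_zero, zero_mul] at e1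
    rw [e1, map_zero] at e2
    have h6' : (6 : N) ≠ 0 := by
      intro h0; rw [h0, map_zero] at h6; exact zero_ne_one h6
    have hx0 : x = 0 := by
      rcases mul_eq_zero.mp e2.symm with h' | h'
      · exact absurd h' h6'
      · exact h'
    rw [hx0, map_zero] at hx
    exact zero_ne_one hx
  have hv0 : w y ≠ 0 := (Valuation.ne_zero_iff _).mpr hy0
  have hρ0 : ρ ≠ 0 := by
    intro h0
    rw [h0, zero_pow (by norm_num), zero_mul] at hd
    exact hv0 (pow_eq_zero_iff (by norm_num) |>.mp (le_zero_iff.mp hd))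
  have hρp : 0 < ρ := zero_lt_iff.mpr hρ0
  set f := 3 * x ^ 2 + algebraMap Q N a with hf
  have b1 : w f * ρ ≤ w y ^ 2 := by
    rw [e1, map_mul, map_mul, h2, one_mul, mul_assoc, pow_two]
    exact mul_le_mul_right (hρ y) (w y)
  have b2 : w x * ρ ≤ w f := by
    have h := hρ f
    rwa [e2, map_mul, h6, one_mul] at h
  have b3 : ρ ≤ w x := by
    have h := hρ x
    rwa [hx, map_one, one_mul] at h
  obtain ⟨w1, w2⟩ := Pf72953.Ell.weier_bound D heq hx ha hb hn hρ
  -- the discriminant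
  have hΔv : w (algebraMap Q N (4 * a ^ 3 + 27 * b ^ 2)) =
      (T (s 0) * T (s 1) * T (s 2)) ^ 4 := by
    rw [← hTap, disc_eq h, Valuation.map_neg, map_pow, map_mul, map_mul]
  have hle : (T (s 0) * T (s 1) * T (s 2)) ^ 4 ≤ g ^ 12 := by
    rw [show g ^ 12 = (g * g * g) ^ 4 by rw [show g * g * g = g ^ 3 by rw [pow_succ, pow_two], ← pow_mul]]
    exact pow_le_pow_left₀ zero_le (mul_le_mul' (mul_le_mul' (hmax 0) (hmax 1)) (hmax 2)) 4
  have hlow : ρ ^ 12 * g ^ 12 ≤ w y ^ 12 := by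
    rw [← hT12]
    rcases max_choice (T a ^ 3) (T b ^ 2) with hm | hm
    · rw [hm]
      calc ρ ^ 12 * T a ^ 3 = (ρ ^ 4 * T a) ^ 3 := by rw [mul_pow, ← pow_mul]
        _ ≤ (w y ^ 4) ^ 3 := pow_le_pow_left₀ zero_le w1 3
        _ = w y ^ 12 := by rw [← pow_mul]
    · rw [hm]
      calc ρ ^ 12 * T b ^ 2 = (ρ ^ 6 * T b) ^ 2 := by rw [mul_pow, ← pow_mul]
        _ ≤ (w y ^ 6) ^ 2 := pow_le_pow_left₀ zero_le w2 2
        _ = w y ^ 12 := by rw [← pow_mul]
  rw [hΔv] at hd
  have hρ12 : 0 < ρ ^ 12 := pow_pos hρp 12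
  have hD12 : (T (s 0) * T (s 1) * T (s 2)) ^ 4 = g ^ 12 := by
    refine le_antisymm hle ?_
    have := hlow.trans hd
    exact (mul_le_mul_iff_of_pos_left hρ12).mp this
  have hyv : w y = ρ * g := by
    have h12 : w y ^ 12 = (ρ * g) ^ 12 := by
      rw [mul_pow]
      refine le_antisymm ?_ hlow
      rw [hD12] at hd; exact hd
    exact (pow_left_inj₀ zero_le zero_le (by norm_num)).mp h12
  obtain ⟨s0, s1, s2⟩ := eq_of_prod_eq hg0 (hmax 0) (hmax 1) (hmax 2) hD12
  have hfv : w f ≤ ρ * g ^ 2 := by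
    rw [hyv] at b1
    have : w f * ρ ≤ (ρ * g ^ 2) * ρ := by
      refine b1.trans (le_of_eq ?_)
      rw [mul_pow, pow_two ρ]; simp only [mul_assoc, mul_comm]
    exact (mul_le_mul_iff_of_pos_right hρp).mp this
  have hxv : w x ≤ g ^ 2 := by
    have : w x * ρ ≤ g ^ 2 * ρ := (b2.trans hfv).trans (le_of_eq (mul_comm _ _))
    exact (mul_le_mul_iff_of_pos_right hρp).mp this
  have hρg : ρ ≤ g ^ 2 := b3.trans hxv
  have hTa' : w (algebraMap Q N a) ≤ g ^ 4 := hTa
  have hTb' : w (algebraMap Q N b) ≤ g ^ 6 := hTb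
  -- the resultant
  have hres : (27 * algebraMap Q N b - 18 * (algebraMap Q N a * x)) * y ^ 2 +
      (4 * algebraMap Q N a ^ 2 - 9 * (algebraMap Q N b * x) + 6 * (algebraMap Q N a * x ^ 2)) * f =
      algebraMap Q N (4 * a ^ 3 + 27 * b ^ 2) := by
    rw [heq, hf]
    simp only [map_add, map_mul, map_pow, map_ofNat]
    ring
  have cz : ∀ (n : ℕ) (z : N), n ≠ 0 → w ((n : N) * z) = w z := fun n z h0 => by
    rw [map_mul, hn n h0, one_mul]
  have t1 : w (27 * algebraMap Q N b - 18 * (algebraMap Q N a * x)) ≤ g ^ 6 := by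
    refine (w.map_sub _ _).trans (max_le ?_ ?_)
    · have := cz 27 (algebraMap Q N b) (by norm_num)
      rw [Nat.cast_ofNat] at this; rw [this]; exact hTb'
    · have := cz 18 (algebraMap Q N a * x) (by norm_num)
      rw [Nat.cast_ofNat] at this; rw [this, map_mul]
      exact (mul_le_mul' hTa' hxv).trans (le_of_eq (pow_add g 4 2).symm)
  have t2 : w (4 * algebraMap Q N a ^ 2 - 9 * (algebraMap Q N b * x) +
      6 * (algebraMap Q N a * x ^ 2)) ≤ g ^ 8 := by
    refine (w.map_add _ _).trans (max_le ((w.map_sub _ _).trans (max_le ?_ ?_)) ?_)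
    · have := cz 4 (algebraMap Q N a ^ 2) (by norm_num)
      rw [Nat.cast_ofNat] at this; rw [this, map_pow]
      exact (pow_le_pow_left₀ zero_le hTa' 2).trans (le_of_eq (pow_mul g 4 2).symm)
    · have := cz 9 (algebraMap Q N b * x) (by norm_num)
      rw [Nat.cast_ofNat] at this; rw [this, map_mul]
      exact (mul_le_mul' hTb' hxv).trans (le_of_eq (pow_add g 6 2).symm)
    · have := cz 6 (algebraMap Q N a * x ^ 2) (by norm_num)
      rw [Nat.cast_ofNat] at this; rw [this, map_mul, map_pow]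
      exact (mul_le_mul' hTa' (pow_le_pow_left₀ zero_le hxv 2)).trans
        (le_of_eq (by rw [← pow_mul, ← pow_add]))
  have hres' : g ^ 12 ≤ ρ * g ^ 10 := by
    have hval : w (algebraMap Q N (4 * a ^ 3 + 27 * b ^ 2)) = g ^ 12 := hΔv.trans hD12
    rw [← hval, ← hres]
    refine (w.map_add _ _).trans (max_le ?_ ?_)
    · rw [map_mul, map_pow, hyv]
      calc w (27 * algebraMap Q N b - 18 * (algebraMap Q N a * x)) * (ρ * g) ^ 2
          ≤ g ^ 6 * (ρ * g) ^ 2 := mul_le_mul' t1 le_rfl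
        _ = ρ * (ρ * g ^ 8) := by
          rw [mul_pow, pow_two ρ, show (8 : ℕ) = 6 + 2 from rfl, pow_add g 6 2]
          simp only [mul_assoc, mul_comm]
        _ ≤ ρ * (g ^ 2 * g ^ 8) := mul_le_mul' le_rfl (mul_le_mul' hρg le_rfl)
        _ = ρ * g ^ 10 := by rw [← pow_add]
    · rw [map_mul]
      calc w (4 * algebraMap Q N a ^ 2 - 9 * (algebraMap Q N b * x) +
            6 * (algebraMap Q N a * x ^ 2)) * w f ≤ g ^ 8 * (ρ * g ^ 2) := mul_le_mul' t2 hfv
        _ = ρ * g ^ 10 := by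
          rw [show (10 : ℕ) = 8 + 2 from rfl, pow_add g 8 2]
          exact mul_left_comm _ _ _
  have hρ2 : g ^ 2 ≤ ρ := by
    have : g ^ 2 * g ^ 10 ≤ ρ * g ^ 10 := by rw [← pow_add]; exact hres'
    exact (mul_le_mul_iff_of_pos_right (pow_pos hgp 10)).mp this
  have hρe : ρ = g ^ 2 := le_antisymm hρg hρ2
  refine ⟨g, hg0, ?_, hρe, ?_, hxv, hTa', hTb'⟩
  · intro j
    fin_cases j
    · exact s0
    · exact s1
    · exact s2
  · rw [hyv, hρe, ← pow_succ]

end scale

section iner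

variable {X Q N : Type*} [Field X] [Field Q] [CharZero Q] [Field N] [Algebra X N] [Algebra Q N]

/-- a sign is trivial if its error term is small -/
theorem sign_eq {w : Valuation N ℤᵐ⁰} (h2 : w (2 : N) = 1) {u z : N} (hu : w u = 1)
    (hz : z ^ 2 = u ^ 2) (hs : w (z - u) < 1) : z = u := by
  rcases sq_eq_sq_iff_eq_or_eq_neg.mp hz with h | h
  · exact h
  · exfalso
    rw [h, show -u - u = -(2 * u) by ring, Valuation.map_neg, map_mul, h2, hu, one_mul] at hs
    exact lt_irrefl _ hs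

/-- coefficients of linear forms in a coordinate -/
theorem lin_le {w : Valuation N ℤᵐ⁰} (D : Derivation Q N N) {x : N} (hx : D x = 1)
    (hx1 : w x ≤ 1) (hρ : ∀ g, w (D g) ≤ w g) (p q : Q) :
    w (algebraMap Q N p) ≤ w (algebraMap Q N p + algebraMap Q N q * x) ∧
      w (algebraMap Q N q) ≤ w (algebraMap Q N p + algebraMap Q N q * x) := by
  have hq : w (algebraMap Q N q) ≤ w (algebraMap Q N p + algebraMap Q N q * x) := by
    have h := hρ (algebraMap Q N p + algebraMap Q N q * x)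
    rwa [map_add, D.map_algebraMap, D.leibniz, D.map_algebraMap, hx, smul_zero, add_zero, zero_add,
      smul_eq_mul, mul_one] at h
  refine ⟨?_, hq⟩
  have : algebraMap Q N p = (algebraMap Q N p + algebraMap Q N q * x) - algebraMap Q N q * x := by
    ring
  rw [this]
  refine (w.map_sub _ _).trans (max_le ?_ ?_)
  · rw [← this]
  · rw [← this, map_mul]
    calc w (algebraMap Q N q) * w x ≤ w (algebraMap Q N q) * 1 := mul_le_mul' le_rfl hx1
      _ = w (algebraMap Q N q) := mul_one _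
      _ ≤ _ := hq

omit [CharZero Q] in
/-- an automorphism fixing the coefficients permutes the roots -/
theorem perm_root {a b : Q} {e s : Fin 3 → Q} (h : Roots a b e s) (σ : N ≃ₐ[X] N)
    (ha : σ (algebraMap Q N a) = algebraMap Q N a) (hb : σ (algebraMap Q N b) = algebraMap Q N b)
    (i : Fin 3) : ∃ j, σ (algebraMap Q N (e i)) = algebraMap Q N (e j) := by
  have h1 : (σ (algebraMap Q N (e i))) ^ 3 + algebraMap Q N a * σ (algebraMap Q N (e i)) +
      algebraMap Q N b = 0 := by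
    have := congrArg (fun z => σ (algebraMap Q N z)) (root_eq h i)
    simp only [map_add, map_mul, map_pow, map_zero] at this
    rwa [ha, hb] at this
  set z := σ (algebraMap Q N (e i)) with hz
  have hs0 : algebraMap Q N (e 0) + algebraMap Q N (e 1) + algebraMap Q N (e 2) = 0 := by
    rw [← map_add, ← map_add, h.sum, map_zero]
  have h2 : (z - algebraMap Q N (e 0)) * (z - algebraMap Q N (e 1)) *
      (z - algebraMap Q N (e 2)) = 0 := by
    rw [h.a_eq, h.b_eq] at h1
    simp only [map_add, map_mul, map_neg] at h1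
    linear_combination h1 - z ^ 2 * hs0
  rcases mul_eq_zero.mp h2 with h3 | h3
  · rcases mul_eq_zero.mp h3 with h4 | h4
    · exact ⟨0, sub_eq_zero.mp h4⟩
    · exact ⟨1, sub_eq_zero.mp h4⟩
  · exact ⟨2, sub_eq_zero.mp h3⟩

omit [CharZero Q] in
/-- differences of the roots -/
theorem val_diff {a b : Q} {e s : Fin 3 → Q} (h : Roots a b e s) {w : Valuation N ℤᵐ⁰} {g : ℤᵐ⁰}
    (hs : ∀ i, w (algebraMap Q N (s i)) = g) {i j : Fin 3} (hij : i ≠ j) :
    w (algebraMap Q N (e i) - algebraMap Q N (e j)) = g ^ 2 := by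
  have k0 : w (algebraMap Q N (e 1) - algebraMap Q N (e 2)) = g ^ 2 := by
    rw [← map_sub, ← h.s0, map_pow, map_pow, hs]
  have k1 : w (algebraMap Q N (e 0) - algebraMap Q N (e 2)) = g ^ 2 := by
    rw [← map_sub, ← h.s1, map_pow, map_pow, hs]
  have k2 : w (algebraMap Q N (e 0) - algebraMap Q N (e 1)) = g ^ 2 := by
    rw [← map_sub, ← h.s2, map_pow, map_pow, hs]
  fin_cases i <;> fin_cases j
  · exact absurd rfl hij
  · exact k2
  · exact k1
  · rw [Valuation.map_sub_swap]; exact k2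
  · exact absurd rfl hij
  · exact k0
  · rw [Valuation.map_sub_swap]; exact k1
  · rw [Valuation.map_sub_swap]; exact k0
  · exact absurd rfl hij

/-- an inertial automorphism fixes the roots -/
theorem fix_roots {a b : Q} {e s : Fin 3 → Q} (h : Roots a b e s) {w : Valuation N ℤᵐ⁰}
    {g : ℤᵐ⁰} (hg : g ≠ 0) (hs : ∀ i, w (algebraMap Q N (s i)) = g) (D : Derivation Q N N) {x : N}
    (hx : D x = 1) (hxv : w x ≤ g ^ 2) (he : ∀ j, w (algebraMap Q N (e j)) ≤ g ^ 2)
    (hρ : ∀ z, w (D z) * g ^ 2 ≤ w z)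
    (σ : N ≃ₐ[X] N) (ha : σ (algebraMap Q N a) = algebraMap Q N a)
    (hb : σ (algebraMap Q N b) = algebraMap Q N b) (hσx : σ x = x)
    (hin : ∀ z, w z ≤ 1 → w (σ z - z) < 1) (i : Fin 3) :
    σ (algebraMap Q N (e i)) = algebraMap Q N (e i) := by
  have hg2 : 0 < g ^ 2 := pow_pos (zero_lt_iff.mpr hg) 2
  obtain ⟨p, hp⟩ := perm_root h σ ha hb 0
  obtain ⟨q, hq⟩ := perm_root h σ ha hb 1
  set E : Fin 3 → N := fun j => algebraMap Q N (e j) with hE
  have hEE : ∀ j, algebraMap Q N (e j) = E j := fun j => rfl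
  rw [hEE, hEE] at hp hq
  have h01 : w (E 0 - E 1) = g ^ 2 := val_diff h hs (by decide)
  have h01' : E 0 - E 1 ≠ 0 := by
    intro h0; rw [h0, map_zero] at h01; exact hg2.ne h01
  have hpq : p ≠ q := by
    intro h0
    rw [← h0] at hq
    exact h01' (sub_eq_zero.mpr (σ.injective (hp.trans hq.symm)))
  have hδ : w (E p - E q) = g ^ 2 := val_diff h hs hpq
  have hδ0 : E p - E q ≠ 0 := by
    intro h0; rw [h0, map_zero] at hδ; exact hg2.ne hδ
  -- the coordinate
  have hx' : w ((x - E 0) / (E 0 - E 1)) ≤ 1 := by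
    rw [map_div₀, h01]
    refine div_le_one_of_le₀ ?_ zero_le
    exact (w.map_sub _ _).trans (max_le hxv (he 0))
  have hs2 : E 0 - E 1 = algebraMap Q N (e 0 - e 1) := by rw [map_sub]
  have hδ2 : E p - E q = algebraMap Q N (e p - e q) := by rw [map_sub]
  set D' : Derivation Q N N := (E 0 - E 1) • D with hD'
  have hD'x : D' ((x - E 0) / (E 0 - E 1)) = 1 := by
    have e1 : (x - E 0) / (E 0 - E 1) = algebraMap Q N (e 0 - e 1)⁻¹ * (x - algebraMap Q N (e 0)) := by
      rw [map_inv₀, ← hs2, div_eq_inv_mul]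
    rw [hD', Derivation.smul_apply, e1, D.leibniz, D.map_algebraMap, smul_zero, add_zero, map_sub,
      D.map_algebraMap, sub_zero, hx, smul_eq_mul, smul_eq_mul, mul_one, map_inv₀, ← hs2,
      mul_inv_cancel₀ h01']
  have hD'v : ∀ z, w (D' z) ≤ w z := fun z => by
    rw [hD', Derivation.smul_apply, smul_eq_mul, map_mul, h01, mul_comm]
    exact hρ z
  -- the error
  have herr := hin _ hx'
  have hσx' : σ ((x - E 0) / (E 0 - E 1)) - (x - E 0) / (E 0 - E 1) =
      algebraMap Q N ((e 0 - e p) / (e p - e q)) +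
        algebraMap Q N ((e 0 - e 1) / (e p - e q) - 1) * ((x - E 0) / (E 0 - E 1)) := by
    rw [map_div₀, map_sub σ, map_sub σ, hσx, hp, hq, map_div₀, map_sub (algebraMap Q N) _ 1,
      map_div₀, map_one, ← hs2, ← hδ2, map_sub, hEE, hEE]
    field_simp
    ring
  rw [hσx'] at herr
  obtain ⟨l1, l2⟩ := lin_le D' hD'x hx' hD'v ((e 0 - e p) / (e p - e q)) ((e 0 - e 1) / (e p - e q) - 1)
  have m1 := l1.trans_lt herr
  have m2 := l2.trans_lt herr
  rw [map_div₀, ← hδ2, map_sub, hEE, hEE, map_div₀, hδ, div_lt_one₀ hg2] at m1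
  have hp0 : p = 0 := by
    by_contra hne
    have := val_diff h hs (i := 0) (j := p) (Ne.symm hne)
    rw [hEE, hEE] at this
    exact (this ▸ m1).ne rfl
  rw [hp0] at hp hpq hδ hδ0 hδ2 m2
  have m3 : w (E q - E 1) < g ^ 2 := by
    have h5 : algebraMap Q N ((e 0 - e 1) / (e 0 - e q) - 1) = (E q - E 1) / (E 0 - E q) := by
      rw [map_sub (algebraMap Q N) _ 1, map_div₀, map_one, ← hs2, ← hδ2]
      field_simp
      ring
    rw [h5, map_div₀, hδ, div_lt_one₀ hg2] at m2
    exact m2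
  have hq1 : q = 1 := by
    by_contra hne
    have := val_diff h hs (i := q) (j := 1) hne
    rw [hEE, hEE] at this
    exact (this ▸ m3).ne rfl
  rw [hq1] at hq
  have hs0 : E 0 + E 1 + E 2 = 0 := by
    rw [hE]; simp only [← map_add]; rw [h.sum, map_zero]
  fin_cases i
  · exact hp
  · exact hq
  · have : E 2 = -(E 0 + E 1) := by linear_combination hs0
    change σ (E 2) = E 2
    rw [this, map_neg, map_add, hp, hq]

/-- an inertial automorphism is trivial -/
theorem inertial_eq_one {a b c : Q} {e s : Fin 3 → Q} (h : Roots a b e s)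
    (hΔ : 4 * a ^ 3 + 27 * b ^ 2 ≠ 0)
    {x y : N} (heq : y ^ 2 = x ^ 3 + algebraMap Q N a * x + algebraMap Q N b)
    {w : Valuation N ℤᵐ⁰} (hn : ∀ n : ℕ, n ≠ 0 → w (n : N) = 1)
    {τ : Q} (hτ : τ ^ 2 * ((c + 1) * a ^ 3 + b ^ 2) = c * a ^ 3 + b ^ 2)
    (hsm : ¬ LogSmall w a b c x y) (σ : N ≃ₐ[X] N)
    (hσ : σ x = x ∧ σ y = y ∧ σ (algebraMap Q N a) = algebraMap Q N a ∧
      σ (algebraMap Q N b) = algebraMap Q N b ∧ σ (algebraMap Q N c) = algebraMap Q N c)
    (hin : ∀ z, w z ≤ 1 → w (σ z - z) < 1) :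
    (∀ i, σ (algebraMap Q N (e i)) = algebraMap Q N (e i)) ∧
      (∀ i, σ (algebraMap Q N (s i)) = algebraMap Q N (s i)) ∧
      σ (algebraMap Q N τ) = algebraMap Q N τ := by
  obtain ⟨hσx, hσy, hσa, hσb, hσc⟩ := hσ
  rw [LogSmall] at hsm
  push Not at hsm
  obtain ⟨D, ρ, hx, hρ, hd0, hd1, hd2⟩ := hsm
  obtain ⟨g, hg, hs, hρg, hyg, hxg, hag, hbg⟩ := scale_eq h hΔ heq hn D hx hρ hd0
  have h2 : w (2 : N) = 1 := by simpa using hn 2 (by norm_num)
  have h3 : w (3 : N) = 1 := by simpa using hn 3 (by norm_num)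
  have hgp : 0 < g := zero_lt_iff.mpr hg
  have he : ∀ j, w (algebraMap Q N (e j)) ≤ g ^ 2 := fun j => by
    refine val_e_le h (w.comap (algebraMap Q N)) ?_ (g := g) (fun j => (hs j).le) j
    rw [Valuation.comap_apply, map_ofNat]; exact h3
  have hroots := fix_roots h hg hs D hx hxg he (fun z => hρg ▸ hρ z) σ hσa hσb hσx hin
  have hsq : ∀ i, (σ (algebraMap Q N (s i))) ^ 2 = (algebraMap Q N (s i)) ^ 2 := by
    intro i
    rw [← map_pow, ← map_pow]
    fin_cases i
    · simp only [Fin.zero_eta]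
      rw [h.s0, map_sub, map_sub, hroots, hroots]
    · simp only [Fin.mk_one]
      rw [h.s1, map_sub, map_sub, hroots, hroots]
    · simp only [Fin.reduceFinMk]
      rw [h.s2, map_sub, map_sub, hroots, hroots]
  have hs0 : ∀ i, algebraMap Q N (s i) ≠ 0 := fun i h0 => by
    have := hs i
    rw [h0, map_zero] at this
    exact hg this.symm
  -- the square root `s 2`
  have hs2 : σ (algebraMap Q N (s 2)) = algebraMap Q N (s 2) := by
    rcases sq_eq_sq_iff_eq_or_eq_neg.mp (hsq 2) with h5 | h5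
    · exact h5
    · exfalso
      have hu : w (y / algebraMap Q N (s 2) ^ 3) = 1 := by
        rw [map_div₀, map_pow, hs, hyg, div_self (pow_ne_zero 3 hg)]
      have h6 := hin _ hu.le
      rw [map_div₀, map_pow, hσy, h5, show y / (-algebraMap Q N (s 2)) ^ 3 -
        y / algebraMap Q N (s 2) ^ 3 = -(2 * (y / algebraMap Q N (s 2) ^ 3)) by
          rw [Odd.neg_pow (by decide), div_neg]; ring,
        Valuation.map_neg, map_mul, h2, hu, one_mul] at h6
      exact lt_irrefl _ h6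
  have hsall : ∀ i, σ (algebraMap Q N (s i)) = algebraMap Q N (s i) := by
    intro i
    have hu : w (algebraMap Q N (s i) / algebraMap Q N (s 2)) = 1 := by
      rw [map_div₀, hs, hs, div_self hg]
    have h6 := hin _ hu.le
    have h7 : (σ (algebraMap Q N (s i) / algebraMap Q N (s 2))) ^ 2 =
        (algebraMap Q N (s i) / algebraMap Q N (s 2)) ^ 2 := by
      rw [map_div₀, hs2, div_pow, div_pow, hsq]
    have h8 := sign_eq h2 hu h7 h6
    rw [map_div₀, hs2] at h8
    exact (div_left_inj' (hs0 2)).mp h8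
  refine ⟨hroots, hsall, ?_⟩
  -- the square root `τ`
  set C : ℤᵐ⁰ := max 1 (w (algebraMap Q N c)) with hC
  have hC0 : C ≠ 0 := (lt_of_lt_of_le zero_lt_one (le_max_left _ _)).ne'
  have hA : w (algebraMap Q N a ^ 3) ≤ g ^ 12 := by
    rw [map_pow]; exact (pow_le_pow_left₀ zero_le hag 3).trans (le_of_eq (pow_mul g 4 3).symm)
  have hB : w (algebraMap Q N b ^ 2) ≤ g ^ 12 := by
    rw [map_pow]; exact (pow_le_pow_left₀ zero_le hbg 2).trans (le_of_eq (pow_mul g 6 2).symm)
  have hup : ∀ q : Q, w (algebraMap Q N q) ≤ C →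
      w (algebraMap Q N (q * a ^ 3 + b ^ 2)) ≤ C * g ^ 12 := by
    intro q hq
    rw [map_add, map_mul, map_pow, map_pow]
    refine (w.map_add _ _).trans (max_le ?_ ?_)
    · rw [map_mul]; exact mul_le_mul' hq hA
    · calc w (algebraMap Q N b ^ 2) ≤ 1 * g ^ 12 := by rw [one_mul]; exact hB
        _ ≤ C * g ^ 12 := mul_le_mul' (le_max_left _ _) le_rfl
  have hlow : ∀ q : Q, C * w y ^ 12 ≤ ρ ^ 12 * w (algebraMap Q N q) →
      C * g ^ 12 ≤ w (algebraMap Q N q) := by
    intro q hq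
    rw [hyg, hρg, ← pow_mul, ← pow_mul, show (3 * 12 : ℕ) = 2 * 12 + 12 from rfl, pow_add,
      mul_left_comm] at hq
    exact (mul_le_mul_iff_of_pos_left (pow_pos hgp _)).mp hq
  have hT1 : w (algebraMap Q N (c * a ^ 3 + b ^ 2)) = C * g ^ 12 :=
    le_antisymm (hup c (le_max_right _ _)) (hlow _ hd1)
  have hT2 : w (algebraMap Q N ((c + 1) * a ^ 3 + b ^ 2)) = C * g ^ 12 := by
    refine le_antisymm (hup _ ?_) (hlow _ hd2)
    rw [map_add, map_one]
    exact (w.map_add _ _).trans (max_le (le_max_right _ _) (by rw [map_one]; exact le_max_left _ _))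
  have hCg : C * g ^ 12 ≠ 0 := mul_ne_zero hC0 (pow_ne_zero _ hg)
  have hT20 : algebraMap Q N ((c + 1) * a ^ 3 + b ^ 2) ≠ 0 := by
    intro h0; rw [h0, map_zero] at hT2; exact hCg hT2.symm
  have hτ' : algebraMap Q N τ ^ 2 * algebraMap Q N ((c + 1) * a ^ 3 + b ^ 2) =
      algebraMap Q N (c * a ^ 3 + b ^ 2) := by
    rw [← map_pow, ← map_mul, hτ]
  have hu : w (algebraMap Q N τ) = 1 := by
    have h5 := congrArg w hτ'
    rw [map_mul, map_pow, hT1, hT2] at h5
    have h6 : w (algebraMap Q N τ) ^ 2 = 1 ^ 2 := by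
      rw [one_pow]
      exact mul_right_cancel₀ hCg (h5.trans (one_mul _).symm)
    exact (pow_left_inj₀ zero_le zero_le (by norm_num)).mp h6
  have hT1σ : σ (algebraMap Q N (c * a ^ 3 + b ^ 2)) = algebraMap Q N (c * a ^ 3 + b ^ 2) := by
    simp only [map_add, map_mul, map_pow, hσa, hσb, hσc]
  have hT2σ : σ (algebraMap Q N ((c + 1) * a ^ 3 + b ^ 2)) =
      algebraMap Q N ((c + 1) * a ^ 3 + b ^ 2) := by
    simp only [map_add, map_mul, map_pow, map_one, hσa, hσb, hσc]
  have hτ2 : (σ (algebraMap Q N τ)) ^ 2 = (algebraMap Q N τ) ^ 2 := by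
    have h5 := congrArg σ hτ'
    rw [map_mul, map_pow, hT1σ, hT2σ, ← hτ'] at h5
    exact mul_right_cancel₀ hT20 h5
  exact sign_eq h2 hu hτ2 (hin _ hu.le)

/-- D2: the inertia lemma -/
theorem unr_of_not_small [FiniteDimensional X N] [IsGalois X N]
    {a b c : Q} {e s : Fin 3 → Q} (h : Roots a b e s) (hΔ : 4 * a ^ 3 + 27 * b ^ 2 ≠ 0)
    {x y : N} (heq : y ^ 2 = x ^ 3 + algebraMap Q N a * x + algebraMap Q N b)
    {w : Valuation N ℤᵐ⁰} (hn : ∀ n : ℕ, n ≠ 0 → w (n : N) = 1)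
    {τ : Q} (hτ : τ ^ 2 * ((c + 1) * a ^ 3 + b ^ 2) = c * a ^ 3 + b ^ 2)
    (hσx : ∀ σ : N ≃ₐ[X] N, σ x = x ∧ σ y = y ∧ σ (algebraMap Q N a) = algebraMap Q N a ∧
      σ (algebraMap Q N b) = algebraMap Q N b ∧ σ (algebraMap Q N c) = algebraMap Q N c)
    (hgen : ∀ σ : N ≃ₐ[X] N, (∀ i, σ (algebraMap Q N (e i)) = algebraMap Q N (e i)) →
      (∀ i, σ (algebraMap Q N (s i)) = algebraMap Q N (s i)) →
      σ (algebraMap Q N τ) = algebraMap Q N τ → σ = 1)
    (hsm : ¬ LogSmall w a b c x y) : Br.Unr X w := by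
  refine Br.unr_of_inertia (fun σ hin => ?_)
  obtain ⟨h1, h2, h3⟩ := inertial_eq_one h hΔ heq hn hτ hsm σ (hσx σ) hin
  exact hgen σ h1 h2 h3

end iner

end Pf72953.Et
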