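import Mathlib
import Pool.Agent.Lib.Pf72953i.Defs
import Pool.Agent.Lib.Pf72953i.Closed
import Pool.Agent.Lib.Pf72953e.GaussE
import Pool.Agent.Lib.Pf72953e.ConstE
import Pool.Agent.Lib.Pf72953e.LocalE
import Pool.Agent.Lib.Pf72953c.EasyAdd

/-!
Elliptic fibre spaces: from `E/B` to `P/B`.
-/

set_option autoImplicit false
set_option linter.style.haveILetI false

open scoped WithZero
open Pf72953 Pf72953.Mov Pf72953.Ell

namespace Pf72953.Et

section up1

section basis

variable {P N : Type*} [Field P] [Field N] [Algebra P N] {a b : P} {x y : N}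

theorem alg_adjoin_x (hgen : ∀ z : N, z ∈ IntermediateField.adjoin P {x, y})
    (heq : y ^ 2 = x ^ 3 + algebraMap P N a * x + algebraMap P N b) (z : N) :
    IsAlgebraic (IntermediateField.adjoin P {x}) z := by
  classical
  set R := IntermediateField.adjoin P ({x} : Set N) with hR
  have huR : x ∈ R := IntermediateField.subset_adjoin P _ rfl
  have hv : IsAlgebraic R y := by
    have h1 : IsAlgebraic R (y ^ 2) := by
      rw [heq]
      exact isAlgebraic_algebraMap (⟨x ^ 3 + algebraMap P N a * x + algebraMap P N b,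
        add_mem (add_mem (pow_mem huR 3) (mul_mem (R.algebraMap_mem _) huR))
          (R.algebraMap_mem _)⟩ : R)
    exact h1.of_pow (by norm_num)
  have hz := hgen z
  induction hz using IntermediateField.adjoin_induction with
  | mem t ht =>
    rcases ht with rfl | ht
    · exact isAlgebraic_algebraMap (⟨t, huR⟩ : R)
    · rw [Set.mem_singleton_iff.mp ht]
      exact hv
  | algebraMap r => exact isAlgebraic_algebraMap (⟨algebraMap P N r, R.algebraMap_mem r⟩ : R)
  | add x y _ _ hx hy => exact hx.add hy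
  | inv x _ hx => exact hx.inv
  | mul x y _ _ hx hy => exact hx.mul hy

theorem tb_x (hx : Transcendental P x) (hgen : ∀ z : N, z ∈ IntermediateField.adjoin P {x, y})
    (heq : y ^ 2 = x ^ 3 + algebraMap P N a * x + algebraMap P N b) :
    IsTranscendenceBasis P (fun _ : Unit => x) := by
  haveI : Algebra.IsAlgebraic (Algebra.adjoin P (Set.range (fun _ : Unit => x))) N := by
    refine ⟨fun z => ?_⟩
    have h1 := alg_adjoin_x hgen heq z
    rw [IntermediateField.isAlgebraic_adjoin_iff] at h1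
    have h2 : Set.range (fun _ : Unit => x) = {x} := Set.range_const
    rw [h2]
    exact h1
  have h3 : AlgebraicIndependent P (fun _ : Unit => x) :=
    algebraicIndependent_unique_type_iff.mpr hx
  exact h3.isTranscendenceBasis_iff_isAlgebraic.mpr inferInstance

theorem tb_zx {B ι : Type*} [Field B] [Algebra B P] [Algebra B N] [IsScalarTower B P N]
    (hx : Transcendental P x) (hgen : ∀ z : N, z ∈ IntermediateField.adjoin P {x, y})
    (heq : y ^ 2 = x ^ 3 + algebraMap P N a * x + algebraMap P N b) {z : ι → P}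
    (hz : IsTranscendenceBasis B z) :
    IsTranscendenceBasis B (Sum.elim (fun i => algebraMap P N (z i)) (fun _ : Unit => x)) := by
  have h1 := hz.sumElim_comp (tb_x hx hgen heq)
  have h2 := (isTranscendenceBasis_equiv (R := B) (Equiv.sumComm ι Unit)).mpr h1
  refine (iff_of_eq (congrArg _ ?_)).mp h2
  funext i
  rcases i with i | i <;> rfl

end basis

section loc

variable {B P N ι : Type*} [Field B] [CharZero B] [Field P] [Field N]
  [Algebra B P] [Algebra B N] [Algebra P N] [IsScalarTower B P N] [Fintype ι] [DecidableEq ι]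
  [Algebra.EssFiniteType B P] [Algebra.EssFiniteType B N] {a b : P} {x y : N}

/-- the local bound -/
theorem local_up (hx : Transcendental P x)
    (hgen : ∀ z : N, z ∈ IntermediateField.adjoin P {x, y})
    (heq : y ^ 2 = x ^ 3 + algebraMap P N a * x + algebraMap P N b)
    {z : ι → P} (hz : IsTranscendenceBasis B z) {T : Valuation P ℤᵐ⁰} (hT : IsDivisorial B P T)
    {G : P} (hG : G ≠ 0) (ha : T a ≤ T G ^ 4) (hb : T b ≤ T G ^ 6) {c : ι → P}
    (hc : RegBasis B T c) {m : ℕ} {U : N} {F : P}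
    (hU : U ∈ WReg B (Sum.elim (fun i => algebraMap P N (z i)) (fun _ : Unit => x)) m)
    (hF : algebraMap P N F = U * y ^ m) :
    T F * T (jac hc.tb z) ^ m ≤ T G ^ m := by
  have htb := tb_zx (B := B) hx hgen heq hz
  have hcardP : Fintype.card ι = dimension B P := card_eq_of_isTranscendenceBasis hz
  have hcardN : Fintype.card (ι ⊕ Unit) = dimension B N := card_eq_of_isTranscendenceBasis htb
  have hdimN : dimension B N = dimension B P + 1 := by
    rw [← hcardN, ← hcardP, Fintype.card_sum, Fintype.card_unit]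
  obtain ⟨w, hwP, hwu, hwv, hwlow, hwval⟩ := exists_gaussE hx hgen heq hG ha hb
  set x' := x / algebraMap P N (G ^ 2) with hx'
  have hw : IsDivisorial B N w := gaussE_divisorial hdimN hwP hwu hwlow hT
  obtain ⟨c', t, ht, hc'⟩ := hT.exists_adapted (ι := ι) hcardP
  have hc'reg := hc'.regBasis hcardP ht
  have hcN := gaussE_adapted hwP hwu hwlow hc'
  have htN : IsUnif w (algebraMap P N t) := by
    refine ⟨(map_ne_zero _).mpr ht.ne_zero, by rw [hwP]; exact ht.lt_one, fun z hz => ?_⟩
    obtain ⟨p, hp⟩ := hwval z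
    rw [hp, hwP]
    exact ht.le p (hp ▸ hz)
  have hreg := hcN.regBasis hcardN htN
  have h1 := hU w hw _ hreg
  have hkillP : ∀ p : P, pd hreg.tb (Sum.inr ()) (algebraMap P N p) = 0 := fun p =>
    pd_algebraMap_of_notMem hc'reg.tb hreg.tb Sum.inl (fun _ => rfl) (Sum.inr ())
      (fun _ h => by cases h) p
  have hG2 : algebraMap P N (G ^ 2) ≠ 0 := (map_ne_zero _).mpr (pow_ne_zero 2 hG)
  have hDx : pd hreg.tb (Sum.inr ()) x = algebraMap P N (G ^ 2) := by
    have h2 : x = algebraMap P N (G ^ 2) * x' := by rw [hx', mul_div_cancel₀ _ hG2]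
    have h3 := pd_self hreg.tb (Sum.inr ()) (Sum.inr ())
    rw [if_pos rfl, Sum.elim_inr] at h3
    conv_lhs => rw [h2]
    rw [Derivation.leibniz, hkillP, smul_zero, add_zero, h3, smul_eq_mul, mul_one]
  have hjac : jac hreg.tb (Sum.elim (fun i => algebraMap P N (z i)) (fun _ : Unit => x)) =
      algebraMap P N (jac hc'reg.tb z) * algebraMap P N (G ^ 2) := by
    rw [LocalEAux.jac_tri hreg.tb _ _ (fun b => hkillP _), hDx]
    congr 1
    rw [jac_eq_det, RingHom.map_det]
    congr 1
    ext i j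
    rw [Matrix.of_apply, RingHom.mapMatrix_apply, Matrix.map_apply, Matrix.of_apply]
    exact pd_algebraMap hc'reg.tb hreg.tb Sum.inl Sum.inl_injective (fun i => by
      rw [Sum.elim_inl]) i _
  rw [hjac, map_mul, hwP, hwP] at h1
  have hTG : 0 < T G := zero_lt_iff.mpr ((Valuation.ne_zero_iff T).mpr hG)
  have hTF : T F = w U * (T G ^ 3) ^ m := by
    rw [← hwP, hF, map_mul, map_pow, hwv]
  have h2 : T F * T (jac hc'reg.tb z) ^ m ≤ T G ^ m := by
    rw [map_pow] at h1
    calc T F * T (jac hc'reg.tb z) ^ m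
        = (w U * (T (jac hc'reg.tb z) * T G ^ 2) ^ m) * T G ^ m := by
          rw [hTF, pow_succ (T G) 2, mul_pow, mul_pow]
          generalize w U = A, T (jac hc'reg.tb z) ^ m = C, (T G ^ 2) ^ m = D, T G ^ m = E
          ac_rfl
      _ ≤ 1 * T G ^ m := mul_le_mul' h1 le_rfl
      _ = T G ^ m := one_mul _
  have h3 : T (jac hc.tb z) ≤ T (jac hc'reg.tb z) := by
    rw [jac_chain hc'reg.tb hc.tb z, map_mul]
    calc T (jac hc.tb c') * T (jac hc'reg.tb z) ≤ 1 * T (jac hc'reg.tb z) :=
          mul_le_mul' (hc.jac_le c' hc'reg.le_one) le_rfl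
      _ = _ := one_mul _
  exact (mul_le_mul' le_rfl (pow_le_pow_left₀ zero_le h3 m)).trans h2

end loc

/-- U1: from `E/B` to `P/B` -/
theorem up1 {B P E N ι : Type*} [Field B] [CharZero B] [Field P] [Field E] [Field N]
    [Algebra B P] [Algebra B E] [Algebra B N] [Algebra P N] [Algebra E N]
    [IsScalarTower B P N] [IsScalarTower B E N] [Fintype ι] [DecidableEq ι]
    [Algebra.EssFiniteType B P] [Algebra.EssFiniteType B E] [Algebra.EssFiniteType B N]
    [FiniteDimensional E N]
    {a b : P} (hΔ : 4 * a ^ 3 + 27 * b ^ 2 ≠ 0) {x y : N} (hx : Transcendental P x)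
    (hgen : ∀ z : N, z ∈ IntermediateField.adjoin P {x, y})
    (heq : y ^ 2 = x ^ 3 + algebraMap P N a * x + algebraMap P N b)
    (hG : ∀ T : Valuation P ℤᵐ⁰, (∀ n : ℕ, n ≠ 0 → T (n : P) = 1) → ∃ G : P, G ≠ 0 ∧
      T a ≤ T G ^ 4 ∧ T b ≤ T G ^ 6 ∧ max (T a ^ 3) (T b ^ 2) = T G ^ 12)
    {z : ι → P} (hz : IsTranscendenceBasis B z) {c : ℕ} (hc : KodairaGE B E c) :
    ∃ m : ℕ, 1 ≤ m ∧ ∃ F : P, F ≠ 0 ∧ F ∈ TReg B z (a ^ 3) (b ^ 2) m ∧
      ∃ f : Fin c → P, AlgebraicIndependent B f ∧ ∀ i, f i * F ∈ TReg B z (a ^ 3) (b ^ 2) m := by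
  classical
  haveI : CharZero P := charZero_of_injective_algebraMap (algebraMap B P).injective
  haveI : CharZero N := charZero_of_injective_algebraMap (algebraMap B N).injective
  have hcN : KodairaGE B N c := Can.kodairaGE_pull (E := E) hc
  have htb := tb_zx (B := B) hx hgen heq hz
  have hcardN : Fintype.card (ι ⊕ Unit) = dimension B N := card_eq_of_isTranscendenceBasis htb
  let e : Fin (dimension B N) ≃ ι ⊕ Unit := (Fintype.equivFinOfCardEq hcardN).symm
  obtain ⟨m, hm, f₀, hf₀, hf₀ne, f, hf, hff⟩ := hcN.exists_coord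
    ((isTranscendenceBasis_equiv (R := B) e).mpr htb)
  have hback : ∀ U ∈ WReg B ((Sum.elim (fun i => algebraMap P N (z i)) (fun _ : Unit => x)) ∘ e) m,
      U ∈ WReg B (Sum.elim (fun i => algebraMap P N (z i)) (fun _ : Unit => x)) m := by
    intro U hU
    have h1 := Pf72953.WReg.reindex hU e.symm
    have h2 : ((Sum.elim (fun i => algebraMap P N (z i)) (fun _ : Unit => x)) ∘ e) ∘ e.symm =
        Sum.elim (fun i => algebraMap P N (z i)) (fun _ : Unit => x) := by
      funext i; simp
    rwa [h2] at h1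
  have hy0 : y ≠ 0 := by
    intro h0
    have h1 : x ^ 3 + algebraMap P N a * x + algebraMap P N b = 0 := by
      rw [← heq, h0]; ring
    refine hx ⟨Polynomial.X ^ 3 + Polynomial.C a * Polynomial.X + Polynomial.C b, ?_, ?_⟩
    · intro h2
      have h3 := congrArg (fun p => Polynomial.coeff p 3) h2
      simp [Polynomial.coeff_X, Polynomial.coeff_C] at h3
    · simpa using h1
  have hdef : DefinedOver P x y x (1 / y) := by
    intro D
    simp only [Algebra.algebraMap_self_apply]
    rw [mul_one_div_cancel hy0, one_mul]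
  have hcl := closedIn hx hgen heq
  have hdown : ∀ U ∈ WReg B (Sum.elim (fun i => algebraMap P N (z i)) (fun _ : Unit => x)) m,
      ∃ F : P, algebraMap P N F = U * y ^ m := by
    intro U hU
    have h1 : IsAlgebraic P (algebraMap N N (U / (1 / y) ^ m)) :=
      const_alg (B := B) (Y := P) (Z := P) (P := P) (L := N) (N := N) (y := z)
        hx hgen heq hΔ hdef hz htb hU
    obtain ⟨F, hF⟩ := hcl _ h1
    refine ⟨F, hF.trans ?_⟩
    rw [Algebra.algebraMap_self_apply, one_div, inv_pow, div_inv_eq_mul]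
  obtain ⟨F₀, hF₀⟩ := hdown f₀ (hback _ hf₀)
  choose F hF using fun i => hdown (f i * f₀) (hback _ (hff i))
  have hF₀ne : F₀ ≠ 0 := by
    rintro rfl
    rw [map_zero] at hF₀
    exact mul_ne_zero hf₀ne (pow_ne_zero m hy0) hF₀.symm
  have hratio : ∀ i, algebraMap P N (F i / F₀) = f i := by
    intro i
    rw [map_div₀, hF, hF₀]
    have := pow_ne_zero m hy0
    field_simp
  have hind : AlgebraicIndependent B (fun i => F i / F₀) := by
    refine AlgebraicIndependent.of_comp (IsScalarTower.toAlgHom B P N) ?_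
    have h5 : (⇑(IsScalarTower.toAlgHom B P N) ∘ fun i => F i / F₀) = f :=
      funext fun i => hratio i
    rw [h5]
    exact hf
  have hprod : ∀ F₁ : P, (∀ (T : Valuation P ℤᵐ⁰), IsDivisorial B P T → ∀ (G : P), G ≠ 0 →
      T a ≤ T G ^ 4 → T b ≤ T G ^ 6 → ∀ (c : ι → P) (hc : RegBasis B T c),
      T F₁ * T (jac hc.tb z) ^ m ≤ T G ^ m) → F₁ * F₀ ^ 11 ∈ TReg B z (a ^ 3) (b ^ 2) m := by
    intro F₁ hF₁ T hT c hc
    have hn : ∀ n : ℕ, n ≠ 0 → T (n : P) = 1 := by
      intro n hn
      have h1 := hT.const (n : B) (by exact_mod_cast hn)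
      rwa [map_natCast] at h1
    obtain ⟨G, hG0, ha, hb, h12⟩ := hG T hn
    have h1 := hF₁ T hT G hG0 ha hb c hc
    have h2 : T F₀ * T (jac hc.tb z) ^ m ≤ T G ^ m :=
      local_up hx hgen heq hz hT hG0 ha hb hc (hback _ hf₀) hF₀
    rw [map_pow, map_pow, h12, map_mul, map_pow]
    calc T F₁ * T F₀ ^ 11 * T (jac hc.tb z) ^ (12 * m)
        = (T F₁ * T (jac hc.tb z) ^ m) * (T F₀ * T (jac hc.tb z) ^ m) ^ 11 := by
          rw [mul_pow, ← pow_mul, show 12 * m = m + m * 11 by ring, pow_add]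
          generalize T F₁ = A, T F₀ ^ 11 = C, T (jac hc.tb z) ^ m = D,
            T (jac hc.tb z) ^ (m * 11) = E
          ac_rfl
      _ ≤ T G ^ m * (T G ^ m) ^ 11 := mul_le_mul' h1 (pow_le_pow_left₀ zero_le h2 11)
      _ = (T G ^ 12) ^ m := by
          rw [← pow_mul, ← pow_mul, ← pow_add]; congr 1; ring
  refine ⟨m, hm, F₀ * F₀ ^ 11, mul_ne_zero hF₀ne (pow_ne_zero _ hF₀ne), ?_,
    fun i => F i / F₀, hind, fun i => ?_⟩
  · exact hprod F₀ fun T hT G hG0 ha hb c hc =>
      local_up hx hgen heq hz hT hG0 ha hb hc (hback _ hf₀) hF₀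
  · have h1 := hprod (F i) fun T hT G hG0 ha hb c hc =>
      local_up hx hgen heq hz hT hG0 ha hb hc (hback _ (hff i)) (hF i)
    have h2 : F i / F₀ * (F₀ * F₀ ^ 11) = F i * F₀ ^ 11 := by
      field_simp
    rw [h2]
    exact h1

end up1

end Pf72953.Et
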