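import Mathlib
import Pool.Agent.Lib.Pf72953i.Defs
import Pool.Agent.Lib.Pf72953.Orb
import Pool.Agent.Lib.Pf72953.Abhyankar
import Pool.Agent.Lib.Pf72953u.Inst

/-!
From `P/B` to `Q/A`, `Q = P·A(√((c + θ)/(c + 1 + θ)))`, `c ∈ A` transcendental over `B`: the sections of `12 m K + m T` become regular
`12 m`-canonical forms.
-/

set_option autoImplicit false
set_option linter.style.haveILetI false

open scoped WithZero
open Pf72953

namespace Pf72953.Et

namespace Up2Aux

section det

variable {K ι : Type*} [Field K] [Fintype ι] [DecidableEq ι] {w : Valuation K ℤᵐ⁰}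

/-- a determinant with one small column -/
theorem det_col_le {M : Matrix ι ι K} (h : ∀ i j, w (M i j) ≤ 1) (j₀ : ι) {δ : ℤᵐ⁰}
    (hδ : ∀ i, w (M i j₀) ≤ δ) : w M.det ≤ δ := by
  rw [Matrix.det_apply]
  refine Valuation.map_sum_le _ fun σ _ => ?_
  rw [Units.smul_def, zsmul_eq_mul, map_mul]
  have h2 : w (((Equiv.Perm.sign σ : ℤˣ) : ℤ) : K) ≤ 1 := by
    rcases Int.units_eq_one_or (Equiv.Perm.sign σ) with h3 | h3 <;> rw [h3] <;> simp
  refine (mul_le_mul' h2 (?_ : _ ≤ δ)).trans (one_mul δ).le
  rw [map_prod, ← Finset.mul_prod_erase Finset.univ _ (Finset.mem_univ j₀)]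
  refine (mul_le_mul' (hδ (σ j₀)) (Finset.prod_le_one' fun j _ => h (σ j) j)).trans (mul_one δ).le

end det

section poly

variable {A Q B : Type*} [Field A] [Field Q] [Field B] [Algebra A Q] [Algebra B A] [Algebra B Q]
  [IsScalarTower B A Q] {w : Valuation Q ℤᵐ⁰}

theorem pow_sub_le {a b : Q} (ha : w a ≤ 1) (hb : w b ≤ 1) (n : ℕ) :
    w (a ^ n - b ^ n) ≤ w (a - b) := by
  induction n with
  | zero => simp
  | succ n ih =>
    have h1 : a ^ (n + 1) - b ^ (n + 1) = a * (a ^ n - b ^ n) + (a - b) * b ^ n := by ring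
    rw [h1]
    refine (w.map_add _ _).trans (max_le ?_ ?_)
    · rw [map_mul]
      exact (mul_le_mul' ha ih).trans (one_mul _).le
    · rw [map_mul, map_pow]
      exact (mul_le_mul' le_rfl (pow_le_one' hb n)).trans (mul_one _).le

theorem aeval_sub_le (hw : ∀ c : A, c ≠ 0 → w (algebraMap A Q c) = 1) {a b : Q} (ha : w a ≤ 1)
    (hb : w b ≤ 1) (p : Polynomial B) :
    w (Polynomial.aeval a p - Polynomial.aeval b p) ≤ w (a - b) := by
  have hB : ∀ c : B, w (algebraMap B Q c) ≤ 1 := by
    intro c
    rcases eq_or_ne c 0 with rfl | hc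
    · simp
    · rw [IsScalarTower.algebraMap_apply B A Q]
      exact (hw _ ((map_ne_zero _).2 hc)).le
  induction p using Polynomial.induction_on' with
  | add p q hp hq =>
    have h1 : Polynomial.aeval a (p + q) - Polynomial.aeval b (p + q) =
        (Polynomial.aeval a p - Polynomial.aeval b p) +
          (Polynomial.aeval a q - Polynomial.aeval b q) := by
      rw [map_add, map_add]
      ring
    rw [h1]
    exact (w.map_add _ _).trans (max_le hp hq)
  | monomial n c =>
    rw [Polynomial.aeval_monomial, Polynomial.aeval_monomial, ← mul_sub, map_mul]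
    exact (mul_le_mul' (hB c) (pow_sub_le ha hb n)).trans (one_mul _).le

theorem resIndep_one {v : Valuation Q ℤᵐ⁰} {θ : Q}
    (h : ∀ p : Polynomial B, p ≠ 0 → v (Polynomial.aeval θ p) = 1) :
    ResIndep B v (fun _ : Fin 1 => θ) := by
  intro p hp
  have h1 : (Polynomial.aeval θ).comp (MvPolynomial.uniqueAlgEquiv B (Fin 1)).toAlgHom =
      (MvPolynomial.aeval (fun _ : Fin 1 => θ) : MvPolynomial (Fin 1) B →ₐ[B] Q) := by
    refine MvPolynomial.algHom_ext fun i => ?_
    simp [MvPolynomial.uniqueAlgEquiv]
  have h2 := h (MvPolynomial.uniqueAlgEquiv B (Fin 1) p) (by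
    rw [Ne, map_eq_zero_iff _ (MvPolynomial.uniqueAlgEquiv B (Fin 1)).injective]
    exact hp)
  rw [← h1]
  exact h2

end poly

section basis

/-- a transcendence basis containing a given transcendental element -/
theorem exists_tb_mem {B P ι : Type*} [Field B] [Field P] [Algebra B P]
    [Algebra.EssFiniteType B P] [Fintype ι] (hι : Fintype.card ι = dimension B P) {θ : P}
    (hθ : Transcendental B θ) : ∃ (u : ι → P) (i₀ : ι), IsTranscendenceBasis B u ∧ u i₀ = θ := by
  classical
  have h1 : AlgebraicIndependent B (fun _ : Fin 1 => θ) :=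
    algebraicIndependent_unique_type_iff.mpr hθ
  have hpos : 1 ≤ dimension B P := by
    have h2 := h1.lift_cardinalMk_le_trdeg
    rw [← trdeg_eq_dimension] at h2
    simp only [Cardinal.mk_fintype, Fintype.card_fin, Nat.cast_one, Cardinal.lift_one,
      Cardinal.lift_natCast] at h2
    exact_mod_cast h2
  obtain ⟨y, hy⟩ := Pf72953.exists_extend (s := dimension B P - 1) h1 (by
    rw [← trdeg_eq_dimension]
    exact_mod_cast (by omega : 1 + (dimension B P - 1) ≤ dimension B P))
  have e : ι ≃ Fin 1 ⊕ Fin (dimension B P - 1) := Fintype.equivOfCardEq (by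
    rw [hι, Fintype.card_sum, Fintype.card_fin, Fintype.card_fin]
    omega)
  refine ⟨Sum.elim (fun _ : Fin 1 => θ) y ∘ e, e.symm (Sum.inl 0), ?_, ?_⟩
  · exact isTranscendenceBasis_of_card hι (hy.comp e e.injective)
  · simp

/-- an adapted basis containing a given residually transcendental element -/
theorem exists_adapted_mem {B P ι : Type*} [Field B] [CharZero B] [Field P] [Algebra B P]
    [Algebra.EssFiniteType B P] [Fintype ι] (hι : Fintype.card ι = dimension B P)
    {v : Valuation P ℤᵐ⁰} (hv : IsDivisorial B P v) {θ : P}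
    (hθ : ResIndep B v (fun _ : Fin 1 => θ)) :
    ∃ (u : ι → P) (i₀ : ι), RegBasis B v u ∧ u i₀ = θ := by
  classical
  obtain ⟨t, ht⟩ := exists_unif v hv.nontrivial
  have h1 : AlgebraicIndependent B (fun o : Option (Fin 1) => o.elim t (fun _ => θ)) :=
    hθ.algebraicIndependent ht.ne_zero ht.lt_one
  have hpos : 2 ≤ dimension B P := by
    have h2 := h1.lift_cardinalMk_le_trdeg
    rw [← trdeg_eq_dimension] at h2
    simp only [Cardinal.mk_fintype, Fintype.card_option, Fintype.card_fin,
      Cardinal.lift_natCast] at h2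
    exact_mod_cast h2
  obtain ⟨y, hy⟩ := hv.exists_extend (s := dimension B P - 2) hθ (by omega)
  let e₁ : Fin (1 + (dimension B P - 2)) ≃ Fin 1 ⊕ Fin (dimension B P - 2) :=
    finSumFinEquiv.symm
  let e : ι ≃ Option (Fin (1 + (dimension B P - 2))) := Fintype.equivOfCardEq (by
    rw [hι, Fintype.card_option, Fintype.card_fin]
    omega)
  set x : Fin (1 + (dimension B P - 2)) → P := Sum.elim (fun _ : Fin 1 => θ) y ∘ e₁ with hx
  have hxr : ResIndep B v x := by
    intro p hp
    have h3 := hy (MvPolynomial.rename e₁ p) (by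
      rw [Ne, map_eq_zero_iff _ (MvPolynomial.rename_injective e₁ e₁.injective)]
      exact hp)
    rwa [MvPolynomial.aeval_rename] at h3
  have had : Adapted B v ((fun o : Option (Fin (1 + (dimension B P - 2))) => o.elim t x) ∘ e) t :=
    ⟨_, e, x, hxr, ht.ne_zero, ht.lt_one, rfl⟩
  refine ⟨_, e.symm (some (e₁.symm (Sum.inl 0))), had.regBasis hι ht, ?_⟩
  simp only [Function.comp_apply, Equiv.apply_symm_apply, Option.elim_some, hx, Sum.elim_inl]

end basis

end Up2Aux

open Up2Aux

theorem up2 {B P A Q ι : Type*} [Field B] [CharZero B] [Field P] [Field A] [CharZero A] [Field Q]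
    [Algebra B P] [Algebra B A] [Algebra B Q] [Algebra P Q] [Algebra A Q]
    [IsScalarTower B P Q] [IsScalarTower B A Q] [Fintype ι] [DecidableEq ι]
    [Algebra.EssFiniteType B P] [Algebra.EssFiniteType B A] [Algebra.EssFiniteType A Q]
    [Algebra.EssFiniteType B Q]
    {T₀ T₁ : P} (hT : T₀ ≠ 0 ∨ T₁ ≠ 0) {c : A} (hc : Transcendental B c) {τ : Q}
    (hτ : τ ^ 2 * (algebraMap A Q (c + 1) * algebraMap P Q T₀ + algebraMap P Q T₁) =
      algebraMap A Q c * algebraMap P Q T₀ + algebraMap P Q T₁)
    {z : ι → P} (hz : IsTranscendenceBasis B z)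
    (_hzQ : IsTranscendenceBasis A (fun i => algebraMap P Q (z i)))
    {m : ℕ} {F : P} (hF : F ∈ TReg B z T₀ T₁ m) :
    algebraMap P Q F / (algebraMap A Q c * algebraMap P Q T₀ + algebraMap P Q T₁) ^ m ∈
      WReg A (fun i => algebraMap P Q (z i)) (12 * m) := by
  classical
  intro w hw cQ hcQ
  have hι : Fintype.card ι = dimension B P := card_eq_of_isTranscendenceBasis hz
  set T' : Q := algebraMap A Q c * algebraMap P Q T₀ + algebraMap P Q T₁ with hT'
  set v : Valuation P ℤᵐ⁰ := w.comap (algebraMap P Q) with hv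
  have hvw : ∀ p, v p = w (algebraMap P Q p) := fun _ => rfl
  have hwB : IsDivisorial B Q w := Up.IsDivisorial.under (κ := A) hw
  have hc0 : c ≠ 0 := fun h0 => hc (by rw [h0]; exact isAlgebraic_zero)
  have hwc : w (algebraMap A Q c) = 1 := hw.const c hc0
  -- change of the basis
  have hchain : ∀ {u : ι → P} (hu : IsTranscendenceBasis B u),
      jac hcQ.tb (fun i => algebraMap P Q (z i)) =
        algebraMap P Q (jac hu z) * jac hcQ.tb (fun i => algebraMap P Q (u i)) := by
    intro u hu
    rw [jac_eq_det, jac_eq_det]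
    exact det_der_algebraMap hu (fun i => (pd hcQ.tb i).restrictScalars B) z
  -- the basic bound
  have key : ∀ {u : ι → P} (hu : RegBasis B v u), w (algebraMap P Q F) *
      w (algebraMap P Q (jac hu.tb z)) ^ (12 * m) ≤ max (v T₀) (v T₁) ^ m := by
    intro u hu
    by_cases hnt : ∃ a : P, a ≠ 0 ∧ v a ≠ 1
    · exact hF v (hwB.restrict hnt) u hu
    · push Not at hnt
      have h1 : ∀ a : P, v a ≤ 1 := fun a => by
        rcases eq_or_ne a 0 with rfl | ha
        · simp
        · exact (hnt a ha).le
      have h2 : (1 : ℤᵐ⁰) ≤ max (v T₀) (v T₁) := by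
        rcases hT with h | h
        · exact (hnt _ h).ge.trans (le_max_left _ _)
        · exact (hnt _ h).ge.trans (le_max_right _ _)
      exact (mul_le_one' (h1 F) (pow_le_one' (h1 _) _)).trans (one_le_pow₀ h2)
  have hTle : w T' ≤ max (v T₀) (v T₁) := by
    refine (w.map_add _ _).trans (max_le_max ?_ le_rfl)
    rw [map_mul, hwc, one_mul, hvw]
  have hmaxpos : 0 < max (v T₀) (v T₁) := by
    rcases hT with h | h
    · exact lt_max_of_lt_left (zero_lt_iff.2 ((Valuation.ne_zero_iff v).2 h))
    · exact lt_max_of_lt_right (zero_lt_iff.2 ((Valuation.ne_zero_iff v).2 h))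
  -- it suffices to prove the bound with `T'`
  suffices hsuff : w (algebraMap P Q F) *
      w (jac hcQ.tb (fun i => algebraMap P Q (z i))) ^ (12 * m) ≤ w T' ^ m by
    rw [map_div₀, map_pow, div_mul_eq_mul_div]
    exact div_le_one_of_le₀ hsuff zero_le
  rcases hTle.lt_or_eq with hlt | heq
  · -- `T'` vanishes
    have hT01 : v T₀ = v T₁ := by
      by_contra hne
      have h1 : w T' = max (w (algebraMap A Q c * algebraMap P Q T₀)) (w (algebraMap P Q T₁)) :=
        Valuation.map_add_of_distinct_val w (by
          rw [map_mul, hwc, one_mul]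
          exact hne)
      rw [map_mul, hwc, one_mul] at h1
      exact absurd h1 hlt.ne
    rw [← hT01, max_self] at hlt hmaxpos
    have hT₀ : T₀ ≠ 0 := fun h0 => by
      rw [h0, map_zero] at hmaxpos
      exact lt_irrefl _ hmaxpos
    have hT₀Q : algebraMap P Q T₀ ≠ 0 := (map_ne_zero _).2 hT₀
    set θ : P := T₁ / T₀ with hθ
    have hθ1 : v θ = 1 := by
      rw [hθ, map_div₀, ← hT01, div_self hmaxpos.ne']
    set g : Q := algebraMap A Q c + algebraMap P Q θ with hg
    have hgT : T' = g * algebraMap P Q T₀ := by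
      rw [hg, hθ, hT', map_div₀]
      field_simp
    have hg1 : w g < 1 := by
      have h1 : w T' = w g * v T₀ := by rw [hgT, map_mul, hvw]
      rw [h1] at hlt
      have h2 : w g * v T₀ < 1 * v T₀ := by rwa [one_mul]
      exact lt_of_mul_lt_mul_right h2 zero_le
    have hτg : τ ^ 2 * (g + 1) = g := by
      have h1 : τ ^ 2 * (g + 1) * algebraMap P Q T₀ = g * algebraMap P Q T₀ := by
        rw [← hgT, ← hτ, hg, hθ, map_add, map_one, map_div₀]
        field_simp
        ring
      exact mul_right_cancel₀ hT₀Q h1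
    have hg2 : w (g + 1) = 1 := by
      have h1 : w g < w (1 : Q) := by rwa [map_one]
      rw [Valuation.map_add_eq_of_lt_right w h1, map_one]
    have hwτ : w τ ^ 2 = w g := by
      conv_rhs => rw [← hτg, map_mul, hg2, mul_one, map_pow]
    have hτ1 : w τ < 1 := by
      by_contra hcon
      push Not at hcon
      have h1 : (1 : ℤᵐ⁰) ≤ w τ ^ 2 := one_le_pow₀ hcon
      rw [hwτ] at h1
      exact absurd hg1 (not_lt.2 h1)
    -- the residue of `θ` is transcendental over `B`
    have hres : ∀ p : Polynomial B, p ≠ 0 → v (Polynomial.aeval θ p) = 1 := by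
      intro p hp
      have h1 : w (algebraMap A Q (Polynomial.aeval (-c) p)) = 1 := by
        refine hw.const _ fun h0 => ?_
        have h2 : IsAlgebraic B (-c) := ⟨p, hp, h0⟩
        exact hc (by simpa using h2.neg)
      have h2 : w (algebraMap P Q (Polynomial.aeval θ p) -
          algebraMap A Q (Polynomial.aeval (-c) p)) < 1 := by
        have h3 : algebraMap P Q (Polynomial.aeval θ p) =
            Polynomial.aeval (algebraMap P Q θ) p := (Polynomial.aeval_algebraMap_apply Q θ p).symm
        have h4 : algebraMap A Q (Polynomial.aeval (-c) p) =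
            Polynomial.aeval (-algebraMap A Q c) p := by
          rw [← map_neg, Polynomial.aeval_algebraMap_apply]
        rw [h3, h4]
        have hn1 : w (algebraMap P Q θ) ≤ 1 := hθ1.le
        have hn2 : w (-algebraMap A Q c) ≤ 1 := by rw [Valuation.map_neg, hwc]
        have hd : w (algebraMap P Q θ - -algebraMap A Q c) < 1 := by
          rw [sub_neg_eq_add, add_comm]
          exact hg1
        exact (aeval_sub_le hw.const hn1 hn2 p).trans_lt hd
      have h3 : w (algebraMap P Q (Polynomial.aeval θ p)) = 1 := by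
        have h4 : algebraMap P Q (Polynomial.aeval θ p) =
            (algebraMap P Q (Polynomial.aeval θ p) - algebraMap A Q (Polynomial.aeval (-c) p)) +
              algebraMap A Q (Polynomial.aeval (-c) p) := by ring
        rw [h4, Valuation.map_add_eq_of_lt_right w (by rwa [h1]), h1]
      exact h3
    -- a regular basis of `P` containing `θ`
    obtain ⟨u, i₀, hu, hui⟩ : ∃ (u : ι → P) (i₀ : ι), RegBasis B v u ∧ u i₀ = θ := by
      by_cases hnt : ∃ a : P, a ≠ 0 ∧ v a ≠ 1
      · exact exists_adapted_mem hι (hwB.restrict hnt) (resIndep_one hres)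
      · push Not at hnt
        have hθt : Transcendental B θ := by
          rintro ⟨p, hp, h0⟩
          have h1 := hres p hp
          rw [h0, map_zero] at h1
          exact zero_ne_one h1
        obtain ⟨u, i₀, hu, hui⟩ := exists_tb_mem hι hθt
        exact ⟨u, i₀, RegBasis.of_trivial hnt hu, hui⟩
    -- the volume
    have hder : ∀ i, w (pd hcQ.tb i (algebraMap P Q θ)) ≤ w τ := by
      intro i
      set D := pd hcQ.tb i with hD
      have h1 : D (algebraMap P Q θ) = D g := by
        rw [hg, map_add, Derivation.map_algebraMap, zero_add]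
      have h2 : (1 - τ ^ 2) * D g = 2 * τ * (g + 1) * D τ := by
        have h3 := congrArg D hτg
        rw [Derivation.leibniz, Derivation.leibniz_pow, map_add, Derivation.map_one_eq_zero,
          add_zero] at h3
        simp only [smul_eq_mul, nsmul_eq_mul, Nat.cast_ofNat] at h3
        linear_combination -h3
      have h3 : w (1 - τ ^ 2) = 1 := by
        have h4 : w (τ ^ 2) < w (1 : Q) := by
          rw [map_pow, map_one, hwτ]
          exact hg1
        rw [Valuation.map_sub_eq_of_lt_left w h4, map_one]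
      have h4 := congrArg w h2
      rw [map_mul, h3, one_mul, map_mul, map_mul, map_mul, hg2, mul_one] at h4
      rw [h1, h4]
      have h5 : w (2 : Q) ≤ 1 := by
        have := hw.const (2 : A) two_ne_zero
        rw [map_ofNat] at this
        exact this.le
      calc w 2 * w τ * w (D τ) ≤ 1 * w τ * 1 := by
            gcongr
            exact hcQ.der i τ hτ1.le
        _ = w τ := by rw [one_mul, mul_one]
    have hvol : w (jac hcQ.tb (fun i => algebraMap P Q (u i))) ≤ w τ := by
      rw [jac_eq_det]
      refine det_col_le (fun i j => ?_) i₀ (fun i => ?_)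
      · exact hcQ.der i _ (hu.le_one j)
      · rw [Matrix.of_apply, hui]
        exact hder i
    have hk := key hu
    rw [hT01, max_self, ← hT01] at hk
    have hT'v : w T' = v T₀ * w τ ^ 2 := by
      rw [hgT, map_mul, hwτ, mul_comm, hvw]
    rw [hchain hu.tb, map_mul, mul_pow, ← mul_assoc, hT'v, mul_pow]
    refine mul_le_mul' hk ?_
    calc w (jac hcQ.tb (fun i => algebraMap P Q (u i))) ^ (12 * m) ≤ w τ ^ (12 * m) :=
          pow_le_pow_left' hvol _
      _ ≤ w τ ^ (2 * m) := pow_le_pow_right_of_le_one' hτ1.le (by omega)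
      _ = (w τ ^ 2) ^ m := pow_mul _ _ _
  · -- `T'` does not vanish
    obtain ⟨u, hu⟩ : ∃ u : ι → P, RegBasis B v u := by
      by_cases hnt : ∃ a : P, a ≠ 0 ∧ v a ≠ 1
      · obtain ⟨u, t, ht, hu⟩ := (hwB.restrict hnt).exists_adapted hι
        exact ⟨u, hu.regBasis hι ht⟩
      · push Not at hnt
        exact ⟨z, RegBasis.of_trivial hnt hz⟩
    rw [hchain hu.tb, map_mul, mul_pow, ← mul_assoc, heq]
    refine (mul_le_mul' (key hu) (pow_le_one' (hcQ.jac_le _ fun i => hu.le_one i) _)).trans ?_
    rw [mul_one]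

end Pf72953.Et
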