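import Mathlib
import Pool.Agent.Lib.Pf72953i.Up1
import Pool.Agent.Lib.Pf72953i.Alg
import Pool.Agent.Lib.Pf72953i.Closed
import Pool.Agent.Lib.Pf72953i.Up2
import Pool.Agent.Lib.Pf72953j.Glue
import Pool.Agent.Lib.Pf72953j.Ext

/-!
Subfields of `Ω`: from `E/B` to `Q/B·Y`.
-/

set_option autoImplicit false
set_option linter.style.haveILetI false

open scoped WithZero
open Pf72953 Pf72953.Mov Pf72953.Tow

namespace Pf72953.Et

variable {k Ω : Type*} [Field k] [Field Ω] [Algebra k Ω]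

/-- generators over a subfield -/
theorem mem_adjoin_of_le {A N : IntermediateField k Ω} [Fact (A ≤ N)] {x y : Ω} (hx : x ∈ N)
    (hy : y ∈ N) (h : N ≤ A ⊔ IntermediateField.adjoin k {x, y}) (z : N) :
    z ∈ IntermediateField.adjoin A ({⟨x, hx⟩, ⟨y, hy⟩} : Set N) := by
  let S : Set N := {⟨x, hx⟩, ⟨y, hy⟩}
  let T : IntermediateField k N := (IntermediateField.adjoin A S).restrictScalars k
  have hA : ∀ u : A, algebraMap A N u ∈ T := fun u =>
    (IntermediateField.adjoin A S).algebraMap_mem u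
  have hxT : (⟨x, hx⟩ : N) ∈ T := IntermediateField.subset_adjoin A S (Or.inl rfl)
  have hyT : (⟨y, hy⟩ : N) ∈ T := IntermediateField.subset_adjoin A S (Or.inr rfl)
  have hlift : ∀ u : N, u ∈ T → (u : Ω) ∈ T.map N.val := fun u hu => ⟨u, hu, rfl⟩
  have h1 : N ≤ T.map N.val := by
    refine h.trans (sup_le (fun u hu => hlift _ (hA ⟨u, hu⟩)) ?_)
    rw [IntermediateField.adjoin_le_iff]
    intro u hu
    rcases hu with rfl | hu
    · exact hlift _ hxT
    · rw [Set.mem_singleton_iff.1 hu]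
      exact hlift _ hyT
  obtain ⟨u, hu, huz⟩ := h1 z.2
  have h2 : u = z := Subtype.ext huz
  rw [← h2]
  exact hu

variable [CharZero k]

/-- algebraically independent families stay independent over an independent extension of the base -/
theorem indep_over {B A P Q : Type*} [Field B] [Field A] [Field P] [Field Q] [Algebra B A]
    [Algebra B P] [Algebra B Q] [Algebra A Q] [Algebra P Q] [IsScalarTower B A Q]
    [IsScalarTower B P Q] [Algebra.EssFiniteType B P] [Algebra.EssFiniteType B Q]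
    (hdim : dimension B A + dimension B P = dimension B Q)
    (halg : ∀ a : Q, IsAlgebraic (Algebra.adjoin B
      (Set.range (algebraMap A Q) ∪ Set.range (algebraMap P Q))) a) {c : ℕ} {f : Fin c → P}
    (hf : AlgebraicIndependent B f) :
    AlgebraicIndependent A (fun i => algebraMap P Q (f i)) := by
  classical
  obtain ⟨s, hs, hs'⟩ := exists_isTranscendenceBasis_superset (R := B) (s := Set.range f)
    hf.to_subtype_range
  haveI := finite_of_isTranscendenceBasis hs'
  haveI := Fintype.ofFinite s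
  have h1 := (Up.tb_over hdim halg hs').1
  exact h1.comp (fun i => (⟨f i, hs ⟨i, rfl⟩⟩ : s)) fun i j hij =>
    hf.injective (congrArg Subtype.val hij)

theorem up {B V E P Y Q : IntermediateField k Ω} (hBV : B ≤ V) (hV : Fin' V) (hP : Fin' P)
    (hY : Fin' Y) (hQ : Fin' Q) (hVP : V ≤ P) (hPalg : ∀ x ∈ P, IsAlgebraic V x)
    (hVQ : V ⊔ Y ≤ Q) (hQalg : ∀ x ∈ Q, IsAlgebraic (V ⊔ Y : IntermediateField k Ω) x)
    (hPQ : P ≤ Q) (hi : Indep V Y) {a b : Ω} {e s : Fin 3 → Ω} (haP : a ∈ P) (hbP : b ∈ P)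
    (heP : ∀ i, e i ∈ P) (hsP : ∀ i, s i ∈ P) (hr : Roots a b e s)
    (hΔ : 4 * a ^ 3 + 27 * b ^ 2 ≠ 0) {x y : Ω} (hx : Transcendental V x)
    (heq : y ^ 2 = x ^ 3 + a * x + b) (hE : E = V ⊔ IntermediateField.adjoin k {x, y})
    {t τ : Ω} (htY : t ∈ Y) (ht : Transcendental k t) (hτQ : τ ∈ Q)
    (hτ : τ ^ 2 * ((t + 1) * a ^ 3 + b ^ 2) = t * a ^ 3 + b ^ 2)
    (hT' : t * a ^ 3 + b ^ 2 ≠ 0) {c : ℕ} (hc : KGE B E c) : KGE (B ⊔ Y) Q c := by
  classical
  obtain ⟨fBE, hc⟩ := hc
  have hxE : x ∈ E := by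
    rw [hE]
    exact (le_sup_right : _ ≤ V ⊔ IntermediateField.adjoin k {x, y})
      (IntermediateField.subset_adjoin k _ (Or.inl rfl))
  have hyE : y ∈ E := by
    rw [hE]
    exact (le_sup_right : _ ≤ V ⊔ IntermediateField.adjoin k {x, y})
      (IntermediateField.subset_adjoin k _ (Or.inr rfl))
  have hVE : V ≤ E := by rw [hE]; exact le_sup_left
  have hEf : Fin' E := by
    rw [hE]
    refine fin_sup hV ?_
    rw [Fin', IntermediateField.essFiniteType_iff]
    exact ⟨{x, y}, by rw [Finset.coe_pair]⟩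
  have hB : Fin' B := fin_le hV hBV
  set N : IntermediateField k Ω := E ⊔ P with hN
  have hNf : Fin' N := fin_sup hEf hP
  -- the algebra structures
  haveI f1 : Fact (B ≤ P) := ⟨hBV.trans hVP⟩
  haveI f2 : Fact (B ≤ N) := ⟨(hBV.trans hVE).trans le_sup_left⟩
  haveI f3 : Fact (P ≤ N) := ⟨le_sup_right⟩
  haveI f4 : Fact (E ≤ N) := ⟨le_sup_left⟩
  haveI f5 : Fact (B ≤ B ⊔ Y) := ⟨le_sup_left⟩
  haveI f6 : Fact (B ⊔ Y ≤ Q) := ⟨(sup_le_sup_right hBV Y).trans hVQ⟩
  haveI f7 : Fact (P ≤ Q) := ⟨hPQ⟩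
  haveI f8 : Fact (B ≤ Q) := ⟨f1.out.trans hPQ⟩
  have hA : Fin' (B ⊔ Y) := fin_sup hB hY
  haveI : Algebra.EssFiniteType k P := hP
  haveI : Algebra.EssFiniteType k E := hEf
  haveI : Algebra.EssFiniteType k N := hNf
  haveI : Algebra.EssFiniteType k Q := hQ
  haveI : Algebra.EssFiniteType k (B ⊔ Y : IntermediateField k Ω) := hA
  haveI : Algebra.EssFiniteType B P := Algebra.EssFiniteType.of_comp k B P
  haveI : Algebra.EssFiniteType B E := Algebra.EssFiniteType.of_comp k B E
  haveI : Algebra.EssFiniteType B N := Algebra.EssFiniteType.of_comp k B N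
  haveI : Algebra.EssFiniteType B Q := Algebra.EssFiniteType.of_comp k B Q
  haveI : Algebra.EssFiniteType B (B ⊔ Y : IntermediateField k Ω) :=
    Algebra.EssFiniteType.of_comp k B _
  haveI : Algebra.EssFiniteType (B ⊔ Y : IntermediateField k Ω) Q :=
    Algebra.EssFiniteType.of_comp k _ Q
  haveI : CharZero B := charZero_of_injective_algebraMap (algebraMap k B).injective
  haveI : CharZero P := charZero_of_injective_algebraMap (algebraMap k P).injective
  haveI : CharZero (B ⊔ Y : IntermediateField k Ω) :=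
    charZero_of_injective_algebraMap (algebraMap k (B ⊔ Y : IntermediateField k Ω)).injective
  have hNalg : ∀ u ∈ N, IsAlgebraic E u := by
    refine alg_iff.2 (sup_le le_cl ?_)
    exact (alg_iff.1 hPalg).trans (cl_mono hVE)
  haveI : FiniteDimensional E N := finite_of hNf hNalg
  -- the curve over `P`
  have hxN : x ∈ N := (le_sup_left : E ≤ N) hxE
  have hyN : y ∈ N := (le_sup_left : E ≤ N) hyE
  have hNle : N ≤ P ⊔ IntermediateField.adjoin k {x, y} := by
    rw [hN, hE]
    exact sup_le (sup_le_sup_right hVP _) le_sup_left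
  have hxP : Transcendental P (⟨x, hxN⟩ : N) := by
    intro h
    have h1 : IsAlgebraic P x := by
      have := (isAlgebraic_algebraMap_iff (R := P) (A := Ω) (S := N)
        (algebraMap N Ω).injective).2 h
      exact this
    exact hx (alg_trans hVP hPalg (C := cl P) (fun u hu => mem_cl.1 hu) x (mem_cl.2 h1))
  set a' : P := ⟨a, haP⟩ with ha'
  set b' : P := ⟨b, hbP⟩ with hb'
  have hr' : Roots a' b' (fun i => (⟨e i, heP i⟩ : P)) (fun i => (⟨s i, hsP i⟩ : P)) :=
    ⟨Subtype.ext hr.sum, Subtype.ext hr.a_eq, Subtype.ext hr.b_eq, Subtype.ext hr.s0,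
      Subtype.ext hr.s1, Subtype.ext hr.s2⟩
  have hΔ' : 4 * a' ^ 3 + 27 * b' ^ 2 ≠ 0 := fun h => hΔ (congrArg Subtype.val h)
  obtain ⟨z, hz⟩ := exists_tb B P
  obtain ⟨m, hm, F, hF0, hF, f, hf, hfF⟩ := up1 (B := B) (P := P) (E := E) (N := N) hΔ' hxP
    (mem_adjoin_of_le hxN hyN hNle) (Subtype.ext heq) (fun T hT => by
      obtain ⟨i, h1, -, h2, h3, h4⟩ := exists_scale hr' hΔ' T hT
      exact ⟨_, h1, h2, h3, h4⟩) hz hc
  -- over `B·Y`
  have halgQ : ∀ u : Q, IsAlgebraic (Algebra.adjoin B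
      (Set.range (algebraMap (B ⊔ Y : IntermediateField k Ω) Q) ∪ Set.range (algebraMap P Q))) u := by
    intro u
    refine alg_adjoin_up (k := k) (alg_sup (A := B ⊔ Y) (B := P) (Q := Q) (fun v hv => ?_) u)
    exact alg_mono (sup_le (hVP.trans le_sup_right) (le_sup_right.trans le_sup_left))
      (hQalg v hv)
  have hiB : Indep B Y := hi.mono_left hV hY hBV
  have hdimQ : dimension B (B ⊔ Y : IntermediateField k Ω) + dimension B P = dimension B Q := by
    have h1 := dim_add (A := B) (B := B ⊔ Y) hA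
    have h2 := dim_add (A := B) (B := P) hP
    have h3 := dim_add (A := B) (B := Q) hQ
    have h4 : dimension k (B ⊔ Y : IntermediateField k Ω) = dimension k B + dimension k Y := hiB
    have h5 : dimension k (V ⊔ Y : IntermediateField k Ω) = dimension k V + dimension k Y := hi
    have h6 := dim_eq hQ hVQ hQalg
    have h7 := dim_eq hP hVP hPalg
    omega
  have hzQ := Up.tb_over hdimQ halgQ hz
  have hfQ := indep_over hdimQ halgQ hf
  have hcard := card_eq_of_isTranscendenceBasis hzQ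
  rw [Fintype.card_fin] at hcard
  set c' : (B ⊔ Y : IntermediateField k Ω) := ⟨t, (le_sup_right : Y ≤ B ⊔ Y) htY⟩ with hc'
  have hctr : Transcendental B c' := by
    haveI g1 : Fact (Y ≤ B ⊔ Y) := ⟨le_sup_right⟩
    haveI : Algebra.EssFiniteType k Y := hY
    have h1 : AlgebraicIndependent k (fun _ : Fin 1 => (⟨t, htY⟩ : Y)) := by
      refine algebraicIndependent_unique_type_iff.2 fun h => ht ?_
      exact (isAlgebraic_algebraMap_iff (R := k) (A := Ω) (S := Y) (algebraMap Y Ω).injective).2 h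
    have h2 := indep_over (B := k) (A := B) (P := Y) (Q := (B ⊔ Y : IntermediateField k Ω))
      (Eq.symm hiB) (alg_sup fun v hv => alg_of_mem hv) h1
    exact algebraicIndependent_unique_type_iff.1 h2
  set τ' : Q := ⟨τ, hτQ⟩ with hτ'
  have hτeq : τ' ^ 2 * (algebraMap (B ⊔ Y : IntermediateField k Ω) Q (c' + 1) *
      algebraMap P Q (a' ^ 3) + algebraMap P Q (b' ^ 2)) =
      algebraMap (B ⊔ Y : IntermediateField k Ω) Q c' * algebraMap P Q (a' ^ 3) +
        algebraMap P Q (b' ^ 2) := Subtype.ext hτ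
  have hTne : algebraMap (B ⊔ Y : IntermediateField k Ω) Q c' * algebraMap P Q (a' ^ 3) +
        algebraMap P Q (b' ^ 2) ≠ 0 := fun h => hT' (congrArg Subtype.val h)
  have hab : a' ^ 3 ≠ 0 ∨ b' ^ 2 ≠ 0 := by
    by_contra hcon
    push Not at hcon
    apply hΔ'
    rw [hcon.1, hcon.2, mul_zero, mul_zero, add_zero]
  have key : ∀ {G : P}, G ∈ TReg B z (a' ^ 3) (b' ^ 2) m → algebraMap P Q G /
      (algebraMap (B ⊔ Y : IntermediateField k Ω) Q c' * algebraMap P Q (a' ^ 3) +
        algebraMap P Q (b' ^ 2)) ^ m ∈ WReg (B ⊔ Y : IntermediateField k Ω)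
          (fun i => algebraMap P Q (z i)) (12 * m) :=
    fun hG => up2 hab hctr hτeq hz hzQ hG
  refine ⟨f6, ?_⟩
  let ε : Fin (dimension (B ⊔ Y : IntermediateField k Ω) Q) ≃ Fin (dimension B P) :=
    finCongr hcard.symm
  refine KodairaGE.of_coord (z := (fun i => algebraMap P Q (z i)) ∘ ε)
    ((isTranscendenceBasis_equiv ε).2 hzQ) (m := 12 * m) (by omega) (WReg.reindex (key hF) ε) ?_ hfQ
    fun i => ?_
  · exact div_ne_zero ((map_ne_zero _).2 hF0) (pow_ne_zero _ hTne)
  · have h1 := WReg.reindex (key (hfF i)) ε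
    rwa [map_mul, mul_div_assoc] at h1

end Pf72953.Et
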