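import Mathlib
import Pool.Agent.Lib.Pf72953i.Down
import Pool.Agent.Lib.Pf72953i.Inert
import Pool.Agent.Lib.Pf72953i.UpO
import Pool.Agent.Lib.Pf72953g.Est
import Pool.Agent.Lib.Pf72953j.Curve
import Pool.Agent.Lib.Pf72953j.Ram

/-!
Subfields of `Ω`: from `Q` to `E·Y`.
-/

set_option autoImplicit false
set_option linter.style.haveILetI false

open scoped WithZero
open Pf72953 Pf72953.Mov Pf72953.Tow

namespace Pf72953.Et

/-- the product of two regular forms -/
theorem wreg_mul {k G H N ιG ιH : Type*} [Field k] [CharZero k] [Field G] [Field H] [Field N]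
    [Algebra k G] [Algebra k H] [Algebra k N] [Algebra G N] [Algebra H N] [IsScalarTower k G N]
    [IsScalarTower k H N] [Fintype ιG] [DecidableEq ιG] [Fintype ιH] [DecidableEq ιH]
    [Algebra.EssFiniteType k G] [Algebra.EssFiniteType k H] [Algebra.EssFiniteType k N]
    (hdim : dimension k G + dimension k H = dimension k N)
    (halg : ∀ a : N, IsAlgebraic (Algebra.adjoin k
      (Set.range (algebraMap G N) ∪ Set.range (algebraMap H N))) a)
    {x : ιG → G} (hx : IsTranscendenceBasis k x) {y : ιH → H} (hy : IsTranscendenceBasis k y)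
    {m : ℕ} {r : G} (hr : r ∈ WReg k x m) {g : H} (hg : g ∈ WReg k y m) :
    algebraMap G N r * algebraMap H N g ∈ WReg k
      (Sum.elim (fun i => algebraMap G N (x i)) (fun j => algebraMap H N (y j))) m := by
  intro w hw c hc
  obtain ⟨cG, hcG, hbG⟩ := Diag.reg_part hx hr hw
  obtain ⟨cH, hcH, hbH⟩ := Diag.reg_part hy hg hw
  have hprod := RegBasis.prod_le hcG hcH hc (sumElim_tb hdim halg hcG.tb hcH.tb) x y
  rw [map_mul]
  calc _ ≤ (w (algebraMap G N r) * w (algebraMap H N g)) *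
        (w (algebraMap G N (jac hcG.tb x)) * w (algebraMap H N (jac hcH.tb y))) ^ m := by
        gcongr
    _ = (w (algebraMap G N r) * w (algebraMap G N (jac hcG.tb x)) ^ m) *
        (w (algebraMap H N g) * w (algebraMap H N (jac hcH.tb y)) ^ m) := by
        rw [mul_pow, mul_mul_mul_comm]
    _ ≤ 1 := mul_le_one' hbG hbH

section curve

variable {k C : Type*} [Field k] [CharZero k] [Field C] [Algebra k C]

/-- the forms `(dt / y)^m`, `t (dt / y)^m` on the curve `y² = t⁵ - 1` -/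
theorem curve_forms {t y : C} (hy : y ≠ 0) (h : y ^ 2 = t ^ 5 - 1) (m : ℕ) :
    (y⁻¹) ^ (m + 1) ∈ WReg k (fun _ : Fin 1 => t) (m + 1) ∧
      t * (y⁻¹) ^ (m + 1) ∈ WReg k (fun _ : Fin 1 => t) (m + 1) := by
  have key : ∀ (w : Valuation C ℤᵐ⁰), IsDivisorial k C w → ∀ (c : Fin 1 → C)
      (hc : RegBasis k w c), w (y⁻¹) * w (jac hc.tb (fun _ => t)) ≤ 1 ∧
        w (t * y⁻¹) * w (jac hc.tb (fun _ => t)) ≤ 1 := by
    intro w hw c hc
    have h1 : jac hc.tb (fun _ => t) = pd hc.tb 0 t := by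
      rw [jac_eq_det, Matrix.det_fin_one, Matrix.of_apply]
    have h2 := Fib.CurveAux.local_le hw.const (pd hc.tb 0) (fun a ha => hc.der 0 a ha) hy h
    rw [h1]
    constructor
    · have h3 := h2.1
      rwa [div_eq_mul_inv, mul_comm, map_mul] at h3
    · have h3 := h2.2
      have h4 : t * (pd hc.tb 0 t / y) = (t * y⁻¹) * pd hc.tb 0 t := by
        rw [div_eq_mul_inv]; ring
      rwa [h4, map_mul] at h3
  constructor
  · intro w hw c hc
    obtain ⟨h1, -⟩ := key w hw c hc
    rw [map_pow, ← mul_pow]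
    exact pow_le_one' h1 _
  · intro w hw c hc
    obtain ⟨h1, h2⟩ := key w hw c hc
    have h3 : t * y⁻¹ ^ (m + 1) = (t * y⁻¹) * y⁻¹ ^ m := by ring
    calc _ = (w (t * y⁻¹) * w (jac hc.tb (fun _ => t))) *
          (w (y⁻¹) * w (jac hc.tb (fun _ => t))) ^ m := by
          rw [h3, map_mul, map_pow, pow_succ, mul_pow]
          ac_rfl
      _ ≤ 1 := mul_le_one' h2 (pow_le_one' h1 m)

end curve

/-- `P(x, y)`, `y² = x³ + a x + b`, is algebraic over `P(x)` -/
theorem alg_gen {P N : Type*} [Field P] [Field N] [Algebra P N] {x y : N} {a b : P}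
    (heq : y ^ 2 = x ^ 3 + algebraMap P N a * x + algebraMap P N b)
    (hgen : ∀ z : N, z ∈ IntermediateField.adjoin P {x, y}) (z : N) :
    IsAlgebraic (IntermediateField.adjoin P {x}) z := by
  set R := IntermediateField.adjoin P ({x} : Set N) with hR
  have hxR : x ∈ R := IntermediateField.subset_adjoin P _ rfl
  have hy : IsAlgebraic R y := by
    have h1 : IsAlgebraic R (y ^ 2) := by
      rw [heq]
      exact isAlgebraic_algebraMap (⟨x ^ 3 + algebraMap P N a * x + algebraMap P N b,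
        add_mem (add_mem (pow_mem hxR 3) (mul_mem (R.algebraMap_mem _) hxR))
          (R.algebraMap_mem _)⟩ : R)
    exact h1.of_pow (by norm_num)
  have hz := hgen z
  induction hz using IntermediateField.adjoin_induction with
  | mem u hu =>
    rcases hu with rfl | hu
    · exact isAlgebraic_algebraMap (⟨u, hxR⟩ : R)
    · rw [Set.mem_singleton_iff.mp hu]
      exact hy
  | algebraMap r => exact isAlgebraic_algebraMap (⟨algebraMap P N r, R.algebraMap_mem r⟩ : R)
  | add u v _ _ hu hv => exact hu.add hv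
  | inv u _ hu => exact hu.inv
  | mul u v _ _ hu hv => exact hu.mul hv

section tb

variable {k Ω : Type*} [Field k] [Field Ω] [Algebra k Ω]

theorem tb_xO {V E : IntermediateField k Ω} [Fact (V ≤ E)] {a b x y : Ω} (haV : a ∈ V) (hbV : b ∈ V)
    (hx : Transcendental V x) (heq : y ^ 2 = x ^ 3 + a * x + b)
    (hE : E = V ⊔ IntermediateField.adjoin k {x, y}) (hxE : x ∈ E) :
    IsTranscendenceBasis V (fun _ : Unit => (⟨x, hxE⟩ : E)) := by
  have hyE : y ∈ E := by
    rw [hE]
    exact (le_sup_right : _ ≤ V ⊔ IntermediateField.adjoin k {x, y})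
      (IntermediateField.subset_adjoin k _ (Or.inr rfl))
  have h1 : AlgebraicIndependent V (fun _ : Unit => (⟨x, hxE⟩ : E)) := by
    refine algebraicIndependent_unique_type_iff.2 fun h => hx ?_
    exact (isAlgebraic_algebraMap_iff (R := V) (A := Ω) (S := E) (algebraMap E Ω).injective).2 h
  have h2 := alg_gen (P := V) (N := E) (x := ⟨x, hxE⟩) (y := ⟨y, hyE⟩) (a := ⟨a, haV⟩)
    (b := ⟨b, hbV⟩) (Subtype.ext heq) (mem_adjoin_of_le hxE hyE hE.le)
  haveI : Algebra.IsAlgebraic (Algebra.adjoin V (Set.range fun _ : Unit => (⟨x, hxE⟩ : E))) E := by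
    refine ⟨fun z => ?_⟩
    have h3 := h2 z
    rw [IntermediateField.isAlgebraic_adjoin_iff] at h3
    rw [Set.range_const]
    exact h3
  exact h1.isTranscendenceBasis_iff_isAlgebraic.mpr inferInstance

end tb

variable {k Ω : Type*} [Field k] [CharZero k] [IsAlgClosed k] [Field Ω] [IsAlgClosed Ω]
  [Algebra k Ω]

theorem downO {V E Y Q : IntermediateField k Ω} (hV : Fin' V) (hQ : Fin' Q)
    (hG : Gal (V ⊔ Y) Q) (hi : Indep E Y) {a b : Ω} {e s : Fin 3 → Ω} (haV : a ∈ V) (hbV : b ∈ V)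
    (heQ : ∀ i, e i ∈ Q) (hsQ : ∀ i, s i ∈ Q) (hr : Roots a b e s)
    (hΔ : 4 * a ^ 3 + 27 * b ^ 2 ≠ 0) {x y : Ω} (hx : Transcendental V x)
    (heq : y ^ 2 = x ^ 3 + a * x + b) (hE : E = V ⊔ IntermediateField.adjoin k {x, y})
    {t y₀ τ : Ω} (ht : Transcendental k t) (hty : y₀ ^ 2 = t ^ 5 - 1)
    (hY : Y = IntermediateField.adjoin k {t, y₀}) (hτQ : τ ∈ Q)
    (hτ : τ ^ 2 * ((t + 1) * a ^ 3 + b ^ 2) = t * a ^ 3 + b ^ 2)
    (hT' : t * a ^ 3 + b ^ 2 ≠ 0) (hT'' : (t + 1) * a ^ 3 + b ^ 2 ≠ 0)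
    (hfix : ∀ σ : Ω ≃ₐ[k] Ω, Fixes σ (V ⊔ Y) → (∀ i, σ (e i) = e i) →
      (∀ i, σ (s i) = s i) → σ τ = τ → Fixes σ Q)
    (h0 : KodairaGE k V 0) {l : ℕ} (hl : KodairaGE k Q l) :
    KodairaGE k (E ⊔ Y : IntermediateField k Ω) l := by
  classical
  have hVE : V ≤ E := by rw [hE]; exact le_sup_left
  have hxE : x ∈ E := by
    rw [hE]
    exact (le_sup_right : _ ≤ V ⊔ IntermediateField.adjoin k {x, y})
      (IntermediateField.subset_adjoin k _ (Or.inl rfl))
  have hyE : y ∈ E := by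
    rw [hE]
    exact (le_sup_right : _ ≤ V ⊔ IntermediateField.adjoin k {x, y})
      (IntermediateField.subset_adjoin k _ (Or.inr rfl))
  have htY : t ∈ Y := by
    rw [hY]; exact IntermediateField.subset_adjoin k _ (Or.inl rfl)
  have hy₀Y : y₀ ∈ Y := by
    rw [hY]; exact IntermediateField.subset_adjoin k _ (Or.inr rfl)
  have hfg : ∀ u v : Ω, Fin' (IntermediateField.adjoin k {u, v}) := fun u v => by
    rw [Fin', IntermediateField.essFiniteType_iff]
    exact ⟨{u, v}, by rw [Finset.coe_pair]⟩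
  have hYf : Fin' Y := by rw [hY]; exact hfg _ _
  have hEf : Fin' E := by rw [hE]; exact fin_sup hV (hfg _ _)
  set W : IntermediateField k Ω := V ⊔ Y with hW
  set X : IntermediateField k Ω := E ⊔ Y with hX
  set N : IntermediateField k Ω := Q ⊔ X with hN
  have hWf : Fin' W := fin_sup hV hYf
  have hXf : Fin' X := fin_sup hEf hYf
  have hNf : Fin' N := fin_sup hQ hXf
  have hWX : W ≤ X := sup_le_sup_right hVE Y
  have hWQ : W ≤ Q := hG.le
  have hGN : Gal X N := hG.base X hWX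
  haveI f1 : Fact (W ≤ X) := ⟨hWX⟩
  haveI f2 : Fact (W ≤ Q) := ⟨hWQ⟩
  haveI f3 : Fact (X ≤ N) := ⟨le_sup_right⟩
  haveI f4 : Fact (Q ≤ N) := ⟨le_sup_left⟩
  haveI f5 : Fact (W ≤ N) := ⟨hWQ.trans le_sup_left⟩
  haveI f6 : Fact (V ≤ W) := ⟨le_sup_left⟩
  haveI f7 : Fact (Y ≤ W) := ⟨le_sup_right⟩
  haveI : Algebra.EssFiniteType k V := hV
  haveI : Algebra.EssFiniteType k Y := hYf
  haveI : Algebra.EssFiniteType k Q := hQ
  haveI : Algebra.EssFiniteType k W := hWf
  haveI : Algebra.EssFiniteType k X := hXf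
  haveI : Algebra.EssFiniteType k N := hNf
  haveI : CharZero Q := charZero_of_injective_algebraMap (algebraMap k Q).injective
  obtain ⟨i1, i2⟩ := hGN.finite hNf
  obtain ⟨i3, i4⟩ := hG.finite hQ
  have hiV : Indep V Y := hi.mono_left hEf hYf hVE
  -- the forms on `W`
  obtain ⟨zV, hzV⟩ := exists_tb k V
  obtain ⟨mV, hmV, rV, hrV, hrV0, -, -, -⟩ := h0.exists_coord hzV
  set t' : Y := ⟨t, htY⟩ with ht'
  set y' : Y := ⟨y₀, hy₀Y⟩ with hy'
  have htr : Transcendental k t' := fun h => ht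
    ((isAlgebraic_algebraMap_iff (R := k) (A := Ω) (S := Y) (algebraMap Y Ω).injective).2 h)
  have hy'0 : y' ≠ 0 := by
    intro h1
    have h2 : t' ^ 5 - 1 = 0 := by
      have h3 : y' ^ 2 = t' ^ 5 - 1 := Subtype.ext hty
      rw [← h3, h1, zero_pow two_ne_zero]
    refine htr ⟨Polynomial.X ^ 5 - 1, fun h5 => ?_, by simpa using h2⟩
    have h6 := congrArg Polynomial.natDegree h5
    rw [← Polynomial.C_1, Polynomial.natDegree_X_pow_sub_C, Polynomial.natDegree_zero] at h6
    omega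
  have hYdim : dimension k Y = 1 := by
    have h1 := dim_gens (k := k) (m := 1) (x := fun _ => t) (y := fun _ => y₀) (fun _ => hty)
      (algebraicIndependent_unique_type_iff.2 ht)
    rw [← range_one] at h1
    rw [hY]
    exact h1
  have hzY : IsTranscendenceBasis k (fun _ : Fin 1 => t') :=
    isTranscendenceBasis_of_card (by rw [Fintype.card_fin, hYdim])
      (algebraicIndependent_unique_type_iff.2 htr)
  have halgW : ∀ u : W, IsAlgebraic (Algebra.adjoin k
      (Set.range (algebraMap V W) ∪ Set.range (algebraMap Y W))) u :=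
    alg_sup fun v hv => alg_of_mem hv
  obtain ⟨m', rfl⟩ : ∃ m', mV = m' + 1 := ⟨mV - 1, by omega⟩
  obtain ⟨hg1, hg2⟩ := curve_forms (k := k) (t := t') hy'0 (Subtype.ext hty) m'
  have hr1 := wreg_mul (N := W) (Eq.symm hiV) halgW hzV hzY hrV hg1
  have hr2 := wreg_mul (N := W) (Eq.symm hiV) halgW hzV hzY hrV hg2
  have hz := sumElim_tb (B := V) (F := Y) (L := W) (Eq.symm hiV) halgW hzV hzY
  set z : Fin (dimension k V) ⊕ Fin 1 → W := Sum.elim (fun i => algebraMap V W (zV i))
    (fun _ => algebraMap Y W t') with hzdef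
  set r₀ : W := algebraMap V W rV * algebraMap Y W (y'⁻¹ ^ (m' + 1)) with hr₀
  have hr₀0 : r₀ ≠ 0 := mul_ne_zero ((map_ne_zero _).2 hrV0)
    ((map_ne_zero _).2 (pow_ne_zero _ (inv_ne_zero hy'0)))
  have hr2' : algebraMap Y W t' * r₀ ∈ WReg k z (m' + 1) := by
    have h1 : algebraMap Y W t' * r₀ =
        algebraMap V W rV * algebraMap Y W (t' * y'⁻¹ ^ (m' + 1)) := by
      rw [hr₀, map_mul]; ring
    rw [h1]
    exact hr2
  -- the elements
  set aW : W := ⟨a, (le_sup_left : V ≤ V ⊔ Y) haV⟩ with haW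
  set bW : W := ⟨b, (le_sup_left : V ≤ V ⊔ Y) hbV⟩ with hbW
  set xX : X := ⟨x, (le_sup_left : E ≤ E ⊔ Y) hxE⟩ with hxX
  set yX : X := ⟨y, (le_sup_left : E ≤ E ⊔ Y) hyE⟩ with hyX
  have hzx : IsTranscendenceBasis k (Sum.elim (fun i => algebraMap W N (z i))
      (fun _ : Unit => algebraMap X N xX)) := by
    haveI g1 : Fact (V ≤ E) := ⟨hVE⟩
    haveI g2 : Fact (V ≤ X) := ⟨hVE.trans le_sup_left⟩
    haveI g3 : Fact (E ≤ X) := ⟨le_sup_left⟩
    haveI : Algebra.EssFiniteType k E := hEf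
    haveI : Algebra.EssFiniteType V X := Algebra.EssFiniteType.of_comp k V X
    haveI : Algebra.IsAlgebraic X N := isAlg_iff.2 hGN.alg
    have h1 := tb_xO (V := V) (E := E) haV hbV hx heq hE hxE
    have h2 : dimension V W + dimension V E = dimension V X := by
      have e1 := dim_add (A := V) (B := W) hWf
      have e2 := dim_add (A := V) (B := E) hEf
      have e3 := dim_add (A := V) (B := X) hXf
      have e4 : dimension k X = dimension k E + dimension k Y := hi
      have e5 : dimension k W = dimension k V + dimension k Y := hiV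
      omega
    have h3 := Up.tb_over (k := V) (κ := W) (Y := E) (L := X) h2 (fun u => by
      refine alg_adjoin_up (k := k) (alg_sup (A := W) (B := E) (Q := X) (fun v hv => ?_) u)
      exact alg_of_mem ((sup_le le_sup_right (le_sup_right.trans le_sup_left) :
        E ⊔ Y ≤ W ⊔ E) hv)) h1
    have h4 := h3.algebraMap_comp (A := N)
    have h5 := hz.sumElim_comp h4
    have h6 := (isTranscendenceBasis_equiv (Equiv.sumComm _ _)).mpr h5
    have h7 : (Sum.elim ((algebraMap X N) ∘ fun _ : Unit => algebraMap E X ⟨x, hxE⟩)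
        (algebraMap W N ∘ z)) ∘ (Equiv.sumComm (Fin (dimension k V) ⊕ Fin 1) Unit) =
        Sum.elim (fun i => algebraMap W N (z i)) (fun _ : Unit => algebraMap X N xX) := by
      funext i
      rcases i with i | i <;> rfl
    rw [← h7]
    exact h6
  have halg : ∀ g : N, IsAlgebraic (IntermediateField.adjoin Q {algebraMap X N xX}) g := by
    have hxN : x ∈ N := (le_sup_right : X ≤ Q ⊔ X) ((le_sup_left : E ≤ E ⊔ Y) hxE)
    have hyN : y ∈ N := (le_sup_right : X ≤ Q ⊔ X) ((le_sup_left : E ≤ E ⊔ Y) hyE)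
    have hle : N ≤ Q ⊔ IntermediateField.adjoin k {x, y} := by
      refine sup_le le_sup_left (sup_le ?_ ((le_sup_right.trans hWQ).trans le_sup_left))
      rw [hE]
      exact sup_le_sup_right ((le_sup_left : V ≤ V ⊔ Y).trans hWQ) _
    exact alg_gen (a := algebraMap W Q aW) (b := algebraMap W Q bW) (Subtype.ext heq)
      (mem_adjoin_of_le hxN hyN hle)
  refine down (W := W) (X := X) (Q := Q) (N := N) hz (a := aW) (b := bW)
    (c := algebraMap Y W t') (fun h => hΔ (congrArg Subtype.val h))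
    (fun h => hT' (congrArg Subtype.val h)) (fun h => hT'' (congrArg Subtype.val h))
    (x := xX) (y := yX) (Subtype.ext heq) hzx halg ?_ (m₀ := m' + 1) (by omega) hr₀0 hr1 hr2' hl
  -- the ramification
  intro w hw hns
  have hn : ∀ n : ℕ, n ≠ 0 → w (n : N) = 1 := fun n hn => by
    have h1 := hw.const (n : k) (Nat.cast_ne_zero.2 hn)
    rwa [map_natCast] at h1
  refine unr_of_not_small (X := X) (Q := Q) (N := N) (e := fun i => ⟨e i, heQ i⟩)
    (s := fun i => ⟨s i, hsQ i⟩) (τ := ⟨τ, hτQ⟩) ?_ (fun h => hΔ (congrArg Subtype.val h))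
    (Subtype.ext heq) hn (Subtype.ext hτ) (fun σ => ?_) (fun σ h1 h2 h3 => ?_) hns
  · exact ⟨Subtype.ext hr.sum, Subtype.ext hr.a_eq, Subtype.ext hr.b_eq, Subtype.ext hr.s0,
      Subtype.ext hr.s1, Subtype.ext hr.s2⟩
  · refine ⟨σ.commutes _, σ.commutes _, ?_, ?_, ?_⟩
    · exact σ.commutes (algebraMap W X aW)
    · exact σ.commutes (algebraMap W X bW)
    · exact σ.commutes (algebraMap W X (algebraMap Y W t'))
  · obtain ⟨σ', hσX, hσ⟩ := hGN.exists_ext hNf σ
    have hσQ : Fixes σ' Q := by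
      refine hfix σ' (hσX.mono hWX) (fun i => ?_) (fun i => ?_) ?_
      · have h4 := hσ (algebraMap Q N ⟨e i, heQ i⟩)
        rw [h1 i] at h4
        exact h4
      · have h4 := hσ (algebraMap Q N ⟨s i, hsQ i⟩)
        rw [h2 i] at h4
        exact h4
      · have h4 := hσ (algebraMap Q N ⟨τ, hτQ⟩)
        rw [h3] at h4
        exact h4
    have h5 : Fixes σ' N := hσQ.sup79 hσX
    ext u
    have h6 := hσ u
    rw [h5 u u.2] at h6
    exact h6.symm

end Pf72953.Et
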