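import Mathlib
import Pool.Agent.Lib.Pf72953i.Inert
import Pool.Agent.Lib.Pf72953j.Ext
import Pool.Agent.Lib.Pf72953j.Ram

/-!
Elliptic fibre spaces: the Galois extension generated by the roots, the square roots of their differences and `τ`.
-/

set_option autoImplicit false
set_option linter.style.haveILetI false

open scoped WithZero
open Pf72953 Pf72953.Tow

namespace Pf72953.Et

section gal

variable {k Ω : Type*} [Field k] [Field Ω] [Algebra k Ω]

theorem gal_adjoin {F : IntermediateField k Ω} {S : Set Ω} (halg : ∀ x ∈ S, IsAlgebraic F x)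
    (hst : ∀ σ : Ω ≃ₐ[k] Ω, Fixes σ F → ∀ x ∈ S, σ x ∈ F ⊔ IntermediateField.adjoin k S) :
    Gal F (F ⊔ IntermediateField.adjoin k S) := by
  refine ⟨le_sup_left, alg_iff.2 (sup_le le_cl ?_), fun σ hσ => ?_⟩
  · rw [IntermediateField.adjoin_le_iff]
    exact fun x hx => mem_cl.2 (halg x hx)
  · intro x hx
    have h1 : (F ⊔ IntermediateField.adjoin k S).map (σ : Ω →ₐ[k] Ω) ≤
        F ⊔ IntermediateField.adjoin k S := by
      rw [IntermediateField.map_sup]
      refine sup_le (hσ.stab.map_le.trans le_sup_left) ?_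
      rw [IntermediateField.adjoin_map, IntermediateField.adjoin_le_iff]
      rintro _ ⟨y, hy, rfl⟩
      exact hst σ hσ y hy
    exact h1 ⟨x, hx, rfl⟩

theorem fin_adjoin {S : Set Ω} (hS : S.Finite) : Fin' (IntermediateField.adjoin k S) := by
  rw [Fin', IntermediateField.essFiniteType_iff]
  exact IntermediateField.fg_adjoin_of_finite hS

theorem fixes_adjoin {σ : Ω ≃ₐ[k] Ω} {S : Set Ω} (h : ∀ x ∈ S, σ x = x) :
    Fixes σ (IntermediateField.adjoin k S) := by
  rw [fixes_iff79, IntermediateField.adjoin_le_iff]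
  exact h

/-- existence of the roots and of the square roots -/
theorem exists_roots [IsAlgClosed Ω] [CharZero Ω] (a b : Ω) : ∃ e s : Fin 3 → Ω, Roots a b e s := by
  obtain ⟨e0, he0⟩ : ∃ z : Ω, z ^ 3 + a * z + b = 0 := by
    set p : Polynomial Ω := Polynomial.X ^ 3 + Polynomial.C a * Polynomial.X + Polynomial.C b with hp
    have hd : p.degree = 3 := by
      rw [hp]
      compute_degree!
    obtain ⟨z, hz⟩ := IsAlgClosed.exists_root p (by rw [hd]; decide)
    refine ⟨z, ?_⟩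
    rw [Polynomial.IsRoot.def, hp] at hz
    simpa using hz
  obtain ⟨r, hr⟩ := IsAlgClosed.exists_pow_nat_eq (e0 ^ 2 - 4 * (e0 ^ 2 + a)) (n := 2) (by norm_num)
  have h2 : (2 : Ω) ≠ 0 := two_ne_zero
  obtain ⟨e1, he1⟩ : ∃ z : Ω, z ^ 2 + e0 * z + (e0 ^ 2 + a) = 0 := by
    refine ⟨(-e0 + r) / 2, ?_⟩
    field_simp
    linear_combination hr
  obtain ⟨s0, hs0⟩ := IsAlgClosed.exists_pow_nat_eq (e1 - (-e0 - e1)) (n := 2) (by norm_num)
  obtain ⟨s1, hs1⟩ := IsAlgClosed.exists_pow_nat_eq (e0 - (-e0 - e1)) (n := 2) (by norm_num)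
  obtain ⟨s2, hs2⟩ := IsAlgClosed.exists_pow_nat_eq (e0 - e1) (n := 2) (by norm_num)
  refine ⟨![e0, e1, -e0 - e1], ![s0, s1, s2], ⟨?_, ?_, ?_, ?_, ?_, ?_⟩⟩ <;>
    simp only [Matrix.cons_val_zero, Matrix.cons_val_one, Matrix.cons_val]
  · ring
  · linear_combination he1
  · linear_combination he0 - e0 * he1
  · exact hs0
  · exact hs1
  · exact hs2

/-- the conjugates of the square roots -/
theorem mem_of_sq [IsAlgClosed k] {P : IntermediateField k Ω} {a b : Ω} {e s : Fin 3 → Ω}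
    (h : Roots a b e s) (hs : ∀ i, s i ∈ P) {z : Ω} {p q : Fin 3} (hz : z ^ 2 = e p - e q) : z ∈ P := by
  obtain ⟨ι, hι⟩ := IsAlgClosed.exists_pow_nat_eq (-1 : k) (n := 2) (by norm_num)
  have hmem : ∀ m, z ^ 2 = s m ^ 2 → z ∈ P := by
    intro m hm
    rcases sq_eq_sq_iff_eq_or_eq_neg.mp hm with h1 | h1
    · rw [h1]; exact hs m
    · rw [h1]; exact P.neg_mem (hs m)
  have hmem' : ∀ m, z ^ 2 = -s m ^ 2 → z ∈ P := by
    intro m hm
    have h2 : z ^ 2 = (algebraMap k Ω ι * s m) ^ 2 := by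
      rw [mul_pow, ← map_pow, hι, map_neg, map_one, neg_one_mul, hm]
    have h3 : algebraMap k Ω ι * s m ∈ P := P.mul_mem (P.algebraMap_mem ι) (hs m)
    rcases sq_eq_sq_iff_eq_or_eq_neg.mp h2 with h1 | h1
    · rw [h1]; exact h3
    · rw [h1]; exact P.neg_mem h3
  have hz0 : z ^ 2 = 0 → z ∈ P := fun h0 => by
    rw [pow_eq_zero_iff (by norm_num)] at h0
    rw [h0]; exact P.zero_mem
  fin_cases p <;> fin_cases q
  · exact hz0 (by rw [hz, sub_self])
  · exact hmem 2 (by rw [hz, h.s2]; rfl)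
  · exact hmem 1 (by rw [hz, h.s1]; rfl)
  · exact hmem' 2 (by rw [hz, h.s2, neg_sub]; rfl)
  · exact hz0 (by rw [hz, sub_self])
  · exact hmem 0 (by rw [hz, h.s0]; rfl)
  · exact hmem' 1 (by rw [hz, h.s1, neg_sub]; rfl)
  · exact hmem' 0 (by rw [hz, h.s0, neg_sub]; rfl)
  · exact hz0 (by rw [hz, sub_self])

/-- the extension generated by the roots and the square roots -/
theorem gal_roots [IsAlgClosed k] [CharZero Ω] {V : IntermediateField k Ω} {a b : Ω} (ha : a ∈ V)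
    (hb : b ∈ V) {e s : Fin 3 → Ω} (h : Roots a b e s) :
    Gal V (V ⊔ IntermediateField.adjoin k (Set.range e ∪ Set.range s)) := by
  set P := V ⊔ IntermediateField.adjoin k (Set.range e ∪ Set.range s) with hP
  have heP : ∀ i, e i ∈ P := fun i =>
    (le_sup_right : _ ≤ P) (IntermediateField.subset_adjoin _ _ (Or.inl ⟨i, rfl⟩))
  have hsP : ∀ i, s i ∈ P := fun i =>
    (le_sup_right : _ ≤ P) (IntermediateField.subset_adjoin _ _ (Or.inr ⟨i, rfl⟩))
  have halg : ∀ i, e i ∈ cl V := by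
    intro i
    rw [mem_cl]
    refine ⟨Polynomial.X ^ 3 + Polynomial.C (⟨a, ha⟩ : V) * Polynomial.X +
      Polynomial.C (⟨b, hb⟩ : V), ?_, ?_⟩
    · intro h0
      have h1 := congrArg (fun p => Polynomial.coeff p 3) h0
      simp [Polynomial.coeff_X, Polynomial.coeff_C] at h1
    · simp only [map_add, map_mul, map_pow, Polynomial.aeval_X, Polynomial.aeval_C]
      exact root_eq h i
  refine gal_adjoin ?_ ?_
  · rintro _ (⟨i, rfl⟩ | ⟨i, rfl⟩)
    · exact mem_cl.1 (halg i)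
    · refine IsAlgebraic.of_pow (n := 2) (by norm_num) (mem_cl.1 ?_)
      fin_cases i
      · simp only [Fin.zero_eta]; rw [h.s0]; exact (cl V).sub_mem (halg _) (halg _)
      · simp only [Fin.mk_one]; rw [h.s1]; exact (cl V).sub_mem (halg _) (halg _)
      · simp only [Fin.reduceFinMk]; rw [h.s2]; exact (cl V).sub_mem (halg _) (halg _)
  · rw [← hP]
    intro σ hσ
    have hperm : ∀ i, ∃ j, σ (e i) = e j := fun i =>
      perm_root (X := k) (Q := Ω) (N := Ω) h σ (hσ a ha) (hσ b hb) i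
    rintro _ (⟨i, rfl⟩ | ⟨i, rfl⟩)
    · obtain ⟨j, hj⟩ := hperm i
      rw [hj]; exact heP j
    · have hpq : ∃ p q, σ (s i) ^ 2 = e p - e q := by
        rw [← map_pow]
        fin_cases i
        · simp only [Fin.zero_eta]
          obtain ⟨p, hp⟩ := hperm 1
          obtain ⟨q, hq⟩ := hperm 2
          exact ⟨p, q, by rw [h.s0, map_sub, hp, hq]⟩
        · simp only [Fin.mk_one]
          obtain ⟨p, hp⟩ := hperm 0
          obtain ⟨q, hq⟩ := hperm 2
          exact ⟨p, q, by rw [h.s1, map_sub, hp, hq]⟩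
        · simp only [Fin.reduceFinMk]
          obtain ⟨p, hp⟩ := hperm 0
          obtain ⟨q, hq⟩ := hperm 1
          exact ⟨p, q, by rw [h.s2, map_sub, hp, hq]⟩
      obtain ⟨p, q, hpq⟩ := hpq
      exact mem_of_sq h hsP hpq

/-- A1: the field generated over `F` by the roots, the square roots and `τ` -/
theorem exists_Q [CharZero k] [IsAlgClosed k] [IsAlgClosed Ω]
    {V F : IntermediateField k Ω} (hVF : V ≤ F) (hF : Fin' F) {a b c : Ω}
    (ha : a ∈ V) (hb : b ∈ V) (hc : c ∈ F) (hV : Fin' V)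
    (h2 : (c + 1) * a ^ 3 + b ^ 2 ≠ 0) :
    ∃ (e s : Fin 3 → Ω) (τ : Ω), Roots a b e s ∧ τ ^ 2 * ((c + 1) * a ^ 3 + b ^ 2) = c * a ^ 3 + b ^ 2 ∧
      ∃ P Q : IntermediateField k Ω, Fin' P ∧ Fin' Q ∧ Gal V P ∧ Gal F Q ∧ P ≤ Q ∧ (∀ i, e i ∈ P) ∧
        (∀ i, s i ∈ P) ∧ τ ∈ Q ∧ ∀ σ : Ω ≃ₐ[k] Ω, Fixes σ F → (∀ i, σ (e i) = e i) →
          (∀ i, σ (s i) = s i) → σ τ = τ → Fixes σ Q := by
  haveI : CharZero Ω := charZero_of_injective_algebraMap (algebraMap k Ω).injective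
  obtain ⟨e, s, h⟩ := exists_roots a b
  obtain ⟨τ, hτ⟩ := IsAlgClosed.exists_pow_nat_eq ((c * a ^ 3 + b ^ 2) / ((c + 1) * a ^ 3 + b ^ 2))
    (n := 2) (by norm_num)
  have hτ' : τ ^ 2 * ((c + 1) * a ^ 3 + b ^ 2) = c * a ^ 3 + b ^ 2 := by
    rw [hτ, div_mul_cancel₀ _ h2]
  set P := V ⊔ IntermediateField.adjoin k (Set.range e ∪ Set.range s) with hP
  have hVP : Gal V P := gal_roots ha hb h
  have heP : ∀ i, e i ∈ P := fun i =>
    (le_sup_right : _ ≤ P) (IntermediateField.subset_adjoin _ _ (Or.inl ⟨i, rfl⟩))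
  have hsP : ∀ i, s i ∈ P := fun i =>
    (le_sup_right : _ ≤ P) (IntermediateField.subset_adjoin _ _ (Or.inr ⟨i, rfl⟩))
  have hadj : Fin' (IntermediateField.adjoin k (Set.range e ∪ Set.range s)) :=
    fin_adjoin ((Set.finite_range e).union (Set.finite_range s))
  have hPfin : Fin' P := fin_sup hV hadj
  have haF := hVF ha
  have hbF := hVF hb
  have hq : (c * a ^ 3 + b ^ 2) / ((c + 1) * a ^ 3 + b ^ 2) ∈ F :=
    F.div_mem (F.add_mem (F.mul_mem hc (pow_mem haF 3)) (pow_mem hbF 2))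
      (F.add_mem (F.mul_mem (F.add_mem hc F.one_mem) (pow_mem haF 3)) (pow_mem hbF 2))
  have hGτ : Gal F (F ⊔ IntermediateField.adjoin k {τ}) := by
    refine gal_adjoin ?_ ?_
    · intro z hz
      rw [Set.mem_singleton_iff] at hz
      rw [hz]
      exact IsAlgebraic.of_pow (n := 2) (by norm_num) (alg_of_mem (hτ ▸ hq))
    · intro σ hσ z hz
      rw [Set.mem_singleton_iff] at hz
      rw [hz]
      have h1 : σ τ ^ 2 = τ ^ 2 := by
        rw [← map_pow, hτ]; exact hσ _ hq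
      have hm : τ ∈ F ⊔ IntermediateField.adjoin k {τ} :=
        (le_sup_right : _ ≤ F ⊔ IntermediateField.adjoin k {τ})
          (IntermediateField.subset_adjoin _ _ rfl)
      rcases sq_eq_sq_iff_eq_or_eq_neg.mp h1 with h2 | h2
      · rw [h2]; exact hm
      · rw [h2]; exact neg_mem hm
  refine ⟨e, s, τ, h, hτ', P, (P ⊔ F) ⊔ (F ⊔ IntermediateField.adjoin k {τ}), hPfin,
    fin_sup (fin_sup hPfin hF) (fin_sup hF (fin_adjoin (Set.finite_singleton τ))), hVP,
    (hVP.base F hVF).sup hGτ, le_sup_left.trans le_sup_left, heP, hsP,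
    (le_sup_right.trans le_sup_right : IntermediateField.adjoin k {τ} ≤ _)
      (IntermediateField.subset_adjoin _ _ rfl), ?_⟩
  intro σ hσF hσe hσs hστ
  have hσP : Fixes σ P := by
    refine (hσF.mono hVF).sup79 (fixes_adjoin ?_)
    rintro _ (⟨i, rfl⟩ | ⟨i, rfl⟩)
    · exact hσe i
    · exact hσs i
  refine (hσP.sup79 hσF).sup79 (hσF.sup79 (fixes_adjoin ?_))
  intro z hz
  rw [Set.mem_singleton_iff] at hz
  rw [hz]
  exact hστ

end gal

end Pf72953.Et
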