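import Mathlib
import Pool.Agent.Lib.Pf72953i.Inert

/-!
Elliptic fibre spaces without a section: the inertia group at a valuation at which the logarithmic norm does not vanish.
-/

set_option autoImplicit false

open scoped WithZero
open Pf72953

namespace Pf72953.Et

section iner

variable {X Q N : Type*} [Field X] [Field Q] [CharZero Q] [Field N] [Algebra X N] [Algebra Q N]

/-- an inertial automorphism is not the translation by a point of order two -/
theorem not_translation {a b : Q} {e s : Fin 3 → Q} (h : Roots a b e s) {w : Valuation N ℤᵐ⁰}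
    (hn : ∀ n : ℕ, n ≠ 0 → w (n : N) = 1)
    {g : ℤᵐ⁰} (hg : g ≠ 0) (hs : ∀ i, w (algebraMap Q N (s i)) = g) (D : Derivation Q N N) {x : N}
    (hx : D x = 1) (hxv : w x ≤ g ^ 2) (he : ∀ j, w (algebraMap Q N (e j)) ≤ g ^ 2)
    (hρ : ∀ z, w (D z) * g ^ 2 ≤ w z)
    (σ : N ≃ₐ[X] N) (ha : σ (algebraMap Q N a) = algebraMap Q N a)
    (hb : σ (algebraMap Q N b) = algebraMap Q N b)
    (hin : ∀ z, w z ≤ 1 → w (σ z - z) < 1) {j : Fin 3} {C : Q}
    (htr : (x - algebraMap Q N (e j)) * (σ x - algebraMap Q N (e j)) = algebraMap Q N C) : False := by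
  have hg2 : 0 < g ^ 2 := pow_pos (zero_lt_iff.mpr hg) 2
  have h2 : w (2 : N) = 1 := by simpa using hn 2 (by norm_num)
  obtain ⟨p, hp⟩ := perm_root h σ ha hb 0
  obtain ⟨q, hq⟩ := perm_root h σ ha hb 1
  set E : Fin 3 → N := fun j => algebraMap Q N (e j) with hE
  have hEE : ∀ j, algebraMap Q N (e j) = E j := fun j => rfl
  rw [hEE, hEE] at hp hq
  rw [hEE] at htr
  have h01 : w (E 0 - E 1) = g ^ 2 := val_diff h hs (by decide)
  have h01' : E 0 - E 1 ≠ 0 := by
    intro h0; rw [h0, map_zero] at h01; exact hg2.ne h01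
  have hpq : p ≠ q := by
    intro h0
    rw [← h0] at hq
    exact h01' (sub_eq_zero.mpr (σ.injective (hp.trans hq.symm)))
  have hδ : w (E p - E q) = g ^ 2 := val_diff h hs hpq
  have hδ0 : E p - E q ≠ 0 := by
    intro h0; rw [h0, map_zero] at hδ; exact hg2.ne hδ
  have hxu : w (x / (E 0 - E 1)) ≤ 1 := by
    rw [map_div₀, h01]
    exact div_le_one_of_le₀ hxv zero_le
  have herr := hin _ hxu
  -- `σ x = κ x + δ`
  set κ : Q := (e p - e q) / (e 0 - e 1) with hκ
  have hκN : algebraMap Q N κ = (E p - E q) / (E 0 - E 1) := by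
    rw [hκ, map_div₀, map_sub, map_sub]
  have hδx : w (σ x - algebraMap Q N κ * x) < g ^ 2 := by
    have h5 : σ (x / (E 0 - E 1)) - x / (E 0 - E 1) =
        (σ x - algebraMap Q N κ * x) / (E p - E q) := by
      rw [map_div₀, map_sub, hp, hq, hκN]
      field_simp
    rw [h5, map_div₀, hδ, div_lt_one₀ hg2] at herr
    exact herr
  have hxe : w (x - E j) ≤ g ^ 2 := (w.map_sub _ _).trans (max_le hxv (he j))
  -- the quadratic polynomial
  have hlt : w (algebraMap Q N κ * x ^ 2 + algebraMap Q N (-(κ + 1) * e j) * x +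
      algebraMap Q N (e j ^ 2 - C)) < g ^ 4 := by
    have h5 : algebraMap Q N κ * x ^ 2 + algebraMap Q N (-(κ + 1) * e j) * x +
        algebraMap Q N (e j ^ 2 - C) =
        -((x - E j) * (σ x - algebraMap Q N κ * x)) := by
      have h6 : algebraMap Q N (-(κ + 1) * e j) = -(algebraMap Q N κ + 1) * E j := by
        rw [map_mul, map_neg, map_add, map_one]
      have h7 : algebraMap Q N (e j ^ 2 - C) = E j ^ 2 - algebraMap Q N C := by
        rw [map_sub, map_pow]
      rw [h6, h7, ← htr]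
      ring
    rw [h5, Valuation.map_neg, map_mul]
    calc w (x - E j) * w (σ x - algebraMap Q N κ * x)
        ≤ g ^ 2 * w (σ x - algebraMap Q N κ * x) := mul_le_mul' hxe le_rfl
      _ < g ^ 2 * g ^ 2 := mul_lt_mul_of_pos_left hδx hg2
      _ = g ^ 4 := by rw [← pow_add]
  -- two derivatives
  have hD2 : D (D (algebraMap Q N κ * x ^ 2 + algebraMap Q N (-(κ + 1) * e j) * x +
      algebraMap Q N (e j ^ 2 - C))) = 2 * algebraMap Q N κ := by
    have e1 : D (algebraMap Q N κ * x ^ 2 + algebraMap Q N (-(κ + 1) * e j) * x +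
        algebraMap Q N (e j ^ 2 - C)) =
        algebraMap Q N (2 * κ) * x + algebraMap Q N (-(κ + 1) * e j) := by
      rw [map_add, map_add, D.leibniz, D.leibniz, pow_two, D.leibniz, D.map_algebraMap,
        D.map_algebraMap, D.map_algebraMap, hx]
      simp only [smul_eq_mul, map_mul, map_ofNat]
      ring
    rw [e1, map_add, D.leibniz, D.map_algebraMap, D.map_algebraMap, hx, smul_zero, add_zero,
      add_zero, smul_eq_mul, mul_one, map_mul, map_ofNat]
  have hκ1 : w (algebraMap Q N κ) = 1 := by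
    rw [hκN, map_div₀, hδ, h01, div_self hg2.ne']
  have hfin : g ^ 4 ≤ w (algebraMap Q N κ * x ^ 2 + algebraMap Q N (-(κ + 1) * e j) * x +
      algebraMap Q N (e j ^ 2 - C)) := by
    set F := algebraMap Q N κ * x ^ 2 + algebraMap Q N (-(κ + 1) * e j) * x +
      algebraMap Q N (e j ^ 2 - C) with hF
    calc g ^ 4 = w (D (D F)) * g ^ 2 * g ^ 2 := by
          rw [hD2, map_mul, h2, hκ1, one_mul, one_mul, ← pow_add]
      _ ≤ w (D F) * g ^ 2 := mul_le_mul' (hρ _) le_rfl
      _ ≤ w F := hρ _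
  exact absurd hlt (not_lt.mpr hfin)

/-- the inertia lemma for fibre spaces with a section after an extension -/
theorem unr_of_not_small2 [FiniteDimensional X N] [IsGalois X N]
    {a b c : Q} {e s : Fin 3 → Q} (h : Roots a b e s) (hΔ : 4 * a ^ 3 + 27 * b ^ 2 ≠ 0)
    {x y : N} (heq : y ^ 2 = x ^ 3 + algebraMap Q N a * x + algebraMap Q N b)
    {w : Valuation N ℤᵐ⁰} (hn : ∀ n : ℕ, n ≠ 0 → w (n : N) = 1)
    {τ : Q} (hτ : τ ^ 2 * ((c + 1) * a ^ 3 + b ^ 2) = c * a ^ 3 + b ^ 2)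
    (hσ : ∀ σ : N ≃ₐ[X] N, ((σ x = x ∧ σ y = y) ∨ ∃ (j : Fin 3) (C : Q),
      (x - algebraMap Q N (e j)) * (σ x - algebraMap Q N (e j)) = algebraMap Q N C) ∧
      σ (algebraMap Q N a) = algebraMap Q N a ∧ σ (algebraMap Q N b) = algebraMap Q N b ∧
      σ (algebraMap Q N c) = algebraMap Q N c)
    (hgen : ∀ σ : N ≃ₐ[X] N, σ x = x → σ y = y →
      (∀ i, σ (algebraMap Q N (e i)) = algebraMap Q N (e i)) →
      (∀ i, σ (algebraMap Q N (s i)) = algebraMap Q N (s i)) →
      σ (algebraMap Q N τ) = algebraMap Q N τ → σ = 1)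
    (hsm : ¬ LogSmall w a b c x y) : Br.Unr X w := by
  refine Br.unr_of_inertia (fun σ hin => ?_)
  obtain ⟨hx', hσa, hσb, hσc⟩ := hσ σ
  have hsm' := hsm
  rw [LogSmall] at hsm'
  push Not at hsm'
  obtain ⟨D, ρ, hx, hρ, hd0, -, -⟩ := hsm'
  obtain ⟨g, hg, hs, hρg, hyg, hxg, hag, hbg⟩ := scale_eq h hΔ heq hn D hx hρ hd0
  have h3 : w (3 : N) = 1 := by simpa using hn 3 (by norm_num)
  have he : ∀ j, w (algebraMap Q N (e j)) ≤ g ^ 2 := fun j => by
    refine val_e_le h (w.comap (algebraMap Q N)) ?_ (g := g) (fun j => (hs j).le) j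
    rw [Valuation.comap_apply, map_ofNat]; exact h3
  rcases hx' with ⟨hσx, hσy⟩ | ⟨j, C, htr⟩
  · obtain ⟨h1, h2, h3⟩ := inertial_eq_one h hΔ heq hn hτ hsm σ ⟨hσx, hσy, hσa, hσb, hσc⟩ hin
    exact hgen σ hσx hσy h1 h2 h3
  · exact (not_translation h hn hg hs D hx hxg he (fun z => hρg ▸ hρ z) σ hσa hσb hin htr).elim

end iner

end Pf72953.Et
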