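import Mathlib
import Pool.Agent.Lib.Pf72953i.UpO
import Pool.Agent.Lib.Pf72953i.DownO
import Pool.Agent.Lib.Pf72953i.Gal
import Pool.Agent.Lib.Pf72953j.Defs2
import Pool.Agent.Lib.Pf72953j.ProdI
import Pool.Agent.Lib.Pf72953g.Upper

/-!
Elliptic fibre spaces over stable fibre spaces.
-/

set_option autoImplicit false
set_option linter.style.haveILetI false

open scoped WithZero
open Pf72953 Pf72953.Mov Pf72953.Tow

namespace Pf72953.Et

/-- `E → V` is an elliptic fibre space with a section: `E = V(x, y)`, `y² = x³ + a x + b`, `a, b ∈ V` arbitrary,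
`4 a³ + 27 b² ≠ 0`. -/
def IsElliptic {k Ω : Type*} [Field k] [Field Ω] [Algebra k Ω] (V E : IntermediateField k Ω) :
    Prop :=
  ∃ a ∈ V, ∃ b ∈ V, ∃ x y : Ω, 4 * a ^ 3 + 27 * b ^ 2 ≠ 0 ∧ Transcendental V x ∧
    y ^ 2 = x ^ 3 + a * x + b ∧ E = V ⊔ IntermediateField.adjoin k {x, y}

variable {k Ω : Type*} [Field k] [CharZero k] [Field Ω] [Algebra k Ω]

/-- `κ(A × Y) ≤ κ(A) + dim Y` -/
theorem kge_prod_upper [IsAlgClosed k] {A Y : IntermediateField k Ω} (hA : Fin' A) (hY : Fin' Y)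
    (hi : Indep A Y) {c : ℕ} (hc : KodairaGE k (A ⊔ Y : IntermediateField k Ω) c) :
    ∃ a : ℕ, c ≤ a + dimension k Y ∧ KodairaGE k A a := by
  haveI : Algebra.EssFiniteType k A := hA
  haveI : Algebra.EssFiniteType k Y := hY
  haveI : Algebra.EssFiniteType k (A ⊔ Y : IntermediateField k Ω) := fin_sup hA hY
  haveI f1 : Fact (A ≤ A ⊔ Y) := ⟨le_sup_left⟩
  haveI f2 : Fact (Y ≤ A ⊔ Y) := ⟨le_sup_right⟩
  haveI : CharZero A := charZero_of_injective_algebraMap (algebraMap k A).injective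
  haveI : CharZero Y := charZero_of_injective_algebraMap (algebraMap k Y).injective
  obtain ⟨a, b, hab, ha, hb⟩ := Diag.upper (k := k) (B := k) (C := A) (G := Y)
    (N := (A ⊔ Y : IntermediateField k Ω)) (comp_of_indep hi)
    Dq.closedIn_of_isAlgClosed Dq.closedIn_of_isAlgClosed hc
  refine ⟨a, ?_, ha⟩
  have := hb.le_dimension
  omega

omit [CharZero k] in
/-- a curve is independent of a field over which it is transcendental -/
theorem indep_curve {E Y : IntermediateField k Ω} (hE : Fin' E) (hY : Fin' Y)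
    (hd : dimension k Y = 1) {t : Ω} (htY : t ∈ Y) (ht : Transcendental E t) : Indep E Y := by
  haveI f1 : Fact (E ≤ E ⊔ Y) := ⟨le_sup_left⟩
  haveI : Algebra.EssFiniteType k (E ⊔ Y : IntermediateField k Ω) := fin_sup hE hY
  haveI : Algebra.EssFiniteType E (E ⊔ Y : IntermediateField k Ω) :=
    Algebra.EssFiniteType.of_comp k E _
  have h1 := dim_sup_le hE hY
  have h2 := dim_add (A := E) (B := E ⊔ Y) (fin_sup hE hY)
  have h3 : 1 ≤ dimension E (E ⊔ Y : IntermediateField k Ω) := by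
    set t' : (E ⊔ Y : IntermediateField k Ω) := ⟨t, (le_sup_right : Y ≤ E ⊔ Y) htY⟩ with ht'
    have h4 : Transcendental E t' := fun h => ht
      ((isAlgebraic_algebraMap_iff (R := E) (A := Ω) (S := (E ⊔ Y : IntermediateField k Ω))
        (algebraMap (E ⊔ Y : IntermediateField k Ω) Ω).injective).2 h)
    have h5 : AlgebraicIndependent E (fun _ : Fin 1 => t') :=
      algebraicIndependent_unique_type_iff.mpr h4
    have h6 := h5.lift_cardinalMk_le_trdeg
    rw [← trdeg_eq_dimension] at h6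
    simp only [Cardinal.mk_fintype, Fintype.card_fin, Nat.cast_one, Cardinal.lift_one,
      Cardinal.lift_natCast] at h6
    exact_mod_cast h6
  unfold Indep
  omega

/-- **Iitaka's inequality for elliptic fibre spaces over stable fibre spaces.** -/
theorem elliptic_top [IsAlgClosed k] [IsAlgClosed Ω] {B V E : IntermediateField k Ω}
    (hV : Fin' V) (hS : StableC B V) (h0 : KodairaGE k V 0) (hE : IsElliptic V E)
    (hΩ : ∃ t : Ω, Transcendental E t) {b c : ℕ} (hb : KodairaGE k B b) (hc : KGE B E c) :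
    KodairaGE k E (b + c) := by
  classical
  obtain ⟨α, hα, β, hβ, x, y, hΔ, hx, heq, hEq⟩ := hE
  obtain ⟨t, ht⟩ := hΩ
  obtain ⟨y₀, hty⟩ := IsAlgClosed.exists_pow_nat_eq (t ^ 5 - 1) (n := 2) (by norm_num)
  set Y : IntermediateField k Ω := IntermediateField.adjoin k {t, y₀} with hY
  have hfg : ∀ u v : Ω, Fin' (IntermediateField.adjoin k {u, v}) := fun u v => by
    rw [Fin', IntermediateField.essFiniteType_iff]
    exact ⟨{u, v}, by rw [Finset.coe_pair]⟩
  have hYf : Fin' Y := hfg _ _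
  have hEf : Fin' E := by rw [hEq]; exact fin_sup hV (hfg _ _)
  have hVE : V ≤ E := by rw [hEq]; exact le_sup_left
  have htk : Transcendental k t := fun h => ht (h.tower_top (L := E))
  have htY : t ∈ Y := IntermediateField.subset_adjoin k _ (Or.inl rfl)
  have hYC : CurveProd Y := ⟨1, fun _ => t, fun _ => y₀,
    algebraicIndependent_unique_type_iff.2 htk, fun _ => hty, by rw [hY, ← range_one]⟩
  have hYd : dimension k Y = 1 := by
    have h1 := dim_gens (k := k) (m := 1) (x := fun _ => t) (y := fun _ => y₀) (fun _ => hty)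
      (algebraicIndependent_unique_type_iff.2 htk)
    rw [← range_one] at h1
    exact h1
  have hi : Indep E Y := indep_curve hEf hYf hYd htY ht
  have hiV : Indep V Y := hi.mono_left hEf hYf hVE
  have htV : ∀ v : V, t ≠ v := fun v h => ht (by
    rw [h]
    exact alg_of_mem (hVE v.2))
  have hT : ∀ n : ℕ, (t + n) * α ^ 3 + β ^ 2 ≠ 0 := by
    intro n h
    by_cases ha0 : α = 0
    · apply hΔ
      rw [ha0] at h ⊢
      have h1 : β ^ 2 = 0 := by linear_combination h
      rw [h1]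
      ring
    · have h1 : t = -(β ^ 2 / α ^ 3) - n := by
        field_simp
        linear_combination h
      refine htV ⟨-(β ^ 2 / α ^ 3) - n, ?_⟩ h1
      exact sub_mem (neg_mem (div_mem (pow_mem hβ 2) (pow_mem hα 3))) (natCast_mem V n)
  have hT0 : t * α ^ 3 + β ^ 2 ≠ 0 := by simpa using hT 0
  have hT1 : (t + 1) * α ^ 3 + β ^ 2 ≠ 0 := by simpa using hT 1
  obtain ⟨e, s, τ, hr, hτ, P, Q, hP, hQ, hVP, hG, hPQ, heP, hsP, hτQ, hfix⟩ :=
    exists_Q (F := V ⊔ Y) le_sup_left (fin_sup hV hYf) hα hβ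
      ((le_sup_right : Y ≤ V ⊔ Y) htY) hV hT1
  have h1 : KGE (B ⊔ Y) Q c := up hS.1 hV hP hYf hQ hVP.le hVP.alg hG.le hG.alg hPQ hiV
    (hVP.le hα) (hVP.le hβ) heP hsP hr hΔ hx heq hEq htY htk hτQ hτ hT0 hc
  have h2 := hS.2 Y Q hYC hiV hQ hG b c hb h1
  have h3 := downO hV hQ hG hi hα hβ (fun i => hPQ (heP i)) (fun i => hPQ (hsP i)) hr hΔ hx heq
    hEq htk hty hY hτQ hτ hT0 hT1 hfix h0 h2
  obtain ⟨a, ha, h4⟩ := kge_prod_upper hEf hYf hi h3
  exact kge_mono (by omega) h4

end Pf72953.Et
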