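import Mathlib
import Pool.Agent.Lib.Pf72953i.Main
import Pool.Agent.Lib.Pf72953j.Over

/-!
Fibre products of elliptic fibre spaces over `V`, `V → B` stable.
-/

set_option autoImplicit false
set_option linter.style.haveILetI false

open scoped WithZero
open Pf72953 Pf72953.Mov Pf72953.Tow

namespace Pf72953.Et

/-- `E → X` is the pull-back of an elliptic fibre space over `V` with a section: `E = X(x, y)`, `y² = x³ + a x + b`,
`a, b ∈ V` arbitrary, `4 a³ + 27 b² ≠ 0`. -/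
def IsEllipticOver {k Ω : Type*} [Field k] [Field Ω] [Algebra k Ω]
    (V X E : IntermediateField k Ω) : Prop :=
  ∃ a ∈ V, ∃ b ∈ V, ∃ x y : Ω, 4 * a ^ 3 + 27 * b ^ 2 ≠ 0 ∧ Transcendental X x ∧
    y ^ 2 = x ^ 3 + a * x + b ∧ E = X ⊔ IntermediateField.adjoin k {x, y}

variable {k Ω : Type*} [Field k] [CharZero k] [Field Ω] [Algebra k Ω]

omit [CharZero k] in
theorem IsEllipticOver.le {V X E : IntermediateField k Ω} (h : IsEllipticOver V X E) : X ≤ E := by
  obtain ⟨a, ha, b, hb, x, y, hΔ, hx, heq, hEq⟩ := h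
  rw [hEq]
  exact le_sup_left

omit [CharZero k] in
theorem fin_pair (u v : Ω) : Fin' (IntermediateField.adjoin k {u, v}) :=
  fin_adjoin (Set.toFinite _)

omit [CharZero k] in
theorem IsEllipticOver.fin {V X E : IntermediateField k Ω} (h : IsEllipticOver V X E)
    (hX : Fin' X) : Fin' E := by
  obtain ⟨a, ha, b, hb, x, y, hΔ, hx, heq, hEq⟩ := h
  rw [hEq]
  exact fin_sup hX (fin_pair _ _)

/-- Iitaka's inequality for `E → B` and `κ(E) ≥ 0` -/
theorem elliptic_core [IsAlgClosed k] [IsAlgClosed Ω] {B V X E : IntermediateField k Ω}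
    (hX : Fin' X) (hVX : V ≤ X) (h0 : KodairaGE k X 0) (hE : IsEllipticOver V X E)
    (hΩ : ∃ t : Ω, Transcendental E t) :
    KodairaGE k E 0 ∧ (OverC B V X → ∀ b c : ℕ, KodairaGE k B b → KGE B E c →
      KodairaGE k E (b + c)) := by
  classical
  have hEf := hE.fin hX
  obtain ⟨α, hα, β, hβ, x, y, hΔ, hx, heq, hEq⟩ := hE
  obtain ⟨t, ht⟩ := hΩ
  obtain ⟨y₀, hty⟩ := IsAlgClosed.exists_pow_nat_eq (t ^ 5 - 1) (n := 2) (by norm_num)
  set Y : IntermediateField k Ω := IntermediateField.adjoin k {t, y₀} with hY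
  have hYf : Fin' Y := fin_pair _ _
  have hV : Fin' V := fin_le hX hVX
  have hXE : X ≤ E := by rw [hEq]; exact le_sup_left
  have htk : Transcendental k t := fun h => ht (h.tower_top (L := E))
  have htY : t ∈ Y := IntermediateField.subset_adjoin k _ (Or.inl rfl)
  have hYC : CurveProd Y := ⟨1, fun _ => t, fun _ => y₀,
    algebraicIndependent_unique_type_iff.2 htk, fun _ => hty, by rw [hY, ← range_one]⟩
  have hYd : dimension k Y = 1 := by
    have h1 := dim_gens (k := k) (m := 1) (x := fun _ => t) (y := fun _ => y₀) (fun _ => hty)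
      (algebraicIndependent_unique_type_iff.2 htk)
    rw [← range_one] at h1
    exact h1
  have hi : Indep E Y := indep_curve hEf hYf hYd htY ht
  have hiX : Indep X Y := hi.mono_left hEf hYf hXE
  have htV : ∀ v : V, t ≠ v := fun v h => ht (by
    rw [h]
    exact alg_of_mem (hXE (hVX v.2)))
  have hT : ∀ n : ℕ, (t + n) * α ^ 3 + β ^ 2 ≠ 0 := by
    intro n h
    by_cases ha0 : α = 0
    · apply hΔ
      rw [ha0] at h ⊢
      have h1 : β ^ 2 = 0 := by linear_combination h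
      rw [h1]
      ring
    · have h1 : t = -(β ^ 2 / α ^ 3) - n := by
        field_simp
        linear_combination h
      refine htV ⟨-(β ^ 2 / α ^ 3) - n, ?_⟩ h1
      exact sub_mem (neg_mem (div_mem (pow_mem hβ 2) (pow_mem hα 3))) (natCast_mem V n)
  have hT0 : t * α ^ 3 + β ^ 2 ≠ 0 := by simpa using hT 0
  have hT1 : (t + 1) * α ^ 3 + β ^ 2 ≠ 0 := by simpa using hT 1
  obtain ⟨e, s, τ, hr, hτ, P₀, Q₀, hP₀, hQ₀, hVP₀, hG₀, hPQ₀, heP, hsP, hτQ, hfix⟩ :=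
    exists_Q (F := V ⊔ Y) le_sup_left (fin_sup hV hYf) hα hβ
      ((le_sup_right : Y ≤ V ⊔ Y) htY) hV hT1
  have hYQ₀ : Y ≤ Q₀ := le_sup_right.trans hG₀.le
  -- the covers of `X` and of `X·Y`
  set P : IntermediateField k Ω := X ⊔ P₀ with hP
  set Q : IntermediateField k Ω := X ⊔ Q₀ with hQ
  have hPf : Fin' P := fin_sup hX hP₀
  have hQf : Fin' Q := fin_sup hX hQ₀
  have hXP : X ≤ P := le_sup_left
  have hPalg : ∀ u ∈ P, IsAlgebraic X u :=
    alg_iff.2 (sup_le le_cl ((alg_iff.1 hVP₀.alg).trans (cl_mono hVX)))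
  have hPQ : P ≤ Q := sup_le_sup_left hPQ₀ X
  have hG : Gal (X ⊔ Y) Q := by
    have h3 := gal_sup_base hG₀ (sup_le_sup_right hVX Y)
    have h4 : X ⊔ Y ⊔ Q₀ = X ⊔ Q₀ := by rw [sup_assoc, sup_eq_right.2 hYQ₀]
    rwa [h4] at h3
  have heQ : ∀ i, e i ∈ P := fun i => (le_sup_right : P₀ ≤ P) (heP i)
  have hsQ : ∀ i, s i ∈ P := fun i => (le_sup_right : P₀ ≤ P) (hsP i)
  have hτQ' : τ ∈ Q := (le_sup_right : Q₀ ≤ Q) hτQ
  have hfix' : ∀ σ : Ω ≃ₐ[k] Ω, Fixes σ (X ⊔ Y) → (∀ i, σ (e i) = e i) →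
      (∀ i, σ (s i) = s i) → σ τ = τ → Fixes σ Q := by
    intro σ h1 h2 h3 h4
    exact (h1.mono le_sup_left).sup79 (hfix σ (h1.mono (sup_le_sup_right hVX Y)) h2 h3 h4)
  have hdown : ∀ l : ℕ, KodairaGE k Q l → KodairaGE k (E ⊔ Y : IntermediateField k Ω) l :=
    fun l hl => downO hX hQf hG hi (hVX hα) (hVX hβ) (fun i => hPQ (heQ i))
      (fun i => hPQ (hsQ i)) hr hΔ hx heq hEq htk hty hY hτQ' hτ hT0 hT1 hfix' h0 hl
  have hQ0 : KodairaGE k Q 0 := by
    have h2 : KodairaGE k (X ⊔ Y : IntermediateField k Ω) 0 :=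
      kge_prod hX hYf hiX h0 (Diag.ge_zero' hYC.kod)
    exact kge_pull' hQf hG.le hG.alg h2
  refine ⟨?_, fun hO b c hb hc => ?_⟩
  · obtain ⟨a, -, h4⟩ := kge_prod_upper hEf hYf hi (hdown 0 hQ0)
    exact kge_mono (Nat.zero_le _) h4
  · have h1 : KGE (B ⊔ Y) Q c := up hO.1 hX hPf hYf hQf hXP hPalg hG.le hG.alg hPQ hiX
      (hXP (hVX hα)) (hXP (hVX hβ)) heQ hsQ hr hΔ hx heq hEq htY htk hτQ' hτ hT0 hc
    have h2 := hO.2.2 Y Q₀ hYC hiX hQ₀ hG₀ b c hb h1
    obtain ⟨a, ha, h4⟩ := kge_prod_upper hEf hYf hi (hdown _ h2)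
    exact kge_mono (by omega) h4

/-- the closure of the class under elliptic fibre spaces over `V` -/
theorem OverC.elliptic [IsAlgClosed k] [IsAlgClosed Ω] {B V X E : IntermediateField k Ω}
    (hO : OverC B V X) (hX : Fin' X) (h0 : KodairaGE k X 0) (hE : IsEllipticOver V X E)
    (hΩ : ∀ A : IntermediateField k Ω, Fin' A → ∃ t : Ω, Transcendental A t) :
    OverC B V E ∧ KodairaGE k E 0 := by
  have hEf := hE.fin hX
  refine ⟨hO.of_top hX hEf h0 hE.le fun Y Q hY hi hQ hG hO' h0' b c hb hc => ?_,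
    (elliptic_core (B := B) hX hO.2.1 h0 hE (hΩ E hEf)).1⟩
  have hYf := hY.fin
  have hXQ : Fin' (X ⊔ Q) := fin_sup hX hQ
  have hE' : IsEllipticOver (V ⊔ Y) (X ⊔ Q) (E ⊔ Q) := by
    have hXE := hE.le
    obtain ⟨α, hα, β, hβ, x, y, hΔ, hx, heq, hEq⟩ := hE
    have hxE : x ∈ E := by
      rw [hEq]
      exact (le_sup_right : _ ≤ X ⊔ IntermediateField.adjoin k {x, y})
        (IntermediateField.subset_adjoin k _ (Or.inl rfl))
    refine ⟨α, (le_sup_left : V ≤ V ⊔ Y) hα, β, (le_sup_left : V ≤ V ⊔ Y) hβ, x, y, hΔ, ?_, heq,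
      ?_⟩
    · have h1 := trans_of_indep hEf hYf hXE hi hxE hx
      intro h2
      apply h1
      have h3 : X ⊔ Q ≤ cl (X ⊔ Y) := sup_le (le_sup_left.trans le_cl)
        ((alg_iff.1 hG.alg).trans (cl_mono (sup_le_sup_right hO.2.1 Y)))
      exact mem_cl.1 (cl_le h3 (mem_cl.2 h2))
    · rw [hEq, sup_right_comm]
  exact (elliptic_core hXQ (sup_le_sup hO.2.1 (le_sup_right.trans hG.le)) h0' hE'
    (hΩ _ (fin_sup hEf hQ))).2 hO' b c hb hc

end Pf72953.Et
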