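import Mathlib
import Pool.Agent.Lib.Pf72953i.Defs

/-!
Genus one fibre spaces `y² = q(x)`, `q` a quartic: definitions.
-/

set_option autoImplicit false

namespace Pf72953.Et

variable {P : Type*} [Field P]

/-- `q(x)` -/
def qv (q : Fin 5 → P) (x : P) : P := q 4 * x ^ 4 + q 3 * x ^ 3 + q 2 * x ^ 2 + q 1 * x + q 0

/-- `q'(x)` -/
def qd (q : Fin 5 → P) (x : P) : P := 4 * q 4 * x ^ 3 + 3 * q 3 * x ^ 2 + 2 * q 2 * x + q 1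

/-- `q''(x) / 6` -/
def qs (q : Fin 5 → P) (x : P) : P := (6 * q 4 * x ^ 2 + 3 * q 3 * x + q 2) / 3

/-- the invariant `-I/3` -/
def invA (q : Fin 5 → P) : P := -(12 * q 4 * q 0 - 3 * q 3 * q 1 + q 2 ^ 2) / 3

/-- the invariant `-J/27` -/
def invB (q : Fin 5 → P) : P :=
  -(72 * q 4 * q 2 * q 0 + 9 * q 3 * q 2 * q 1 - 27 * q 4 * q 1 ^ 2 - 27 * q 0 * q 3 ^ 2 -
    2 * q 2 ^ 3) / 27

/-- `r` are the roots of the quartic `q` -/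
structure QRoots (q : Fin 5 → P) (r : Fin 4 → P) : Prop where
  c3 : q 3 = -(q 4 * (r 0 + r 1 + r 2 + r 3))
  c2 : q 2 = q 4 * (r 0 * r 1 + r 0 * r 2 + r 0 * r 3 + r 1 * r 2 + r 1 * r 3 + r 2 * r 3)
  c1 : q 1 = -(q 4 * (r 0 * r 1 * r 2 + r 0 * r 1 * r 3 + r 0 * r 2 * r 3 + r 1 * r 2 * r 3))
  c0 : q 0 = q 4 * (r 0 * r 1 * r 2 * r 3)

end Pf72953.Et
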