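import Mathlib
import Pool.Agent.Lib.Pf72953i.QDefs

/-!
Genus one fibre spaces `y² = q(x)`, `q` a quartic: identities.
-/

set_option autoImplicit false

namespace Pf72953.Et

section alg

variable {P : Type*} [Field P] [CharZero P]

omit [CharZero P] in
theorem QRoots.root {q : Fin 5 → P} {r : Fin 4 → P} (h : QRoots q r) (i : Fin 4) :
    qv q (r i) = 0 := by
  unfold qv
  rw [h.c0, h.c1, h.c2, h.c3]
  fin_cases i <;> (simp only [Fin.zero_eta, Fin.mk_one, Fin.reduceFinMk]; ring)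

/-- the Weierstrass form -/
theorem weier_q {q : Fin 5 → P} {x y ρ : P} (hy : y ^ 2 = qv q x) (hρ : qv q ρ = 0) (hx : x ≠ ρ) :
    (qd q ρ * y / (x - ρ) ^ 2) ^ 2 = (qd q ρ / (x - ρ) + qs q ρ) ^ 3 +
      invA q * (qd q ρ / (x - ρ) + qs q ρ) + invB q := by
  have h0 : q 0 = -(q 4 * ρ ^ 4 + q 3 * ρ ^ 3 + q 2 * ρ ^ 2 + q 1 * ρ) := by
    unfold qv at hρ
    linear_combination hρ
  have hx' : x - ρ ≠ 0 := sub_ne_zero.2 hx
  rw [div_pow, mul_pow, hy]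
  unfold qv qd qs invA invB
  rw [h0]
  field_simp
  ring

/-- a second root -/
theorem root_e {q : Fin 5 → P} {ρ ρ' : P} (hρ : qv q ρ = 0) (hρ' : qv q ρ' = 0) (h : ρ' ≠ ρ) :
    (qd q ρ / (ρ' - ρ) + qs q ρ) ^ 3 + invA q * (qd q ρ / (ρ' - ρ) + qs q ρ) + invB q = 0 := by
  have h1 := weier_q (q := q) (x := ρ') (y := 0) (ρ := ρ) (by rw [hρ']; ring) hρ h
  rw [← h1]
  simp

omit [CharZero P] in
theorem coef_one {q : Fin 5 → P} {ρ ρ' : P} (hρ : qv q ρ = 0) (hρ' : qv q ρ' = 0) (h : ρ' ≠ ρ) :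
    q 1 = -(q 4 * (ρ ^ 3 + ρ ^ 2 * ρ' + ρ * ρ' ^ 2 + ρ' ^ 3) + q 3 * (ρ ^ 2 + ρ * ρ' + ρ' ^ 2) +
      q 2 * (ρ + ρ')) := by
  have h1 : (ρ' - ρ) ≠ 0 := sub_ne_zero.2 h
  unfold qv at hρ hρ'
  apply mul_left_cancel₀ h1
  linear_combination hρ' - hρ

/-- the translation by a point of order two -/
theorem transl {q : Fin 5 → P} {ρ ρ' x : P} (hρ : qv q ρ = 0) (hρ' : qv q ρ' = 0) (h : ρ' ≠ ρ)
    (hx : x ≠ ρ) (hx' : x ≠ ρ') :
    (qd q ρ / (x - ρ) + qs q ρ - (qd q ρ / (ρ' - ρ) + qs q ρ)) *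
      (qd q ρ' / (x - ρ') + qs q ρ' - (qd q ρ / (ρ' - ρ) + qs q ρ)) =
      3 * (qd q ρ / (ρ' - ρ) + qs q ρ) ^ 2 + invA q := by
  have h1 := coef_one hρ hρ' h
  have h0 : q 0 = -(q 4 * ρ ^ 4 + q 3 * ρ ^ 3 + q 2 * ρ ^ 2 + q 1 * ρ) := by
    unfold qv at hρ
    linear_combination hρ
  have e1 : ρ' - ρ ≠ 0 := sub_ne_zero.2 h
  have e2 : x - ρ ≠ 0 := sub_ne_zero.2 hx
  have e3 : x - ρ' ≠ 0 := sub_ne_zero.2 hx'
  unfold qd qs invA
  rw [h0, h1]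
  field_simp
  ring

/-- the roots are simple -/
theorem qd_ne {q : Fin 5 → P} {ρ : P} (hρ : qv q ρ = 0)
    (hΔ : 4 * invA q ^ 3 + 27 * invB q ^ 2 ≠ 0) : qd q ρ ≠ 0 := by
  intro h
  apply hΔ
  have h1 : q 1 = -(4 * q 4 * ρ ^ 3 + 3 * q 3 * ρ ^ 2 + 2 * q 2 * ρ) := by
    unfold qd at h
    linear_combination h
  have h0 : q 0 = -(q 4 * ρ ^ 4 + q 3 * ρ ^ 3 + q 2 * ρ ^ 2 + q 1 * ρ) := by
    unfold qv at hρ
    linear_combination hρ
  unfold invA invB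
  rw [h0, h1]
  ring

end alg

section der

variable {P N : Type*} [Field P] [Field N] [Algebra P N]

theorem der_q (D : Derivation P N N) {x y : N} {ρ c s : P} (hx : x ≠ algebraMap P N ρ) :
    D (algebraMap P N c / (x - algebraMap P N ρ) + algebraMap P N s) * y =
      -(algebraMap P N c * y / (x - algebraMap P N ρ) ^ 2 * D x) := by
  have hx' : x - algebraMap P N ρ ≠ 0 := sub_ne_zero.2 hx
  have h1 : D (x - algebraMap P N ρ) = D x := by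
    rw [map_sub, D.map_algebraMap, sub_zero]
  have h2 : D ((x - algebraMap P N ρ)⁻¹) = -((x - algebraMap P N ρ)⁻¹ ^ 2 * D x) := by
    rw [D.leibniz_inv, h1, smul_eq_mul]
    ring
  rw [map_add, D.map_algebraMap, add_zero, div_eq_mul_inv, D.leibniz, D.map_algebraMap, smul_zero,
    add_zero, smul_eq_mul, h2, div_eq_mul_inv, ← inv_pow]
  ring

end der

end Pf72953.Et
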