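import Mathlib
import Pool.Agent.Lib.Pf72953i.QDefs
import Pool.Agent.Lib.Pf72953i.Gal

/-!
Genus one fibre spaces `y² = q(x)`: the Galois extension generated by the roots of the quartic, the roots of the resolvent cubic,
the square roots of their differences and `τ`.
-/

set_option autoImplicit false
set_option linter.style.haveILetI false

open scoped WithZero
open Pf72953 Pf72953.Tow

namespace Pf72953.Et

section gal

variable {k Ω : Type*} [Field k] [Field Ω] [Algebra k Ω]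

theorem QRoots.prod {q : Fin 5 → Ω} {r : Fin 4 → Ω} (h : QRoots q r) (z : Ω) :
    qv q z = q 4 * ((z - r 0) * (z - r 1) * (z - r 2) * (z - r 3)) := by
  rw [qv, h.c3, h.c2, h.c1, h.c0]
  ring

theorem exists_qroots [IsAlgClosed Ω] {q : Fin 5 → Ω} (h4 : q 4 ≠ 0) :
    ∃ r : Fin 4 → Ω, QRoots q r := by
  have hroot : ∀ p : Polynomial Ω, p.degree ≠ 0 → ∃ z, Polynomial.eval z p = 0 := fun p hp =>
    IsAlgClosed.exists_root p hp
  obtain ⟨r0, h0⟩ : ∃ z : Ω, q 4 * z ^ 4 + q 3 * z ^ 3 + q 2 * z ^ 2 + q 1 * z + q 0 = 0 := by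
    set p : Polynomial Ω := Polynomial.C (q 4) * Polynomial.X ^ 4 + Polynomial.C (q 3) * Polynomial.X ^ 3 +
      Polynomial.C (q 2) * Polynomial.X ^ 2 + Polynomial.C (q 1) * Polynomial.X + Polynomial.C (q 0) with hp
    have hd : p.degree = 4 := by
      rw [hp]
      compute_degree!
    obtain ⟨z, hz⟩ := hroot p (by rw [hd]; decide)
    refine ⟨z, ?_⟩
    rw [hp] at hz
    simpa using hz
  obtain ⟨r1, h1⟩ : ∃ z : Ω, q 4 * z ^ 3 + (q 3 + q 4 * r0) * z ^ 2 +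
      (q 2 + q 3 * r0 + q 4 * r0 ^ 2) * z + (q 1 + q 2 * r0 + q 3 * r0 ^ 2 + q 4 * r0 ^ 3) = 0 := by
    set p : Polynomial Ω := Polynomial.C (q 4) * Polynomial.X ^ 3 +
      Polynomial.C (q 3 + q 4 * r0) * Polynomial.X ^ 2 +
      Polynomial.C (q 2 + q 3 * r0 + q 4 * r0 ^ 2) * Polynomial.X +
      Polynomial.C (q 1 + q 2 * r0 + q 3 * r0 ^ 2 + q 4 * r0 ^ 3) with hp
    have hd : p.degree = 3 := by
      rw [hp]
      compute_degree!
    obtain ⟨z, hz⟩ := hroot p (by rw [hd]; decide)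
    refine ⟨z, ?_⟩
    rw [hp] at hz
    simpa using hz
  obtain ⟨r2, h2⟩ : ∃ z : Ω, q 4 * z ^ 2 + (q 3 + q 4 * (r0 + r1)) * z +
      (q 2 + q 3 * (r0 + r1) + q 4 * (r0 ^ 2 + r0 * r1 + r1 ^ 2)) = 0 := by
    set p : Polynomial Ω := Polynomial.C (q 4) * Polynomial.X ^ 2 +
      Polynomial.C (q 3 + q 4 * (r0 + r1)) * Polynomial.X +
      Polynomial.C (q 2 + q 3 * (r0 + r1) + q 4 * (r0 ^ 2 + r0 * r1 + r1 ^ 2)) with hp
    have hd : p.degree = 2 := by
      rw [hp]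
      compute_degree!
    obtain ⟨z, hz⟩ := hroot p (by rw [hd]; decide)
    refine ⟨z, ?_⟩
    rw [hp] at hz
    simpa using hz
  refine ⟨![r0, r1, r2, -(q 3 / q 4) - r0 - r1 - r2], ⟨?_, ?_, ?_, ?_⟩⟩ <;>
    simp only [Matrix.cons_val_zero, Matrix.cons_val_one, Matrix.cons_val]
  · field_simp; ring
  · field_simp
    linear_combination h2
  · field_simp
    linear_combination h1 - (r0 + r1) * h2
  · field_simp
    linear_combination h0 - r0 * h1 + r0 * r1 * h2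

/-- the extension generated by the roots of the quartic -/
theorem gal_qroots {V : IntermediateField k Ω} {q : Fin 5 → Ω} (hq : ∀ i, q i ∈ V) (h4 : q 4 ≠ 0)
    {r : Fin 4 → Ω} (h : QRoots q r) : Gal V (V ⊔ IntermediateField.adjoin k (Set.range r)) := by
  have hmem : ∀ i, r i ∈ V ⊔ IntermediateField.adjoin k (Set.range r) := fun i =>
    (le_sup_right : _ ≤ V ⊔ IntermediateField.adjoin k (Set.range r))
      (IntermediateField.subset_adjoin _ _ ⟨i, rfl⟩)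
  have hev : ∀ i, qv q (r i) = 0 := by
    intro i
    rw [h.prod]
    fin_cases i <;> simp
  refine gal_adjoin ?_ ?_
  · rintro _ ⟨i, rfl⟩
    refine ⟨Polynomial.C (⟨q 4, hq 4⟩ : V) * Polynomial.X ^ 4 +
      Polynomial.C (⟨q 3, hq 3⟩ : V) * Polynomial.X ^ 3 +
      Polynomial.C (⟨q 2, hq 2⟩ : V) * Polynomial.X ^ 2 +
      Polynomial.C (⟨q 1, hq 1⟩ : V) * Polynomial.X + Polynomial.C (⟨q 0, hq 0⟩ : V), ?_, ?_⟩
    · intro h0
      have h1 := congrArg (fun p => Polynomial.coeff p 4) h0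
      simp [Polynomial.coeff_X_pow] at h1
      exact h4 (congrArg Subtype.val h1)
    · simp only [map_add, map_mul, map_pow, Polynomial.aeval_X, Polynomial.aeval_C]
      exact hev i
  · intro σ hσ
    rintro _ ⟨i, rfl⟩
    have h1 : qv q (σ (r i)) = 0 := by
      have h2 := congrArg σ (hev i)
      rw [map_zero] at h2
      rw [← h2, qv, qv]
      simp only [map_add, map_mul, map_pow, hσ _ (hq _)]
    rw [h.prod] at h1
    rcases mul_eq_zero.mp h1 with h2 | h2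
    · exact absurd h2 h4
    rcases mul_eq_zero.mp h2 with h3 | h3
    · rcases mul_eq_zero.mp h3 with h5 | h5
      · rcases mul_eq_zero.mp h5 with h6 | h6
        · rw [sub_eq_zero.mp h6]; exact hmem 0
        · rw [sub_eq_zero.mp h6]; exact hmem 1
      · rw [sub_eq_zero.mp h5]; exact hmem 2
    · rw [sub_eq_zero.mp h3]; exact hmem 3

/-- the field generated over `F` by the roots of the quartic and of the cubic, the square roots and `τ` -/
theorem exists_Q4 [CharZero k] [IsAlgClosed k] [IsAlgClosed Ω] {V F : IntermediateField k Ω}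
    (hVF : V ≤ F) (hF : Fin' F) {q : Fin 5 → Ω} {c : Ω} (hq : ∀ i, q i ∈ V) (h4 : q 4 ≠ 0)
    (hc : c ∈ F) (hV : Fin' V) (h2 : (c + 1) * invA q ^ 3 + invB q ^ 2 ≠ 0) :
    ∃ (r : Fin 4 → Ω) (e s : Fin 3 → Ω) (τ : Ω), QRoots q r ∧ Roots (invA q) (invB q) e s ∧
      τ ^ 2 * ((c + 1) * invA q ^ 3 + invB q ^ 2) = c * invA q ^ 3 + invB q ^ 2 ∧
      ∃ P Q : IntermediateField k Ω, Fin' P ∧ Fin' Q ∧ Gal V P ∧ Gal F Q ∧ P ≤ Q ∧
        (∀ i, r i ∈ P) ∧ (∀ i, e i ∈ P) ∧ (∀ i, s i ∈ P) ∧ τ ∈ Q ∧ ∀ σ : Ω ≃ₐ[k] Ω, Fixes σ F →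
          (∀ i, σ (r i) = r i) → (∀ i, σ (e i) = e i) → (∀ i, σ (s i) = s i) → σ τ = τ →
          Fixes σ Q := by
  obtain ⟨r, hr⟩ := exists_qroots h4
  have hnat : ∀ n : ℕ, (n : Ω) ∈ V := fun n => natCast_mem V n
  have hofn : ∀ n : ℕ, [n.AtLeastTwo] → (OfNat.ofNat n : Ω) ∈ V := fun n _ => by
    have := hnat n
    rwa [← Nat.cast_ofNat (R := Ω) (n := n)]
  have ha : invA q ∈ V := by
    rw [invA]
    exact V.div_mem (V.neg_mem (V.add_mem (V.sub_mem (V.mul_mem (V.mul_mem (hofn 12) (hq 4)) (hq 0))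
      (V.mul_mem (V.mul_mem (hofn 3) (hq 3)) (hq 1))) (pow_mem (hq 2) 2))) (hofn 3)
  have hb : invB q ∈ V := by
    rw [invB]
    refine V.div_mem (V.neg_mem (V.sub_mem (V.sub_mem (V.sub_mem (V.add_mem ?_ ?_) ?_) ?_) ?_)) (hofn 27)
    · exact V.mul_mem (V.mul_mem (V.mul_mem (hofn 72) (hq 4)) (hq 2)) (hq 0)
    · exact V.mul_mem (V.mul_mem (V.mul_mem (hofn 9) (hq 3)) (hq 2)) (hq 1)
    · exact V.mul_mem (V.mul_mem (hofn 27) (hq 4)) (pow_mem (hq 1) 2)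
    · exact V.mul_mem (V.mul_mem (hofn 27) (hq 0)) (pow_mem (hq 3) 2)
    · exact V.mul_mem (hofn 2) (pow_mem (hq 2) 3)
  obtain ⟨e, s, τ, h, hτ, P₀, Q₀, hP₀, hQ₀, hVP, hFQ, hPQ, he, hs, hτQ, hfix⟩ :=
    exists_Q hVF hF ha hb hc hV h2
  set R := V ⊔ IntermediateField.adjoin k (Set.range r) with hR
  have hVR : Gal V R := gal_qroots hq h4 hr
  have hRf : Fin' R := fin_sup hV (fin_adjoin (Set.finite_range r))
  refine ⟨r, e, s, τ, hr, h, hτ, P₀ ⊔ R, Q₀ ⊔ (R ⊔ F), fin_sup hP₀ hRf,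
    fin_sup hQ₀ (fin_sup hRf hF), hVP.sup hVR, hFQ.sup (hVR.base F hVF),
    sup_le_sup hPQ le_sup_left, fun i => ?_, fun i => (le_sup_left : P₀ ≤ _) (he i),
    fun i => (le_sup_left : P₀ ≤ _) (hs i), (le_sup_left : Q₀ ≤ _) hτQ, ?_⟩
  · exact (le_sup_right : R ≤ _) ((le_sup_right : _ ≤ R)
      (IntermediateField.subset_adjoin _ _ ⟨i, rfl⟩))
  · intro σ hσF hσr hσe hσs hστ
    refine (hfix σ hσF hσe hσs hστ).sup79 (Fixes.sup79 ((hσF.mono hVF).sup79 (fixes_adjoin ?_)) hσF)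
    rintro _ ⟨i, rfl⟩
    exact hσr i

end gal

end Pf72953.Et
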