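import Mathlib
import Pool.Agent.Lib.Pf72953i.Main
import Pool.Agent.Lib.Pf72953j.Cls

/-!
Elliptic fibre spaces over stable fibre spaces, in terms of the Kodaira dimensions.
-/

set_option autoImplicit false
set_option linter.style.haveILetI false

open scoped WithZero
open Pf72953 Pf72953.Mov Pf72953.Tow

namespace Pf72953.Et

variable {k Ω : Type*} [Field k] [CharZero k] [IsAlgClosed k] [Field Ω] [IsAlgClosed Ω]
  [Algebra k Ω]

omit [CharZero k] [IsAlgClosed k] [IsAlgClosed Ω] in
theorem IsElliptic.le {V E : IntermediateField k Ω} (h : IsElliptic V E) : V ≤ E := by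
  obtain ⟨a, -, b, -, x, y, -, -, -, rfl⟩ := h
  exact le_sup_left

omit [CharZero k] [IsAlgClosed k] [IsAlgClosed Ω] in
theorem IsElliptic.fin {V E : IntermediateField k Ω} (hV : Fin' V) (h : IsElliptic V E) :
    Fin' E := by
  classical
  obtain ⟨a, -, b, -, x, y, -, -, -, rfl⟩ := h
  refine fin_sup hV ?_
  rw [Fin', IntermediateField.essFiniteType_iff]
  exact ⟨{x, y}, by rw [Finset.coe_pair]⟩

theorem iitaka_elliptic {B V E : IntermediateField k Ω} (hS : StableFib B V) (hV : Fin' V)
    (h0 : kodairaDim k V ≠ ⊥) (hE : IsElliptic V E) (hΩ : ∃ t : Ω, Transcendental E t) :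
    Iitaka B E :=
  iitaka_of (hE.fin hV) (fin_le hV hS.1) fun _ _ hb hc =>
    elliptic_top hV ((stableFib_iff hV).1 hS) ((kge_zero_iff hV).1 h0) hE hΩ hb hc

end Pf72953.Et
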